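import Pool.Agent.R525.FP.Stm

/-! # FP-BOOT: bootstrap -/

set_option autoImplicit false

open MeasureTheory Set Filter Topology
open scoped ENNReal

namespace Pool.Agent.R525.FP

namespace BootAux

lemma fin (n : ℕ) (R : ℝ) : IsFiniteMeasure (wm n R) := by
  unfold wm
  refine isFiniteMeasure_withDensity (lt_of_le_of_lt (b :=
    ∫⁻ _ in Ioo 0 R, ENNReal.ofReal (R ^ n)) ?_ ?_).ne
  · refine setLIntegral_mono' measurableSet_Ioo fun r hr => ?_
    exact ENNReal.ofReal_le_ofReal (pow_le_pow_left₀ hr.1.le hr.2.le n)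
  · rw [setLIntegral_const]
    exact ENNReal.mul_lt_top ENNReal.ofReal_lt_top (by simp)

lemma ae_vol {n : ℕ} {R : ℝ} {p : ℝ → Prop} (h : ∀ᵐ s ∂(wm n R), p s) :
    ∀ᵐ s ∂(volume : Measure ℝ), s ∈ Ioo 0 R → p s := by
  unfold wm at h
  rw [ae_withDensity_iff (by fun_prop)] at h
  rw [ae_restrict_iff' measurableSet_Ioo] at h
  filter_upwards [h] with s hs hs'
  refine hs hs' ?_
  have : 0 < s ^ n := pow_pos hs'.1 n
  simpa using this

lemma ae_mem (n : ℕ) (R : ℝ) : ∀ᵐ s ∂(wm n R), s ∈ Ioo 0 R := by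
  unfold wm
  exact (withDensity_absolutelyContinuous _ _).ae_le (ae_restrict_mem measurableSet_Ioo)

/-- the basic estimate -/
lemma basic (h2 : ItP) (n : ℕ) (R : ℝ) (hR : 0 < R) (G : ℝ → ℝ) (hG : Integrable G (wm n R))
    (A τ : ℝ) (hA : 0 ≤ A) (hτ : τ ≤ n)
    (hb : ∀ᵐ s ∂(wm n R), |G s| ≤ A * s ^ (-τ)) :
    ∀ r ∈ Ioo (0 : ℝ) R, |FF n R G r| ≤ A * (1 + R ^ (1 - τ)) * R * r ^ (-(max (τ - 1) 0)) := by
  intro r hr
  obtain ⟨-, -, hF⟩ := h2 n R hR G hG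
  rw [hF r ⟨hr.1, hr.2.le⟩, abs_neg]
  have hvol := ae_vol hb
  have hRp : 0 < R ^ (1 - τ) := Real.rpow_pos_of_pos hR _
  have hrp : 0 < r ^ (-(max (τ - 1) 0)) := Real.rpow_pos_of_pos hr.1 _
  have key : ∀ u ∈ Set.uIoc r R, ‖(u ^ n)⁻¹ * ∫ s in (0:ℝ)..u, G s * s ^ n‖ ≤
      A * (1 + R ^ (1 - τ)) * r ^ (-(max (τ - 1) 0)) := by
    intro u hu
    rw [uIoc_of_le hr.2.le] at hu
    have hu0 : 0 < u := hr.1.trans hu.1
    have hin : ‖∫ s in (0:ℝ)..u, G s * s ^ n‖ ≤ (A * u ^ ((n : ℝ) - τ)) * |u - 0| := by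
      refine intervalIntegral.norm_integral_le_of_norm_le_const_ae ?_
      have hne : ∀ᵐ s ∂(volume : Measure ℝ), s ≠ R := by
        rw [ae_iff]; simp
      filter_upwards [hvol, hne] with s hs hsR hsu
      rw [uIoc_of_le hu0.le] at hsu
      have hs0 : 0 < s := hsu.1
      have h3 := hs ⟨hs0, lt_of_le_of_ne (hsu.2.trans hu.2) hsR⟩
      rw [norm_mul, Real.norm_eq_abs, Real.norm_of_nonneg (pow_nonneg hs0.le n)]
      calc |G s| * s ^ n ≤ (A * s ^ (-τ)) * s ^ n :=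
            mul_le_mul_of_nonneg_right h3 (pow_nonneg hs0.le n)
        _ = A * s ^ ((n : ℝ) - τ) := by
            rw [mul_assoc, ← Real.rpow_natCast s n, ← Real.rpow_add hs0]
            congr 2; ring
        _ ≤ A * u ^ ((n : ℝ) - τ) :=
            mul_le_mul_of_nonneg_left (Real.rpow_le_rpow hs0.le hsu.2 (by linarith)) hA
    rw [sub_zero, abs_of_pos hu0] at hin
    rw [norm_mul, norm_inv, Real.norm_of_nonneg (pow_nonneg hu0.le n)]
    have hun : 0 < u ^ n := pow_pos hu0 n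
    have h4 : (u ^ n)⁻¹ * ‖∫ s in (0:ℝ)..u, G s * s ^ n‖ ≤ A * u ^ (1 - τ) := by
      rw [inv_mul_le_iff₀ hun]
      refine hin.trans (le_of_eq ?_)
      have h5 : u ^ ((n : ℝ) - τ) * u = u ^ n * u ^ (1 - τ) := by
        nth_rewrite 2 [← Real.rpow_one u]
        rw [← Real.rpow_natCast u n, ← Real.rpow_add hu0, ← Real.rpow_add hu0]
        congr 1; ring
      calc A * u ^ ((n : ℝ) - τ) * u = A * (u ^ ((n : ℝ) - τ) * u) := by ring
        _ = A * (u ^ n * u ^ (1 - τ)) := by rw [h5]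
        _ = u ^ n * (A * u ^ (1 - τ)) := by ring
    refine h4.trans ?_
    rw [mul_assoc]
    refine mul_le_mul_of_nonneg_left ?_ hA
    rcases le_total τ 1 with h | h
    · have e : max (τ - 1) 0 = 0 := max_eq_right (by linarith)
      rw [e, neg_zero, Real.rpow_zero, mul_one]
      have := Real.rpow_le_rpow hu0.le hu.2 (show 0 ≤ 1 - τ by linarith)
      linarith
    · have e : max (τ - 1) 0 = τ - 1 := max_eq_left (by linarith)
      rw [e, neg_sub]
      have h6 : u ^ (1 - τ) ≤ r ^ (1 - τ) :=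
        Real.rpow_le_rpow_of_nonpos hr.1 hu.1.le (by linarith)
      have h7 : 0 < r ^ (1 - τ) := Real.rpow_pos_of_pos hr.1 _
      nlinarith
  have h8 := intervalIntegral.norm_integral_le_of_norm_le_const key
  rw [Real.norm_eq_abs] at h8
  refine h8.trans ?_
  rw [abs_of_pos (by linarith [hr.2] : 0 < R - r)]
  have h9 : R - r ≤ R := by linarith [hr.1]
  have h10 : 0 ≤ A * (1 + R ^ (1 - τ)) * r ^ (-(max (τ - 1) 0)) := by positivity
  calc A * (1 + R ^ (1 - τ)) * r ^ (-(max (τ - 1) 0)) * (R - r)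
      ≤ A * (1 + R ^ (1 - τ)) * r ^ (-(max (τ - 1) 0)) * R := mul_le_mul_of_nonneg_left h9 h10
    _ = _ := by ring

lemma step (h1 : KerP) (h2 : ItP) (n : ℕ) (R μ c : ℝ) (g : ℝ → ℝ) (hR : 0 < R) (hμ : 0 < μ)
    (hg : MemLp g 3 (wm n R))
    (hEL : ∀ᵐ s ∂(wm n R), 3 * μ * (|g s| * g s) =
      c + FF n R (fun r => 3 * (FF n R g r) ^ 2 - 2 * μ * FF n R g r) s)
    (σ : ℝ) (hσ0 : 0 ≤ σ) (hσ : σ ≤ n / 3) (C : ℝ) (hC : 0 ≤ C)
    (hb : ∀ r ∈ Ioo (0 : ℝ) R, |FF n R g r| ≤ C * r ^ (-σ)) :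
    ∃ C' : ℝ, 0 ≤ C' ∧ ∀ r ∈ Ioo (0 : ℝ) R,
      |FF n R g r| ≤ C' * r ^ (-(max (max (2 * σ - 1) 0 / 2 - 1) 0)) := by
  have := fin n R
  obtain ⟨-, hK2, -, -⟩ := h1 n R hR
  have hn : (0 : ℝ) ≤ n := Nat.cast_nonneg n
  have hf3 := hK2 g hg
  have hf2 : MemLp (FF n R g) 2 (wm n R) := hf3.mono_exponent (by norm_num)
  have hf1 : Integrable (FF n R g) (wm n R) := hf3.integrable (by norm_num)
  set q : ℝ → ℝ := fun r => 3 * (FF n R g r) ^ 2 - 2 * μ * FF n R g r with hq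
  have hqi : Integrable q (wm n R) := (hf2.integrable_sq.const_mul 3).sub (hf1.const_mul (2 * μ))
  have hRσ : 0 < R ^ σ := Real.rpow_pos_of_pos hR _
  have hqb : ∀ᵐ s ∂(wm n R), |q s| ≤ (3 * C ^ 2 + 2 * μ * C * R ^ σ) * s ^ (-(2 * σ)) := by
    filter_upwards [ae_mem n R] with s hs
    have h3 := hb s hs
    have hs0 : 0 < s := hs.1
    have hsp : 0 < s ^ (-σ) := Real.rpow_pos_of_pos hs0 _
    have e1 : s ^ (-(2 * σ)) = (s ^ (-σ)) ^ 2 := by
      rw [← Real.rpow_natCast, ← Real.rpow_mul hs0.le]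
      congr 1; push_cast; ring
    have e2 : s ^ (-σ) ≤ R ^ σ * s ^ (-(2 * σ)) := by
      have : s ^ (-σ) = s ^ σ * s ^ (-(2 * σ)) := by
        rw [← Real.rpow_add hs0]; congr 1; ring
      rw [this]
      exact mul_le_mul_of_nonneg_right (Real.rpow_le_rpow hs0.le hs.2.le hσ0)
        (Real.rpow_nonneg hs0.le _)
    have h4 : (FF n R g s) ^ 2 ≤ C ^ 2 * s ^ (-(2 * σ)) := by
      rw [e1, ← mul_pow, ← sq_abs]
      exact pow_le_pow_left₀ (abs_nonneg _) h3 2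
    have h5 : |FF n R g s| ≤ C * (R ^ σ * s ^ (-(2 * σ))) :=
      h3.trans (mul_le_mul_of_nonneg_left e2 hC)
    calc |q s| ≤ |3 * (FF n R g s) ^ 2| + |2 * μ * FF n R g s| := abs_sub _ _
      _ = 3 * (FF n R g s) ^ 2 + 2 * μ * |FF n R g s| := by
          rw [abs_of_nonneg (by positivity), abs_mul, abs_of_pos (by positivity : 0 < 2 * μ)]
      _ ≤ 3 * (C ^ 2 * s ^ (-(2 * σ))) + 2 * μ * (C * (R ^ σ * s ^ (-(2 * σ)))) := by
          refine add_le_add (by linarith) (mul_le_mul_of_nonneg_left h5 (by positivity))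
      _ = _ := by ring
  set A₁ : ℝ := 3 * C ^ 2 + 2 * μ * C * R ^ σ with hA₁
  have hA₁0 : 0 ≤ A₁ := by positivity
  have hH := basic h2 n R hR q hqi A₁ (2 * σ) hA₁0 (by linarith) hqb
  set e : ℝ := max (2 * σ - 1) 0 with he
  have he0 : 0 ≤ e := le_max_right _ _
  set A₂ : ℝ := A₁ * (1 + R ^ (1 - 2 * σ)) * R with hA₂
  have hA₂0 : 0 ≤ A₂ := by positivity
  set A₃ : ℝ := |c| * R ^ e + A₂ with hA₃
  have hRe : 0 < R ^ e := Real.rpow_pos_of_pos hR _
  have hA₃0 : 0 ≤ A₃ := by positivity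
  have hgb : ∀ᵐ s ∂(wm n R), |g s| ≤ Real.sqrt (A₃ / (3 * μ)) * s ^ (-(e / 2)) := by
    filter_upwards [ae_mem n R, hEL] with s hs hel
    have hs0 : 0 < s := hs.1
    have hse : 0 < s ^ (-e) := Real.rpow_pos_of_pos hs0 _
    have h3 : |3 * μ * (|g s| * g s)| ≤ A₃ * s ^ (-e) := by
      rw [hel]
      refine (abs_add_le _ _).trans ?_
      have h4 := hH s hs
      have h5 : |c| ≤ |c| * R ^ e * s ^ (-e) := by
        rw [mul_assoc]
        refine le_mul_of_one_le_right (abs_nonneg _) ?_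
        rw [Real.rpow_neg hs0.le, ← div_eq_mul_inv, one_le_div (Real.rpow_pos_of_pos hs0 _)]
        exact Real.rpow_le_rpow hs0.le hs.2.le he0
      calc |c| + |FF n R q s| ≤ |c| * R ^ e * s ^ (-e) + A₂ * s ^ (-e) := add_le_add h5 h4
        _ = A₃ * s ^ (-e) := by rw [hA₃]; ring
    rw [abs_mul (3 * μ), abs_mul (|g s|), abs_abs, abs_of_pos (by positivity : 0 < 3 * μ)] at h3
    refine abs_le_of_sq_le_sq ?_ (by positivity)
    rw [mul_pow, Real.sq_sqrt (by positivity)]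
    have e1 : (s ^ (-(e / 2))) ^ 2 = s ^ (-e) := by
      rw [← Real.rpow_natCast, ← Real.rpow_mul hs0.le]
      congr 1; push_cast; ring
    rw [e1, ← sq_abs, div_mul_eq_mul_div, le_div_iff₀ (by positivity)]
    linarith
  have he2 : e / 2 ≤ n := by
    have : e ≤ 2 * σ := max_le (by linarith) (by linarith)
    linarith
  have hfin := basic h2 n R hR g (hg.integrable (by norm_num)) (Real.sqrt (A₃ / (3 * μ))) (e / 2)
    (Real.sqrt_nonneg _) he2 hgb
  refine ⟨Real.sqrt (A₃ / (3 * μ)) * (1 + R ^ (1 - e / 2)) * R, by positivity, hfin⟩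

end BootAux

open BootAux in
theorem bootP (h1 : KerP) (h2 : ItP) : BootP := by
  intro n R μ c g hR hμ hg hEL
  have hn : (0 : ℝ) ≤ n := Nat.cast_nonneg n
  have claim : ∀ j : ℕ, ∃ C : ℝ, 0 ≤ C ∧ ∀ r ∈ Ioo (0 : ℝ) R,
      |FF n R g r| ≤ C * r ^ (-(max ((n : ℝ) / 3 - 3 / 2 * j) 0)) := by
    intro j
    induction j with
    | zero =>
      obtain ⟨⟨C, hC0, hC⟩, -⟩ := h1 n R hR
      refine ⟨C * (∫ s, |g s| ^ 3 ∂(wm n R)) ^ (1 / 3 : ℝ), ?_, fun r hr => ?_⟩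
      · have : 0 ≤ ∫ s, |g s| ^ 3 ∂(wm n R) := integral_nonneg fun s => by positivity
        positivity
      · have e : -(max ((n : ℝ) / 3 - 3 / 2 * ((0 : ℕ) : ℝ)) 0) = -(n : ℝ) / 3 := by
          rw [Nat.cast_zero, mul_zero, sub_zero, max_eq_left (by positivity)]
          ring
        rw [e]
        exact hC g hg r hr
    | succ j ih =>
      obtain ⟨C, hC0, hC⟩ := ih
      obtain ⟨C', hC'0, hC'⟩ := step h1 h2 n R μ c g hR hμ hg hEL _ (le_max_right _ _)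
        (max_le (by
          have : (0 : ℝ) ≤ j := Nat.cast_nonneg j
          linarith) (by positivity)) C hC0 hC
      refine ⟨C', hC'0, fun r hr => ?_⟩
      have e : max (max (2 * max ((n : ℝ) / 3 - 3 / 2 * j) 0 - 1) 0 / 2 - 1) 0 =
          max ((n : ℝ) / 3 - 3 / 2 * ((j + 1 : ℕ) : ℝ)) 0 := by
        push_cast
        set a : ℝ := (n : ℝ) / 3 - 3 / 2 * j with ha
        have ha' : (n : ℝ) / 3 - 3 / 2 * ((j : ℝ) + 1) = a - 3 / 2 := by rw [ha]; ring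
        rw [ha']
        rcases le_total a 0 with h | h
        · rw [max_eq_right h, max_eq_right (by norm_num : (2 : ℝ) * 0 - 1 ≤ 0),
            max_eq_right (by norm_num : (0 : ℝ) / 2 - 1 ≤ 0), max_eq_right (by linarith)]
        · rw [max_eq_left h]
          rcases le_total (2 * a - 1) 0 with h' | h'
          · rw [max_eq_right h', max_eq_right (by norm_num : (0 : ℝ) / 2 - 1 ≤ 0),
              max_eq_right (by linarith)]
          · rw [max_eq_left h']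
            congr 1; ring
      rw [← e]
      exact hC' r hr
  obtain ⟨C, hC0, hC⟩ := claim n
  refine ⟨C, fun r hr => ?_⟩
  have h3 := hC r hr
  have e : max ((n : ℝ) / 3 - 3 / 2 * (n : ℝ)) 0 = 0 := max_eq_right (by linarith)
  rw [e, neg_zero, Real.rpow_zero, mul_one] at h3
  exact h3

end Pool.Agent.R525.FP
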