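import Pool.Agent.R525.FP.Stm

/-! Project FP, piece FP-BUMP: the explicit competitor `(1 - r^2)^3`. -/

set_option autoImplicit false

open MeasureTheory Set

namespace Pool.Agent.R525.FP

namespace BumpAux

/-- `(1 - s^2)_+` -/
noncomputable def wc (s : ℝ) : ℝ := max (1 - s ^ 2) 0

lemma wc_cont : Continuous wc := by unfold wc; fun_prop

lemma wc_nonneg (s : ℝ) : 0 ≤ wc s := le_max_right _ _

lemma wc_one {s : ℝ} (h : 1 ≤ s) : wc s = 0 := by
  unfold wc; exact max_eq_right (by nlinarith)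

lemma wc_lt {s : ℝ} (h0 : 0 ≤ s) (h1 : s < 1) : wc s = 1 - s ^ 2 := by
  unfold wc; exact max_eq_left (by nlinarith)

lemma wc_deriv {x : ℝ} (h0 : 0 < x) (h : x ≠ 1) :
    HasDerivAt wc (if x < 1 then -2 * x else 0) x := by
  by_cases h1 : x < 1
  · rw [if_pos h1]
    have e : wc =ᶠ[nhds x] fun s => 1 - s ^ 2 := by
      filter_upwards [Ioo_mem_nhds h0 h1] with s hs
      exact wc_lt hs.1.le hs.2
    have d : HasDerivAt (fun s : ℝ => 1 - s ^ 2) (-2 * x) x := by
      have := ((hasDerivAt_id x).pow 2).const_sub 1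
      refine this.congr_deriv ?_
      simp
    exact d.congr_of_eventuallyEq e
  · rw [if_neg h1]
    have h2 : 1 < x := lt_of_le_of_ne (not_lt.mp h1) (Ne.symm h)
    have e : wc =ᶠ[nhds x] fun _ => 0 := by
      filter_upwards [Ioi_mem_nhds h2] with s hs
      exact wc_one (le_of_lt hs)
    exact (hasDerivAt_const x (0 : ℝ)).congr_of_eventuallyEq e

/-- the competitor -/
noncomputable def g0 (n : ℕ) (s : ℝ) : ℝ := -6 * ((n : ℝ) + 1) * wc s ^ 2 + 24 * s ^ 2 * wc s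

lemma g0_cont (n : ℕ) : Continuous (g0 n) := by
  have := wc_cont
  unfold g0; fun_prop

lemma g0_one (n : ℕ) {s : ℝ} (h : 1 ≤ s) : g0 n s = 0 := by
  unfold g0; rw [wc_one h]; ring

lemma wc_le (s : ℝ) : wc s ≤ 1 := by
  unfold wc; exact max_le (by nlinarith [sq_nonneg s]) (by norm_num)

lemma sq_wc_le (s : ℝ) : s ^ 2 * wc s ≤ 1 := by
  unfold wc
  rcases le_total (1 - s ^ 2) 0 with h | h
  · rw [max_eq_right h]; norm_num
  · rw [max_eq_left h]; nlinarith [sq_nonneg s]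

lemma g0_bd (n : ℕ) (s : ℝ) : |g0 n s| ≤ 6 * ((n : ℝ) + 1) + 24 := by
  unfold g0
  have h1 := wc_nonneg s
  have h2 := wc_le s
  have h3 := sq_wc_le s
  have h4 : 0 ≤ s ^ 2 * wc s := by positivity
  have h5 : wc s ^ 2 ≤ 1 := by nlinarith
  have h6 : 0 ≤ wc s ^ 2 := by positivity
  have h7 : 0 ≤ (n : ℝ) := by positivity
  rw [abs_le]
  constructor <;> nlinarith [mul_nonneg h7 h6, mul_nonneg h7 (sub_nonneg.mpr h5)]

lemma prim (n : ℕ) (a : ℝ) {u : ℝ} (hu : 0 ≤ u) :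
    ∫ s in (0:ℝ)..u, a * g0 n s * s ^ n = a * (-6 * u ^ (n + 1) * wc u ^ 2) := by
  have hc := wc_cont
  have hg := g0_cont n
  have h := integral_eq_of_hasDerivAt_off_countable_of_le
    (fun u => a * (-6 * u ^ (n + 1) * wc u ^ 2)) (fun s => a * g0 n s * s ^ n) hu
    (s := {1}) (Set.countable_singleton 1) (by fun_prop) ?_
    (Continuous.intervalIntegrable (by fun_prop) _ _)
  · rw [h]; simp
  · intro x hx
    have hx0 : 0 < x := hx.1.1
    have hx1 : x ≠ 1 := hx.2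
    have d := wc_deriv hx0 hx1
    have d2 := (((((hasDerivAt_id x).pow (n + 1)).const_mul (-6 : ℝ)).mul (d.pow 2)).const_mul a)
    refine d2.congr_deriv ?_
    unfold g0
    simp only [id, Nat.add_sub_cancel]
    by_cases h1 : x < 1
    · rw [if_pos h1]; push_cast
      simp only [Pi.pow_apply, id, pow_one]
      ring
    · rw [if_neg h1, wc_one (not_lt.mp h1)]
      simp only [Pi.pow_apply, id, wc_one (not_lt.mp h1)]
      ring

lemma ffint (n : ℕ) (a : ℝ) {r R : ℝ} (hr : 0 < r) (hrR : r ≤ R) (hR : 1 ≤ R) :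
    ∫ u in r..R, (u ^ n)⁻¹ * (a * (-6 * u ^ (n + 1) * wc u ^ 2)) = -(a * wc r ^ 3) := by
  have hc := wc_cont
  have e : ∫ u in r..R, (u ^ n)⁻¹ * (a * (-6 * u ^ (n + 1) * wc u ^ 2)) =
      ∫ u in r..R, a * (-6 * u * wc u ^ 2) := by
    refine intervalIntegral.integral_congr fun u hu => ?_
    rw [Set.uIcc_of_le hrR] at hu
    have hu0 : u ^ n ≠ 0 := by
      have : 0 < u := lt_of_lt_of_le hr hu.1
      positivity
    rw [pow_succ]
    field_simp
  rw [e]
  have h := integral_eq_of_hasDerivAt_off_countable_of_le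
    (fun u => a * wc u ^ 3) (fun u => a * (-6 * u * wc u ^ 2)) hrR
    (s := {1}) (Set.countable_singleton 1) (by fun_prop) ?_
    (Continuous.intervalIntegrable (by fun_prop) _ _)
  · rw [h, wc_one hR]; ring
  · intro x hx
    have hx0 : 0 < x := lt_trans hr hx.1.1
    have hx1 : x ≠ 1 := hx.2
    have d := wc_deriv hx0 hx1
    refine ((d.pow 3).const_mul a).congr_deriv ?_
    by_cases h1 : x < 1
    · rw [if_pos h1]; push_cast; ring
    · rw [if_neg h1, wc_one (not_lt.mp h1)]; ring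

lemma fin_wm (n : ℕ) (R : ℝ) : IsFiniteMeasure (wm n R) := by
  unfold wm
  refine isFiniteMeasure_withDensity_ofReal ?_
  have h : IntegrableOn (fun r : ℝ => r ^ n) (Icc 0 R) :=
    (continuous_pow n).integrableOn_Icc
  exact (h.mono_set Ioo_subset_Icc_self).2

lemma integral_eq (n : ℕ) (R : ℝ) (g : ℝ → ℝ) :
    ∫ s, g s ∂(wm n R) = ∫ s in Ioo 0 R, g s * s ^ n := by
  unfold wm
  rw [integral_withDensity_eq_integral_toReal_smul (by fun_prop)
    (ae_of_all _ fun _ => ENNReal.ofReal_lt_top)]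
  refine setIntegral_congr_fun measurableSet_Ioo fun s hs => ?_
  simp only [smul_eq_mul]
  rw [ENNReal.toReal_ofReal (pow_nonneg hs.1.le n), mul_comm]

lemma integral_one (n : ℕ) {R : ℝ} (hR : 1 ≤ R) (F G : ℝ → ℝ) (hG : ∀ s, 1 ≤ s → G s = 0)
    (hFG : ∀ s ∈ Ioo 0 R, F s = G s) :
    ∫ s, F s ∂(wm n R) = ∫ s in Ioo 0 1, G s * s ^ n := by
  rw [integral_eq]
  have h1 : ∫ s in Ioo 0 R, F s * s ^ n = ∫ s in Ioo 0 R, G s * s ^ n :=
    setIntegral_congr_fun measurableSet_Ioo fun s hs => by simp only [hFG s hs]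
  rw [h1]
  refine setIntegral_eq_of_subset_of_forall_sdiff_eq_zero measurableSet_Ioo
    (Set.Ioo_subset_Ioo_right hR) fun s hs => ?_
  have h2 : 1 ≤ s := by
    by_contra h3
    exact hs.2 ⟨hs.1.1, not_le.mp h3⟩
  rw [hG s h2]; ring

end BumpAux

open BumpAux in
theorem bumpP (h : ItP) : BumpP := by
  intro n
  have hc := wc_cont
  have hgc := g0_cont n
  have hA0 : 0 ≤ ∫ s in Ioo (0:ℝ) 1, |g0 n s| ^ 3 * s ^ n :=
    setIntegral_nonneg measurableSet_Ioo fun s hs => by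
      have : 0 < s := hs.1
      positivity
  have hB0 : 0 ≤ ∫ s in Ioo (0:ℝ) 1, (wc s ^ 3) ^ 2 * s ^ n :=
    setIntegral_nonneg measurableSet_Ioo fun s hs => by
      have : 0 < s := hs.1
      positivity
  have hP0 : 0 < ∫ s in Ioo (0:ℝ) 1, (wc s ^ 3) ^ 3 * s ^ n := by
    rw [← integral_Ioc_eq_integral_Ioo, ← intervalIntegral.integral_of_le (by norm_num)]
    refine intervalIntegral.intervalIntegral_pos_of_pos_on
      (Continuous.intervalIntegrable (by fun_prop) _ _) (fun s hs => ?_) (by norm_num)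
    have h1 : 0 < wc s := by rw [wc_lt hs.1.le hs.2]; nlinarith [hs.1, hs.2]
    have h2 : 0 < s := hs.1
    positivity
  obtain ⟨A, hA⟩ : ∃ A, A = ∫ s in Ioo (0:ℝ) 1, |g0 n s| ^ 3 * s ^ n := ⟨_, rfl⟩
  obtain ⟨B, hB⟩ : ∃ B, B = ∫ s in Ioo (0:ℝ) 1, (wc s ^ 3) ^ 2 * s ^ n := ⟨_, rfl⟩
  obtain ⟨P, hP⟩ : ∃ P, P = ∫ s in Ioo (0:ℝ) 1, (wc s ^ 3) ^ 3 * s ^ n := ⟨_, rfl⟩
  rw [← hA] at hA0
  rw [← hB] at hB0
  rw [← hP] at hP0
  obtain ⟨a, ha⟩ : ∃ a : ℝ, a = 1 / (1 + A + B) := ⟨_, rfl⟩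
  have ha0 : 0 < a := by rw [ha]; positivity
  have ha1 : a ≤ 1 := by
    rw [ha, div_le_one (by positivity)]; linarith
  have haAB : a * (A + B) ≤ 1 := by
    rw [ha, one_div, inv_mul_le_iff₀ (by positivity)]; linarith
  refine ⟨a ^ 3 * P, by positivity, fun R hR => ⟨fun s => a * g0 n s, ?_⟩⟩
  have hR0 : 0 < R := by linarith
  have := fin_wm n R
  have hmem : ∀ p : ENNReal, MemLp (fun s => a * g0 n s) p (wm n R) := by
    intro p
    refine MemLp.of_bound (Continuous.aestronglyMeasurable (by fun_prop))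
      (a * (6 * ((n : ℝ) + 1) + 24)) (ae_of_all _ fun s => ?_)
    rw [Real.norm_eq_abs, abs_mul, abs_of_pos ha0]
    exact mul_le_mul_of_nonneg_left (g0_bd n s) ha0.le
  have hint : Integrable (fun s => a * g0 n s) (wm n R) :=
    memLp_one_iff_integrable.mp (hmem 1)
  obtain ⟨-, h2, h3⟩ := h n R hR0 _ hint
  have hFF : ∀ r ∈ Ioo (0:ℝ) R, FF n R (fun s => a * g0 n s) r = a * wc r ^ 3 := by
    intro r hr
    rw [h3 r ⟨hr.1, hr.2.le⟩]
    have e : ∫ u in r..R, (u ^ n)⁻¹ * ∫ s in (0:ℝ)..u, a * g0 n s * s ^ n =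
        ∫ u in r..R, (u ^ n)⁻¹ * (a * (-6 * u ^ (n + 1) * wc u ^ 2)) := by
      refine intervalIntegral.integral_congr fun u hu => ?_
      rw [Set.uIcc_of_le hr.2.le] at hu
      rw [prim n a (le_trans hr.1.le hu.1)]
    rw [e, ffint n a hr.1 hr.2.le hR]; ring
  have hAdm : Adm n R (fun s => a * g0 n s) := by
    refine ⟨hmem 3, ?_⟩
    rw [h2, prim n a hR0.le, wc_one hR]; ring
  have e1 : ∫ s, |a * g0 n s| ^ 3 ∂(wm n R) = a ^ 3 * A := by
    rw [integral_one n hR (fun s => |a * g0 n s| ^ 3) (fun s => a ^ 3 * |g0 n s| ^ 3)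
      (fun s hs => by simp only [g0_one n hs]; simp) (fun s _ => by
        simp only [abs_mul, abs_of_pos ha0, mul_pow]), hA, ← integral_const_mul]
    refine setIntegral_congr_fun measurableSet_Ioo fun s _ => ?_
    ring
  have e2 : ∫ s, (FF n R (fun s => a * g0 n s) s) ^ 2 ∂(wm n R) = a ^ 2 * B := by
    rw [integral_one n hR (fun s => (FF n R (fun s => a * g0 n s) s) ^ 2)
      (fun s => a ^ 2 * (wc s ^ 3) ^ 2)
      (fun s hs => by simp only [wc_one hs]; simp) (fun s hs => by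
        simp only [hFF s hs, mul_pow]), hB, ← integral_const_mul]
    refine setIntegral_congr_fun measurableSet_Ioo fun s _ => ?_
    ring
  have e3 : ∫ s, (FF n R (fun s => a * g0 n s) s) ^ 3 ∂(wm n R) = a ^ 3 * P := by
    rw [integral_one n hR (fun s => (FF n R (fun s => a * g0 n s) s) ^ 3)
      (fun s => a ^ 3 * (wc s ^ 3) ^ 3)
      (fun s hs => by simp only [wc_one hs]; simp) (fun s hs => by
        simp only [hFF s hs, mul_pow]), hP, ← integral_const_mul]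
    refine setIntegral_congr_fun measurableSet_Ioo fun s _ => ?_
    ring
  refine ⟨hAdm, ?_, ?_⟩
  · unfold JJ
    rw [e1, e2]
    have h4 : a ^ 3 ≤ a := by nlinarith [mul_pos ha0 ha0]
    have h5 : a ^ 2 ≤ a := by nlinarith
    nlinarith [mul_le_mul_of_nonneg_right h4 hA0, mul_le_mul_of_nonneg_right h5 hB0]
  · unfold Phi
    rw [e3]

end Pool.Agent.R525.FP
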