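import Pool.Agent.R525.FP.Stm

/-! FP-CAC: Caccioppoli inequality (helper888). -/

set_option autoImplicit false

open MeasureTheory Set

namespace Pool.Agent.R525.FP

namespace CacAux

lemma young {x y d : ℝ} (hx : 0 ≤ x) (hy : 0 ≤ y) (hd : 0 < d) :
    x ^ 2 * y ≤ d * x ^ 3 + y ^ 3 / d ^ 2 := by
  rcases le_total y (d * x) with h | h
  · have h1 : x ^ 2 * y ≤ x ^ 2 * (d * x) := mul_le_mul_of_nonneg_left h (sq_nonneg x)
    have h2 : 0 ≤ y ^ 3 / d ^ 2 := by positivity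
    nlinarith
  · have h1 : x ≤ y / d := by rw [le_div_iff₀ hd]; linarith
    have h2 : x ^ 2 ≤ (y / d) ^ 2 := pow_le_pow_left₀ hx h1 2
    have h3 : x ^ 2 * y ≤ (y / d) ^ 2 * y := mul_le_mul_of_nonneg_right h2 hy
    have h4 : (y / d) ^ 2 * y = y ^ 3 / d ^ 2 := by field_simp
    have h5 : 0 ≤ d * x ^ 3 := by positivity
    linarith

lemma hasDerivAt_abs_mul (x : ℝ) : HasDerivAt (fun y : ℝ => |y| * y) (2 * |x|) x := by
  rcases lt_trichotomy x 0 with h | h | h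
  · have h1 := (hasDerivAt_abs_neg h).mul (hasDerivAt_id x)
    refine h1.congr_deriv ?_
    simp only [id]
    rw [abs_of_neg h]; ring
  · subst h
    rw [hasDerivAt_iff_tendsto_slope]
    have h1 : Filter.Tendsto (fun y : ℝ => |y|) (nhdsWithin 0 {0}ᶜ) (nhds (2 * |(0:ℝ)|)) := by
      have : Filter.Tendsto (fun y : ℝ => |y|) (nhds 0) (nhds |(0:ℝ)|) := continuous_abs.tendsto 0
      simp only [abs_zero, mul_zero] at this ⊢
      exact this.mono_left nhdsWithin_le_nhds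
    refine h1.congr' ?_
    filter_upwards [self_mem_nhdsWithin] with y hy
    have hy' : y ≠ 0 := hy
    rw [slope_def_field]
    field_simp
    simp
  · have h1 := (hasDerivAt_abs_pos h).mul (hasDerivAt_id x)
    refine h1.congr_deriv ?_
    simp only [id]
    rw [abs_of_pos h]; ring

lemma hasDerivAt_w (n : ℕ) {r : ℝ} (hr : 0 < r) :
    HasDerivAt (fun r : ℝ => r ^ n) (n / r * r ^ n) r := by
  refine (hasDerivAt_pow n r).congr_deriv ?_
  rcases n with _ | n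
  · simp
  · rw [Nat.add_sub_cancel, pow_succ]
    field_simp

/-- first pointwise inequality -/
lemma pw1 {n : ℕ} {η d q f f1 g h μ : ℝ} (hη : 0 ≤ η) (hη1 : η ≤ 1) (hd : |d| ≤ 1) (hq : 0 ≤ q)
    (hqn : q ≤ n) (hμ : 0 < μ) (hf : |f| ≤ μ / 3) (hh : h = |g| * g) :
    (3 / 4) * η ^ 6 * |g| ^ 3 + (1 / 3) * η ^ 6 * f ^ 2 - 110592 * (η ^ 3 * |f1| ^ 3)
      - 64 * (42 + 6 * n) ^ 3 * |f| ^ 3 ≤
    h * (η ^ 6 * g + 12 * η ^ 5 * d * f1 +
      f * (30 * η ^ 4 * d ^ 2 - 12 * η ^ 5 + 6 * q * η ^ 5 * d))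
      - (f ^ 2 / μ - 2 / 3 * f) * (f * η ^ 6) := by
  have hG : 0 ≤ |g| := abs_nonneg g
  have hF : 0 ≤ |f| := abs_nonneg f
  have hF1 : 0 ≤ |f1| := abs_nonneg f1
  have e1 : h * g = |g| ^ 3 := by
    rw [hh, mul_assoc, ← abs_mul_abs_self g]; ring
  have e2 : |h| = |g| ^ 2 := by rw [hh, abs_mul, abs_abs]; ring
  -- first term
  have t1 : -(|g| ^ 2 * (12 * η ^ 5 * |f1|)) ≤ h * (12 * η ^ 5 * d * f1) := by
    have h1 : |h * (12 * η ^ 5 * d * f1)| ≤ |g| ^ 2 * (12 * η ^ 5 * |f1|) := by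
      rw [abs_mul, e2]
      apply mul_le_mul_of_nonneg_left _ (by positivity)
      rw [abs_mul, abs_mul, abs_of_nonneg (by positivity : 0 ≤ 12 * η ^ 5)]
      have : 12 * η ^ 5 * |d| ≤ 12 * η ^ 5 * 1 := mul_le_mul_of_nonneg_left hd (by positivity)
      nlinarith
    exact (abs_le.1 h1).1
  -- second term
  have hη5 : η ^ 5 ≤ η ^ 4 := pow_le_pow_of_le_one hη hη1 (by norm_num)
  have hη4 : 0 ≤ η ^ 4 := by positivity
  have hη5' : 0 ≤ η ^ 5 := by positivity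
  have hn0 : (0:ℝ) ≤ n := by positivity
  have t2' : |30 * η ^ 4 * d ^ 2 - 12 * η ^ 5 + 6 * q * η ^ 5 * d| ≤ (42 + 6 * n) * η ^ 4 := by
    have a1 : |30 * η ^ 4 * d ^ 2| ≤ 30 * η ^ 4 := by
      rw [abs_of_nonneg (by positivity)]
      have : d ^ 2 ≤ 1 := by
        rw [← sq_abs]; exact pow_le_one₀ (abs_nonneg _) hd
      nlinarith
    have a2 : |12 * η ^ 5| ≤ 12 * η ^ 4 := by
      rw [abs_of_nonneg (by positivity)]; linarith
    have a3 : |6 * q * η ^ 5 * d| ≤ 6 * n * η ^ 4 := by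
      rw [abs_mul, abs_of_nonneg (by positivity : 0 ≤ 6 * q * η ^ 5)]
      have b1 : q * η ^ 5 ≤ n * η ^ 4 := mul_le_mul hqn hη5 hη5' hn0
      calc 6 * q * η ^ 5 * |d| ≤ 6 * q * η ^ 5 * 1 :=
            mul_le_mul_of_nonneg_left hd (by positivity)
        _ ≤ 6 * n * η ^ 4 := by linarith
    calc _ ≤ |30 * η ^ 4 * d ^ 2 - 12 * η ^ 5| + |6 * q * η ^ 5 * d| := abs_add_le _ _
      _ ≤ |30 * η ^ 4 * d ^ 2| + |12 * η ^ 5| + |6 * q * η ^ 5 * d| := by
          gcongr; exact abs_sub _ _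
      _ ≤ (42 + 6 * n) * η ^ 4 := by linarith
  have t2 : -(|g| ^ 2 * (|f| * ((42 + 6 * n) * η ^ 4))) ≤
      h * (f * (30 * η ^ 4 * d ^ 2 - 12 * η ^ 5 + 6 * q * η ^ 5 * d)) := by
    have h1 : |h * (f * (30 * η ^ 4 * d ^ 2 - 12 * η ^ 5 + 6 * q * η ^ 5 * d))|
        ≤ |g| ^ 2 * (|f| * ((42 + 6 * n) * η ^ 4)) := by
      rw [abs_mul, e2, abs_mul]
      apply mul_le_mul_of_nonneg_left _ (by positivity)
      exact mul_le_mul_of_nonneg_left t2' hF
    exact (abs_le.1 h1).1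
  -- Young
  have y1 := young (x := η ^ 2 * |g|) (y := 12 * η * |f1|) (d := 1 / 8) (by positivity)
    (by positivity) (by norm_num)
  have y2 := young (x := η ^ 2 * |g|) (y := (42 + 6 * n) * |f|) (d := 1 / 8) (by positivity)
    (by positivity) (by norm_num)
  have y1' : |g| ^ 2 * (12 * η ^ 5 * |f1|) ≤ 1 / 8 * (η ^ 6 * |g| ^ 3)
      + 110592 * (η ^ 3 * |f1| ^ 3) := by
    have l : (η ^ 2 * |g|) ^ 2 * (12 * η * |f1|) = |g| ^ 2 * (12 * η ^ 5 * |f1|) := by ring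
    have r : 1 / 8 * (η ^ 2 * |g|) ^ 3 + (12 * η * |f1|) ^ 3 / (1 / 8) ^ 2
        = 1 / 8 * (η ^ 6 * |g| ^ 3) + 110592 * (η ^ 3 * |f1| ^ 3) := by ring
    rw [l, r] at y1
    exact y1
  have y2' : |g| ^ 2 * (|f| * ((42 + 6 * n) * η ^ 4)) ≤ 1 / 8 * (η ^ 6 * |g| ^ 3)
      + 64 * (42 + 6 * n) ^ 3 * |f| ^ 3 := by
    have l : (η ^ 2 * |g|) ^ 2 * ((42 + 6 * n) * |f|)
        = |g| ^ 2 * (|f| * ((42 + 6 * n) * η ^ 4)) := by ring
    have r : 1 / 8 * (η ^ 2 * |g|) ^ 3 + ((42 + 6 * n) * |f|) ^ 3 / (1 / 8) ^ 2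
        = 1 / 8 * (η ^ 6 * |g| ^ 3) + 64 * (42 + 6 * n) ^ 3 * |f| ^ 3 := by ring
    rw [l, r] at y2
    exact y2
  -- the absorption term
  have t3 : (1 / 3) * η ^ 6 * f ^ 2 ≤ -((f ^ 2 / μ - 2 / 3 * f) * (f * η ^ 6)) := by
    have b1 : f ^ 3 / μ ≤ f ^ 2 / 3 := by
      rw [div_le_iff₀ hμ]
      have : f ≤ μ / 3 := (le_abs_self f).trans hf
      nlinarith [sq_nonneg f]
    have b2 : -((f ^ 2 / μ - 2 / 3 * f) * (f * η ^ 6)) = (2 / 3 * f ^ 2 - f ^ 3 / μ) * η ^ 6 := by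
      ring
    rw [b2]
    have : 0 ≤ η ^ 6 := by positivity
    nlinarith
  have e3 : h * (η ^ 6 * g + 12 * η ^ 5 * d * f1 +
      f * (30 * η ^ 4 * d ^ 2 - 12 * η ^ 5 + 6 * q * η ^ 5 * d))
      = η ^ 6 * |g| ^ 3 + h * (12 * η ^ 5 * d * f1)
        + h * (f * (30 * η ^ 4 * d ^ 2 - 12 * η ^ 5 + 6 * q * η ^ 5 * d)) := by
    rw [← e1]; ring
  rw [e3]
  linarith

/-- second pointwise inequality -/
lemma pw2 {n : ℕ} {η d q f f1 g : ℝ} (hη : 0 ≤ η) (hη1 : η ≤ 1) (hd : |d| ≤ 1) (hq : 0 ≤ q)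
    (hqn : q ≤ n) :
    (1 / 2) * (η ^ 3 * |f1| ^ 3) - (1 / 884736) * (η ^ 6 * |g| ^ 3)
      - (16 * (3 * n + 3) ^ 3 + 16 + 884736 ^ 2) * |f| ^ 3 ≤
    (q * η ^ 3 + 3 * η ^ 2 * d) * (|f1| * f1) * f
      + η ^ 3 * (2 * |f1| * (g - q * f1)) * f + η ^ 3 * (|f1| * f1) * f1 := by
  have hG : 0 ≤ |g| := abs_nonneg g
  have hF : 0 ≤ |f| := abs_nonneg f
  have hF1 : 0 ≤ |f1| := abs_nonneg f1
  have hn0 : (0:ℝ) ≤ n := by positivity
  have hη2 : 0 ≤ η ^ 2 := by positivity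
  have hη3 : 0 ≤ η ^ 3 := by positivity
  have hη32 : η ^ 3 ≤ η ^ 2 := pow_le_pow_of_le_one hη hη1 (by norm_num)
  have e1 : η ^ 3 * (|f1| * f1) * f1 = η ^ 3 * |f1| ^ 3 := by
    rw [mul_assoc, mul_assoc, ← abs_mul_abs_self f1]; ring
  have a0 : q * η ^ 3 ≤ n * η ^ 2 := mul_le_mul hqn hη32 hη3 hn0
  have t1 : -(((n + 3) * η ^ 2) * |f1| ^ 2 * |f|) ≤ (q * η ^ 3 + 3 * η ^ 2 * d) * (|f1| * f1) * f := by
    have h1 : |(q * η ^ 3 + 3 * η ^ 2 * d) * (|f1| * f1) * f| ≤ ((n + 3) * η ^ 2) * |f1| ^ 2 * |f| := by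
      rw [abs_mul, abs_mul]
      apply mul_le_mul_of_nonneg_right _ hF
      have b1 : |(|f1| * f1)| = |f1| ^ 2 := by rw [abs_mul, abs_abs]; ring
      rw [b1]
      apply mul_le_mul_of_nonneg_right _ (by positivity)
      calc _ ≤ |q * η ^ 3| + |3 * η ^ 2 * d| := abs_add_le _ _
        _ = q * η ^ 3 + 3 * η ^ 2 * |d| := by
            rw [abs_of_nonneg (by positivity), abs_mul, abs_of_nonneg (by positivity : 0 ≤ 3 * η ^ 2)]
        _ ≤ (n + 3) * η ^ 2 := by nlinarith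
    exact (abs_le.1 h1).1
  have t2 : -(2 * η ^ 3 * |f1| * |g| * |f| + 2 * (n * η ^ 2) * |f1| ^ 2 * |f|)
      ≤ η ^ 3 * (2 * |f1| * (g - q * f1)) * f := by
    have h1 : |η ^ 3 * (2 * |f1| * (g - q * f1)) * f|
        ≤ 2 * η ^ 3 * |f1| * |g| * |f| + 2 * (n * η ^ 2) * |f1| ^ 2 * |f| := by
      rw [abs_mul, abs_mul, abs_mul, abs_mul, abs_abs, abs_of_nonneg hη3,
        abs_of_nonneg (by norm_num : (0:ℝ) ≤ 2)]
      have b1 : |g - q * f1| ≤ |g| + q * |f1| := by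
        calc _ ≤ |g| + |q * f1| := abs_sub _ _
          _ = |g| + q * |f1| := by rw [abs_mul, abs_of_nonneg hq]
      calc η ^ 3 * (2 * |f1| * |g - q * f1|) * |f|
          ≤ η ^ 3 * (2 * |f1| * (|g| + q * |f1|)) * |f| := by gcongr
        _ = 2 * η ^ 3 * |f1| * |g| * |f| + 2 * (q * η ^ 3) * |f1| ^ 2 * |f| := by ring
        _ ≤ 2 * η ^ 3 * |f1| * |g| * |f| + 2 * (n * η ^ 2) * |f1| ^ 2 * |f| := by gcongr
    exact (abs_le.1 h1).1
  have y1 := young (x := η * |f1|) (y := (3 * n + 3) * |f|) (d := 1 / 4) (by positivity)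
    (by positivity) (by norm_num)
  have y2 := young (x := η * |f1|) (y := |f|) (d := 1 / 4) (by positivity) hF (by norm_num)
  have y3 := young (x := η ^ 2 * |g|) (y := |f|) (d := 1 / 884736) (by positivity) hF (by norm_num)
  have y4 : 2 * η ^ 3 * |f1| * |g| * |f| ≤ (η * |f1|) ^ 2 * |f| + (η ^ 2 * |g|) ^ 2 * |f| := by
    nlinarith [mul_nonneg (sq_nonneg (η * |f1| - η ^ 2 * |g|)) hF]
  have y1' : (3 * n + 3) * η ^ 2 * |f1| ^ 2 * |f| ≤ 1 / 4 * (η ^ 3 * |f1| ^ 3)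
      + 16 * (3 * n + 3) ^ 3 * |f| ^ 3 := by
    have l : (η * |f1|) ^ 2 * ((3 * n + 3) * |f|) = (3 * n + 3) * η ^ 2 * |f1| ^ 2 * |f| := by ring
    have r : 1 / 4 * (η * |f1|) ^ 3 + ((3 * n + 3) * |f|) ^ 3 / (1 / 4) ^ 2
        = 1 / 4 * (η ^ 3 * |f1| ^ 3) + 16 * (3 * n + 3) ^ 3 * |f| ^ 3 := by ring
    rw [l, r] at y1
    exact y1
  have y2' : (η * |f1|) ^ 2 * |f| ≤ 1 / 4 * (η ^ 3 * |f1| ^ 3) + 16 * |f| ^ 3 := by
    have r : 1 / 4 * (η * |f1|) ^ 3 + |f| ^ 3 / (1 / 4) ^ 2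
        = 1 / 4 * (η ^ 3 * |f1| ^ 3) + 16 * |f| ^ 3 := by ring
    rw [r] at y2
    exact y2
  have y3' : (η ^ 2 * |g|) ^ 2 * |f| ≤ 1 / 884736 * (η ^ 6 * |g| ^ 3) + 884736 ^ 2 * |f| ^ 3 := by
    have r : 1 / 884736 * (η ^ 2 * |g|) ^ 3 + |f| ^ 3 / (1 / 884736) ^ 2
        = 1 / 884736 * (η ^ 6 * |g| ^ 3) + 884736 ^ 2 * |f| ^ 3 := by ring
    rw [r] at y3
    exact y3
  rw [e1]
  nlinarith

noncomputable def eta (t m r : ℝ) : ℝ := t ^ 2 - (r - m) ^ 2

lemma hasDerivAt_eta (t m r : ℝ) : HasDerivAt (eta t m) (-2 * (r - m)) r := by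
  unfold eta
  have h1 : HasDerivAt (fun r : ℝ => (r - m) ^ 2) (2 * (r - m)) r := by
    have h := ((hasDerivAt_id r).sub_const m).pow 2
    refine h.congr_deriv ?_
    simp
  refine (h1.const_sub (t ^ 2)).congr_deriv ?_
  ring

lemma hasDerivAt_deta (m r : ℝ) : HasDerivAt (fun r : ℝ => -2 * (r - m)) (-2) r := by
  have h := ((hasDerivAt_id r).sub_const m).const_mul (-2)
  refine h.congr_deriv ?_
  ring

lemma continuous_eta (t m : ℝ) : Continuous (eta t m) := by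
  unfold eta; fun_prop

/-- the derivative of the first boundary term -/
noncomputable def G1 (n : ℕ) (μ t m : ℝ) (f f1 g h : ℝ → ℝ) (r : ℝ) : ℝ :=
  r ^ n * (h r * (eta t m r ^ 6 * g r + 12 * eta t m r ^ 5 * (-2 * (r - m)) * f1 r +
      f r * (30 * eta t m r ^ 4 * (-2 * (r - m)) ^ 2 - 12 * eta t m r ^ 5
        + 6 * (n / r) * eta t m r ^ 5 * (-2 * (r - m))))
      - (f r ^ 2 / μ - 2 / 3 * f r) * (f r * eta t m r ^ 6))

noncomputable def G2 (n : ℕ) (t m : ℝ) (f f1 g : ℝ → ℝ) (r : ℝ) : ℝ :=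
  r ^ n * (((n / r) * eta t m r ^ 3 + 3 * eta t m r ^ 2 * (-2 * (r - m))) * (|f1 r| * f1 r) * f r
      + eta t m r ^ 3 * (2 * |f1 r| * (g r - (n / r) * f1 r)) * f r
      + eta t m r ^ 3 * (|f1 r| * f1 r) * f1 r)

lemma deriv1 {n : ℕ} {μ a b t m : ℝ} {f f1 g h h1 : ℝ → ℝ} (ha : 0 < a)
    (H : Loc n μ a b f f1 g h h1) {r : ℝ} (hr : r ∈ Ioo a b) :
    HasDerivAt (fun r => r ^ n * (h r * (f1 r * eta t m r ^ 6
      + 6 * f r * eta t m r ^ 5 * (-2 * (r - m))) - h1 r * (f r * eta t m r ^ 6)))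
      (G1 n μ t m f f1 g h r) r := by
  have hr0 : 0 < r := ha.trans hr.1
  have e := hasDerivAt_eta t m r
  have d1 := (H.df1 r hr).mul (e.pow 6)
  have d2 := (((H.df r hr).const_mul 6).mul (e.pow 5)).mul (hasDerivAt_deta m r)
  have d3 := (H.dh r hr).mul (d1.add d2)
  have d4 := (H.dh1 r hr).mul ((H.df r hr).mul (e.pow 6))
  have d5 := (hasDerivAt_w n hr0).mul (d3.sub d4)
  refine d5.congr_deriv ?_
  unfold G1
  simp only [Pi.mul_apply, Pi.add_apply, Pi.pow_apply, Pi.sub_apply]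
  push_cast
  ring

lemma deriv2 {n : ℕ} {μ a b t m : ℝ} {f f1 g h h1 : ℝ → ℝ} (ha : 0 < a)
    (H : Loc n μ a b f f1 g h h1) {r : ℝ} (hr : r ∈ Ioo a b) :
    HasDerivAt (fun r => r ^ n * (eta t m r ^ 3 * (|f1 r| * f1 r) * f r))
      (G2 n t m f f1 g r) r := by
  have hr0 : 0 < r := ha.trans hr.1
  have e := hasDerivAt_eta t m r
  have d0 : HasDerivAt (fun r => |f1 r| * f1 r) (2 * |f1 r| * (g r - n / r * f1 r)) r :=
    (hasDerivAt_abs_mul (f1 r)).comp r (H.df1 r hr)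
  have d1 := ((e.pow 3).mul d0).mul (H.df r hr)
  have d5 := (hasDerivAt_w n hr0).mul d1
  refine d5.congr_deriv ?_
  unfold G2
  simp only [Pi.mul_apply, Pi.add_apply, Pi.pow_apply, Pi.sub_apply]
  push_cast
  ring

end CacAux

open CacAux in
theorem cacP : CacP := by
  intro n
  set C4 : ℝ := 64 * (42 + 6 * n) ^ 3 + 221184 * (16 * (3 * n + 3) ^ 3 + 16 + 884736 ^ 2) with hC4
  have hC4pos : 0 < C4 := by positivity
  refine ⟨2187 * C4 * 2 ^ n, by positivity, ?_⟩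
  intro ρ μ f f1 g h h1 hρ hμ H hfμ s t hs hst ht
  set m := ρ + 1 / 2 with hm
  have hρ0 : 0 < ρ := by linarith
  have hab : m - t ≤ m + t := by linarith
  have hsub : Icc (m - t) (m + t) ⊆ Icc ρ (ρ + 1) := by
    intro r hr
    exact ⟨by linarith [hr.1], by linarith [hr.2]⟩
  have hsubo : Ioo (m - t) (m + t) ⊆ Ioo ρ (ρ + 1) := by
    intro r hr
    exact ⟨by linarith [hr.1], by linarith [hr.2]⟩
  have hsub2 : Icc (m - s) (m + s) ⊆ Icc (m - t) (m + t) := by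
    intro r hr
    exact ⟨by linarith [hr.1], by linarith [hr.2]⟩
  have cf := H.cf.mono hsub
  have cf1 := H.cf1.mono hsub
  have cg := H.cg.mono hsub
  have ch := H.ch.mono hsub
  have ch1 := H.ch1.mono hsub
  have ceta : ContinuousOn (eta t m) (Icc (m - t) (m + t)) := (continuous_eta t m).continuousOn
  have cdeta : ContinuousOn (fun r : ℝ => -2 * (r - m)) (Icc (m - t) (m + t)) := by fun_prop
  have cq : ContinuousOn (fun r : ℝ => (n:ℝ) / r) (Icc (m - t) (m + t)) := by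
    apply continuousOn_const.div continuousOn_id
    intro r hr
    have := (hsub hr).1
    have : 0 < r := by linarith
    exact this.ne'
  have cw : ContinuousOn (fun r : ℝ => r ^ n) (Icc (m - t) (m + t)) := (continuous_pow n).continuousOn
  -- the boundary terms
  have eta_a : eta t m (m - t) = 0 := by unfold eta; ring
  have eta_b : eta t m (m + t) = 0 := by unfold eta; ring
  have cG1 : ContinuousOn (G1 n μ t m f f1 g h) (Icc (m - t) (m + t)) := by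
    unfold G1
    fun_prop
  have cG2 : ContinuousOn (G2 n t m f f1 g) (Icc (m - t) (m + t)) := by
    unfold G2
    fun_prop
  have iG1 : IntervalIntegrable (G1 n μ t m f f1 g h) volume (m - t) (m + t) :=
    cG1.intervalIntegrable_of_Icc hab
  have iG2 : IntervalIntegrable (G2 n t m f f1 g) volume (m - t) (m + t) :=
    cG2.intervalIntegrable_of_Icc hab
  have z1 : ∫ r in (m - t)..(m + t), G1 n μ t m f f1 g h r = 0 := by
    rw [intervalIntegral.integral_eq_sub_of_hasDerivAt_of_le hab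
      (f := fun r => r ^ n * (h r * (f1 r * eta t m r ^ 6
      + 6 * f r * eta t m r ^ 5 * (-2 * (r - m))) - h1 r * (f r * eta t m r ^ 6)))
      (by fun_prop) (fun r hr => deriv1 hρ0 H (hsubo hr)) iG1]
    simp only [eta_a, eta_b]
    ring
  have z2 : ∫ r in (m - t)..(m + t), G2 n t m f f1 g r = 0 := by
    rw [intervalIntegral.integral_eq_sub_of_hasDerivAt_of_le hab
      (f := fun r => r ^ n * (eta t m r ^ 3 * (|f1 r| * f1 r) * f r))
      (by fun_prop) (fun r hr => deriv2 hρ0 H (hsubo hr)) iG2]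
    simp only [eta_a, eta_b]
    ring
  -- the pointwise inequality
  have pw : ∀ r ∈ Icc (m - t) (m + t),
      r ^ n * (1 / 3 * eta t m r ^ 6 * (|g r| ^ 3 + f r ^ 2)) - C4 * (r ^ n * |f r| ^ 3)
      ≤ G1 n μ t m f f1 g h r + 221184 * G2 n t m f f1 g r := by
    intro r hr
    have hr1 := hsub hr
    have hr0 : 0 < r := by linarith [hr1.1]
    have hη : 0 ≤ eta t m r := by
      unfold eta
      have : |r - m| ≤ t := abs_le.2 ⟨by linarith [hr.1], by linarith [hr.2]⟩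
      have h2 : (r - m) ^ 2 ≤ t ^ 2 := by
        rw [← sq_abs]; exact pow_le_pow_left₀ (abs_nonneg _) this 2
      linarith
    have hη1 : eta t m r ≤ 1 := by
      unfold eta
      nlinarith [sq_nonneg (r - m)]
    have hd : |(-2 * (r - m))| ≤ 1 := by
      rw [abs_le]
      constructor <;> linarith [hr.1, hr.2]
    have hq : 0 ≤ (n:ℝ) / r := by positivity
    have hqn : (n:ℝ) / r ≤ n := div_le_self (by positivity) (by linarith [hr1.1])
    have q1 := pw1 (n := n) (f1 := f1 r) (g := g r) (h := h r) hη hη1 hd hq hqn hμ (hfμ r hr1)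
      (H.hg r hr1)
    have q2 := pw2 (n := n) (f := f r) (f1 := f1 r) (g := g r) hη hη1 hd hq hqn
    have hw : 0 < r ^ n := by positivity
    have hη6 : 0 ≤ eta t m r ^ 6 * |g r| ^ 3 := by positivity
    unfold G1 G2
    have q3 := mul_le_mul_of_nonneg_left (add_le_add q1 (mul_le_mul_of_nonneg_left q2
      (by norm_num : (0:ℝ) ≤ 221184))) hw.le
    refine le_trans ?_ (q3.trans (le_of_eq (by ring)))
    have q4 : r ^ n * (1 / 3 * eta t m r ^ 6 * (|g r| ^ 3 + f r ^ 2)) - C4 * (r ^ n * |f r| ^ 3)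
        = r ^ n * (1 / 3 * eta t m r ^ 6 * (|g r| ^ 3 + f r ^ 2) - C4 * |f r| ^ 3) := by ring
    rw [q4]
    apply mul_le_mul_of_nonneg_left _ hw.le
    rw [hC4]
    nlinarith
  -- integrate
  have cL1 : ContinuousOn (fun r => r ^ n * (1 / 3 * eta t m r ^ 6 * (|g r| ^ 3 + f r ^ 2)))
      (Icc (m - t) (m + t)) := by fun_prop
  have cL2 : ContinuousOn (fun r => r ^ n * |f r| ^ 3) (Icc (m - t) (m + t)) := by fun_prop
  have cL3 : ContinuousOn (fun r => |f r| ^ 3) (Icc (m - t) (m + t)) := by fun_prop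
  have cL4 : ContinuousOn (fun r => |g r| ^ 3 + f r ^ 2) (Icc (m - t) (m + t)) := by fun_prop
  have iL1 := cL1.intervalIntegrable_of_Icc (μ := volume) hab
  have iL2 := cL2.intervalIntegrable_of_Icc (μ := volume) hab
  have iL3 := cL3.intervalIntegrable_of_Icc (μ := volume) hab
  have hab2 : m - s ≤ m + s := by linarith
  have iL4 := (cL4.mono hsub2).intervalIntegrable_of_Icc (μ := volume) hab2
  have iL1s := (cL1.mono hsub2).intervalIntegrable_of_Icc (μ := volume) hab2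
  have main1 : (∫ r in (m - t)..(m + t), r ^ n * (1 / 3 * eta t m r ^ 6 * (|g r| ^ 3 + f r ^ 2)))
      ≤ C4 * ∫ r in (m - t)..(m + t), r ^ n * |f r| ^ 3 := by
    have h2 := intervalIntegral.integral_mono_on hab (iL1.sub (iL2.const_mul C4))
      (iG1.add (iG2.const_mul 221184)) pw
    rw [intervalIntegral.integral_sub iL1 (iL2.const_mul C4),
      intervalIntegral.integral_add iG1 (iG2.const_mul 221184),
      intervalIntegral.integral_const_mul, intervalIntegral.integral_const_mul, z1, z2] at h2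
    linarith
  have hρn : 0 < ρ ^ n := by positivity
  have hts : 0 < t - s := by linarith
  have main2 : (1 / 3 * ρ ^ n * (t - s) ^ 6 / 729) * (∫ r in (m - s)..(m + s), (|g r| ^ 3 + f r ^ 2))
      ≤ ∫ r in (m - t)..(m + t), r ^ n * (1 / 3 * eta t m r ^ 6 * (|g r| ^ 3 + f r ^ 2)) := by
    have h2 : (∫ r in (m - s)..(m + s), r ^ n * (1 / 3 * eta t m r ^ 6 * (|g r| ^ 3 + f r ^ 2)))
        ≤ ∫ r in (m - t)..(m + t), r ^ n * (1 / 3 * eta t m r ^ 6 * (|g r| ^ 3 + f r ^ 2)) := by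
      apply intervalIntegral.integral_mono_interval (by linarith) hab2 (by linarith) _ iL1
      rw [Filter.EventuallyLE, ae_restrict_iff' measurableSet_Ioc]
      refine Filter.Eventually.of_forall (fun r hr => ?_)
      have hr1 := hsub ⟨hr.1.le, hr.2⟩
      have hr0 : 0 < r := by linarith [hr1.1]
      have h6 : 0 ≤ eta t m r ^ 6 := by positivity
      show (0:ℝ) ≤ r ^ n * (1 / 3 * eta t m r ^ 6 * (|g r| ^ 3 + f r ^ 2))
      positivity
    refine le_trans ?_ h2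
    rw [← intervalIntegral.integral_const_mul]
    apply intervalIntegral.integral_mono_on hab2 (iL4.const_mul _) iL1s
    intro r hr
    have hr1 := hsub (hsub2 hr)
    have hr0 : 0 < r := by linarith [hr1.1]
    have k1 : ρ ^ n ≤ r ^ n := pow_le_pow_left₀ hρ0.le hr1.1 n
    have k2 : (t - s) / 3 ≤ eta t m r := by
      unfold eta
      have h3 : |r - m| ≤ s := abs_le.2 ⟨by linarith [hr.1], by linarith [hr.2]⟩
      have h4 : (r - m) ^ 2 ≤ s ^ 2 := by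
        rw [← sq_abs]; exact pow_le_pow_left₀ (abs_nonneg _) h3 2
      nlinarith
    have k3 : ((t - s) / 3) ^ 6 ≤ eta t m r ^ 6 := pow_le_pow_left₀ (by positivity) k2 6
    have k4 : 0 ≤ |g r| ^ 3 + f r ^ 2 := by positivity
    calc 1 / 3 * ρ ^ n * (t - s) ^ 6 / 729 * (|g r| ^ 3 + f r ^ 2)
        = ρ ^ n * (1 / 3 * ((t - s) / 3) ^ 6 * (|g r| ^ 3 + f r ^ 2)) := by ring
      _ ≤ r ^ n * (1 / 3 * eta t m r ^ 6 * (|g r| ^ 3 + f r ^ 2)) := by gcongr
  have main3 : (∫ r in (m - t)..(m + t), r ^ n * |f r| ^ 3)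
      ≤ (2 ^ n * ρ ^ n) * ∫ r in (m - t)..(m + t), |f r| ^ 3 := by
    rw [← intervalIntegral.integral_const_mul]
    apply intervalIntegral.integral_mono_on hab iL2 (iL3.const_mul _)
    intro r hr
    have hr1 := hsub hr
    have hr0 : 0 < r := by linarith [hr1.1]
    have k1 : r ^ n ≤ (2 * ρ) ^ n := pow_le_pow_left₀ hr0.le (by linarith [hr1.2]) n
    rw [mul_pow] at k1
    exact mul_le_mul_of_nonneg_right k1 (by positivity)
  have hI : 0 ≤ ∫ r in (m - t)..(m + t), |f r| ^ 3 :=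
    intervalIntegral.integral_nonneg hab (fun r _ => by positivity)
  -- conclusion
  have fin1 : (1 / 3 * ρ ^ n * (t - s) ^ 6 / 729) * (∫ r in (m - s)..(m + s), (|g r| ^ 3 + f r ^ 2))
      ≤ C4 * ((2 ^ n * ρ ^ n) * ∫ r in (m - t)..(m + t), |f r| ^ 3) :=
    main2.trans (main1.trans (mul_le_mul_of_nonneg_left main3 hC4pos.le))
  have hpos : 0 < 1 / 3 * ρ ^ n * (t - s) ^ 6 / 729 := by positivity
  rw [← le_div_iff₀' hpos] at fin1
  refine fin1.trans (le_of_eq ?_)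
  field_simp
  ring

end Pool.Agent.R525.FP
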