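import Pool.Agent.R525.FP.Stm

/-! Piece FP-CUT: cutting off the outer part. -/

set_option autoImplicit false

open MeasureTheory Set

namespace Pool.Agent.R525.FP

namespace CutAux

/-- clamp to `[0,c]` -/
noncomputable def cl (c x : ℝ) : ℝ := max 0 (min x c)

theorem cl_cont (c : ℝ) : Continuous (cl c) := by
  unfold cl
  fun_prop

theorem cl_mem {c R : ℝ} (hc : 0 < c) (hR : c < R) (x : ℝ) : cl c x ∈ Icc 0 R := by
  unfold cl
  refine ⟨le_max_left _ _, ?_⟩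
  refine max_le (hc.le.trans hR.le) ((min_le_right _ _).trans hR.le)

theorem cl_of_ge {c x : ℝ} (hc : 0 < c) (hx : c ≤ x) : cl c x = c := by
  unfold cl
  rw [min_eq_right hx, max_eq_right hc.le]

theorem cl_of_le {c x : ℝ} (h0 : 0 ≤ x) (hx : x ≤ c) : cl c x = x := by
  unfold cl
  rw [min_eq_left hx, max_eq_right h0]

theorem comp_cont {c R : ℝ} (hc : 0 < c) (hR : c < R) {u : ℝ → ℝ} (hu : ContinuousOn u (Icc 0 R)) :
    Continuous (fun x => u (cl c x)) :=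
  hu.comp_continuous (cl_cont c) (cl_mem hc hR)

theorem deriv_zero {c c' : ℝ} {u : ℝ → ℝ} {D r : ℝ} (hu : HasDerivAt u D r)
    (h0 : ∀ x ∈ Ico c c', u x = 0) (hr : r ∈ Ico c c') : D = 0 := by
  have h1 : HasDerivWithinAt u D (Ici r) r := hu.hasDerivWithinAt
  have h2 : HasDerivWithinAt u 0 (Ici r) r := by
    refine (hasDerivWithinAt_const r (Ici r) (0 : ℝ)).congr_of_eventuallyEq ?_ (h0 r hr)
    filter_upwards [Ico_mem_nhdsGE hr.2] with x hx
    exact h0 x ⟨hr.1.trans hx.1, hx.2⟩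
  exact (uniqueDiffWithinAt_Ici r).eq_deriv _ h1 h2

theorem cutDeriv {n : ℕ} {R c c' : ℝ} {u q : ℝ → ℝ} (hc : 0 < c) (hcc : c < c') (hR : c' < R)
    (hu0 : ∀ r ∈ Ico c c', u r = 0) (hq0 : ∀ r ∈ Ico c c', q r = 0)
    (hq : ContinuousOn q (Icc 0 R))
    (hd : ∀ r ∈ Ioo (0:ℝ) R, HasDerivAt u ((r ^ n)⁻¹ * ∫ s in (0:ℝ)..r, q s * s ^ n) r)
    (hG : ∫ s in (0:ℝ)..c, q s * s ^ n = 0) (r : ℝ) (hr : 0 < r) :
    HasDerivAt (fun x => u (cl c x)) ((r ^ n)⁻¹ * ∫ s in (0:ℝ)..r, q (cl c s) * s ^ n) r := by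
  have hqc : Continuous (fun s => q (cl c s) * s ^ n) :=
    (comp_cont hc (hcc.trans hR) hq).mul (continuous_pow n)
  have eq1 : ∀ x ∈ Ico 0 c', ∀ v : ℝ → ℝ, (∀ r ∈ Ico c c', v r = 0) → v (cl c x) = v x := by
    intro x hx v hv
    rcases le_or_gt c x with h | h
    · rw [cl_of_ge hc h, hv c ⟨le_rfl, hcc⟩, hv x ⟨h, hx.2⟩]
    · rw [cl_of_le hx.1 h.le]
  rcases lt_or_ge r c' with h | h
  · have h1 : ∫ s in (0:ℝ)..r, q (cl c s) * s ^ n = ∫ s in (0:ℝ)..r, q s * s ^ n := by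
      refine intervalIntegral.integral_congr fun s hs => ?_
      rw [uIcc_of_le hr.le] at hs
      rw [eq1 s ⟨hs.1, hs.2.trans_lt h⟩ q hq0]
    rw [h1]
    refine (hd r ⟨hr, h.trans hR⟩).congr_of_eventuallyEq ?_
    filter_upwards [Ioo_mem_nhds hr h] with x hx
    exact eq1 x ⟨hx.1.le, hx.2⟩ u hu0
  · have h1 : ∫ s in (0:ℝ)..r, q (cl c s) * s ^ n = 0 := by
      rw [← intervalIntegral.integral_add_adjacent_intervals (b := c)
        (hqc.intervalIntegrable _ _) (hqc.intervalIntegrable _ _)]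
      have h2 : ∫ s in (0:ℝ)..c, q (cl c s) * s ^ n = ∫ s in (0:ℝ)..c, q s * s ^ n := by
        refine intervalIntegral.integral_congr fun s hs => ?_
        rw [uIcc_of_le hc.le] at hs
        rw [cl_of_le hs.1 hs.2]
      have h3 : ∫ s in c..r, q (cl c s) * s ^ n = ∫ s in c..r, (0 : ℝ) := by
        refine intervalIntegral.integral_congr fun s hs => ?_
        rw [uIcc_of_le (hcc.le.trans h)] at hs
        rw [cl_of_ge hc hs.1, hq0 c ⟨le_rfl, hcc⟩, zero_mul]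
      rw [h2, h3, hG, intervalIntegral.integral_zero, add_zero]
    rw [h1, mul_zero]
    refine (hasDerivAt_const r (0 : ℝ)).congr_of_eventuallyEq ?_
    filter_upwards [Ioi_mem_nhds (hcc.trans_le h)] with x hx
    rw [cl_of_ge hc (le_of_lt hx), hu0 c ⟨le_rfl, hcc⟩]

/-- if the function vanishes, so does the integral -/
theorem int_zero {n : ℕ} {R c c' : ℝ} {u q : ℝ → ℝ} (hc : 0 < c) (hR : c' < R)
    (hu0 : ∀ r ∈ Ico c c', u r = 0)
    (hd : ∀ r ∈ Ioo (0:ℝ) R, HasDerivAt u ((r ^ n)⁻¹ * ∫ s in (0:ℝ)..r, q s * s ^ n) r)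
    (r : ℝ) (hr : r ∈ Ico c c') : ∫ s in (0:ℝ)..r, q s * s ^ n = 0 := by
  have hr0 : 0 < r := hc.trans_le hr.1
  have h1 := deriv_zero (hd r ⟨hr0, hr.2.trans hR⟩) hu0 hr
  have h2 : (r ^ n)⁻¹ ≠ 0 := by positivity
  exact (mul_eq_zero.1 h1).resolve_left h2

/-- if the integral vanishes, so does the integrand -/
theorem fun_zero {n : ℕ} {R c c' : ℝ} {q : ℝ → ℝ} (hc : 0 < c) (hR : c' < R)
    (hq : ContinuousOn q (Icc 0 R))
    (h0 : ∀ r ∈ Ico c c', ∫ s in (0:ℝ)..r, q s * s ^ n = 0)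
    (r : ℝ) (hr : r ∈ Ico c c') : q r = 0 := by
  have hr0 : 0 < r := hc.trans_le hr.1
  have hrR : r < R := hr.2.trans hR
  have hcont : ContinuousOn (fun s => q s * s ^ n) (Icc 0 R) :=
    hq.mul (continuous_pow n).continuousOn
  have hmem : Icc (0:ℝ) R ∈ nhds r := Icc_mem_nhds hr0 hrR
  have h1 : HasDerivAt (fun x => ∫ s in (0:ℝ)..x, q s * s ^ n) (q r * r ^ n) r := by
    refine intervalIntegral.integral_hasDerivAt_right ?_ ?_ (hcont.continuousAt hmem)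
    · refine ContinuousOn.intervalIntegrable ?_
      rw [uIcc_of_le hr0.le]
      exact hcont.mono (Icc_subset_Icc le_rfl hrR.le)
    · exact ⟨Icc 0 R, hmem, hcont.aestronglyMeasurable measurableSet_Icc⟩
  have h2 := deriv_zero h1 h0 hr
  have h3 : r ^ n ≠ 0 := by positivity
  exact (mul_eq_zero.1 h2).resolve_right h3

end CutAux

open CutAux in
theorem cutP : CutP := by
  intro n R μ c c' f g h hμ hS hc hcc hR hf0 hne
  have hf1 : ∀ r ∈ Ico c c', f r = 0 := fun r hr => hf0 r ⟨hr.1, hr.2.le⟩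
  have hIg := int_zero (n := n) hc hR hf1 hS.df
  have hg1 : ∀ r ∈ Ico c c', g r = 0 := fun_zero hc hR hS.cg hIg
  have hh1 : ∀ r ∈ Ico c c', h r = 0 := by
    intro r hr
    rw [hS.hg r ⟨(hc.trans_le hr.1).le, (hr.2.trans hR).le⟩, hg1 r hr, mul_zero]
  have hIh := int_zero (n := n) hc hR hh1 hS.dh
  have hqc : ContinuousOn (fun s => f s ^ 2 / μ - 2 / 3 * f s) (Icc 0 R) :=
    ((hS.cf.pow 2).div_const μ).sub (hS.cf.const_smul (2 / 3 : ℝ))
  have hq1 : ∀ r ∈ Ico c c', (fun s => f s ^ 2 / μ - 2 / 3 * f s) r = 0 := by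
    intro r hr
    simp [hf1 r hr]
  refine ⟨fun x => f (cl c x), fun x => g (cl c x), fun x => h (cl c x), ?_⟩
  refine ⟨comp_cont hc (hcc.trans hR) hS.cf, comp_cont hc (hcc.trans hR) hS.cg,
    comp_cont hc (hcc.trans hR) hS.ch, fun r => hS.hg _ (cl_mem hc (hcc.trans hR) r), ?_, ?_, ?_, ?_⟩
  · intro r hr
    rw [cl_of_ge hc hr, hf1 c ⟨le_rfl, hcc⟩]
  · exact fun r hr => cutDeriv hc hcc hR hf1 hg1 hS.cg hS.df (hIg c ⟨le_rfl, hcc⟩) r hr
  · exact fun r hr => cutDeriv (q := fun s => f s ^ 2 / μ - 2 / 3 * f s) hc hcc hR hh1 hq1 hqc hS.dh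
      (hIh c ⟨le_rfl, hcc⟩) r hr
  · obtain ⟨r, hr, hfr⟩ := hne
    refine ⟨r, hr.1, ?_⟩
    rw [cl_of_le hr.1.le hr.2.le]
    exact hfr

end Pool.Agent.R525.FP
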