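import Pool.Agent.R525.FP.Stm

/-! # FP-DEAD: the dead core lemma -/

set_option autoImplicit false

open MeasureTheory Set

namespace Pool.Agent.R525.FP

namespace DeadAux

/-- Clamping to `[1/6, 1/2]`. -/
noncomputable def cl (s : ℝ) : ℝ := max (1 / 6) (min s (1 / 2))

lemma cl_of {s : ℝ} (h1 : 1 / 6 ≤ s) (h2 : s ≤ 1 / 2) : cl s = s := by
  unfold cl
  rw [min_eq_left h2, max_eq_right h1]

lemma cl_ge (s : ℝ) : 1 / 6 ≤ cl s := le_max_left _ _

lemma cl_le (s : ℝ) : cl s ≤ 1 / 2 := max_le (by norm_num) (min_le_right _ _)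

lemma sup_bound {C : ℝ} (hC : 0 < C) {a b : ℝ} (hab : a ≤ b) {f g : ℝ → ℝ}
    (hf : ContinuousOn f (Icc a b)) (hg : ContinuousOn g (Icc a b)) {E : ℝ}
    (hE : ∫ r in a..b, (|g r| ^ 3 + f r ^ 2) ≤ E) (hE1 : E ≤ 1) {y : ℝ}
    (hy : y ≤ C * ((∫ s in a..b, |g s| ^ 3) ^ (1 / 3 : ℝ) +
      (∫ s in a..b, f s ^ 2) ^ (1 / 2 : ℝ))) : y ≤ 2 * C * E ^ (1 / 3 : ℝ) := by
  have i1 : IntervalIntegrable (fun s => |g s| ^ 3) volume a b := by
    apply ContinuousOn.intervalIntegrable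
    rw [uIcc_of_le hab]
    exact hg.abs.pow 3
  have i2 : IntervalIntegrable (fun s => f s ^ 2) volume a b := by
    apply ContinuousOn.intervalIntegrable
    rw [uIcc_of_le hab]
    exact hf.pow 2
  have n1 : 0 ≤ ∫ s in a..b, |g s| ^ 3 :=
    intervalIntegral.integral_nonneg hab fun _ _ => by positivity
  have n2 : 0 ≤ ∫ s in a..b, f s ^ 2 :=
    intervalIntegral.integral_nonneg hab fun _ _ => by positivity
  rw [intervalIntegral.integral_add i1 i2] at hE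
  have hE0 : 0 ≤ E := by linarith
  have h1 : (∫ s in a..b, |g s| ^ 3) ^ (1 / 3 : ℝ) ≤ E ^ (1 / 3 : ℝ) :=
    Real.rpow_le_rpow n1 (by linarith) (by norm_num)
  have h2 : (∫ s in a..b, f s ^ 2) ^ (1 / 2 : ℝ) ≤ E ^ (1 / 2 : ℝ) :=
    Real.rpow_le_rpow n2 (by linarith) (by norm_num)
  have h3 : E ^ (1 / 2 : ℝ) ≤ E ^ (1 / 3 : ℝ) := by
    rcases hE0.eq_or_lt with h | h
    · rw [← h, Real.zero_rpow (by norm_num), Real.zero_rpow (by norm_num)]
    · exact Real.rpow_le_rpow_of_exponent_ge h hE1 (by norm_num)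
  refine hy.trans ?_
  have h4 : C * ((∫ s in a..b, |g s| ^ 3) ^ (1 / 3 : ℝ) + (∫ s in a..b, f s ^ 2) ^ (1 / 2 : ℝ)) ≤
      C * (E ^ (1 / 3 : ℝ) + E ^ (1 / 3 : ℝ)) :=
    mul_le_mul_of_nonneg_left (by linarith) hC.le
  linarith

end DeadAux

open DeadAux in
theorem deadP (h1 : SupP) (h2 : CacP) (h3 : IterP) : DeadP := by
  intro n m hm
  obtain ⟨C, hC, hS⟩ := h1 n
  obtain ⟨C', hC', hCac⟩ := h2 n
  obtain ⟨ε₀, hε₀, hI⟩ := h3 (C' * (2 * C)) (by positivity)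
  refine ⟨min ε₀ (min 1 ((m / (6 * C)) ^ 3)), by positivity, ?_⟩
  intro ρ μ f f1 g h h1' hρ hμ hL hE
  set ε := min ε₀ (min 1 ((m / (6 * C)) ^ 3)) with hε
  have e0 : 0 ≤ ε := by positivity
  have e1 : ε ≤ ε₀ := min_le_left _ _
  have e2 : ε ≤ 1 := (min_le_right _ _).trans (min_le_left _ _)
  have e3 : ε ≤ (m / (6 * C)) ^ 3 := (min_le_right _ _).trans (min_le_right _ _)
  have hGc : ContinuousOn (fun r => |g r| ^ 3 + f r ^ 2) (Icc ρ (ρ + 1)) :=
    (hL.cg.abs.pow 3).add (hL.cf.pow 2)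
  have hGi : IntervalIntegrable (fun r => |g r| ^ 3 + f r ^ 2) volume ρ (ρ + 1) := by
    apply ContinuousOn.intervalIntegrable
    rw [uIcc_of_le (by linarith)]
    exact hGc
  -- the smallness of f
  have hsmall : ∀ r ∈ Icc ρ (ρ + 1), |f r| ≤ μ / 3 := by
    intro r hr
    have k1 := hS ρ (ρ + 1) f f1 g hρ (by linarith) (by linarith) hL.cf hL.cg hL.df hL.df1 r hr
    have k2 := sup_bound hC (by linarith) hL.cf hL.cg hE e2 k1
    have k3 : ε ^ (1 / 3 : ℝ) ≤ m / (6 * C) := by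
      have k4 : ε ^ (1 / 3 : ℝ) ≤ ((m / (6 * C)) ^ 3) ^ (1 / 3 : ℝ) :=
        Real.rpow_le_rpow e0 e3 (by norm_num)
      have k5 : ((m / (6 * C)) ^ 3) ^ (1 / 3 : ℝ) = m / (6 * C) := by
        rw [← Real.rpow_natCast, ← Real.rpow_mul (by positivity)]
        norm_num
      rwa [k5] at k4
    have k6 : 2 * C * ε ^ (1 / 3 : ℝ) ≤ 2 * C * (m / (6 * C)) :=
      mul_le_mul_of_nonneg_left k3 (by positivity)
    have k7 : 2 * C * (m / (6 * C)) = m / 3 := by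
      field_simp
      ring
    linarith
  let E : ℝ → ℝ := fun s => ∫ r in (ρ + 1 / 2 - cl s)..(ρ + 1 / 2 + cl s), (|g r| ^ 3 + f r ^ 2)
  have hEdef : ∀ s, 1 / 6 ≤ s → s ≤ 1 / 2 →
      E s = ∫ r in (ρ + 1 / 2 - s)..(ρ + 1 / 2 + s), (|g r| ^ 3 + f r ^ 2) := by
    intro s hs1 hs2
    simp only [E, cl_of hs1 hs2]
  have hEn : ∀ s, 0 ≤ E s := by
    intro s
    have := cl_ge s
    exact intervalIntegral.integral_nonneg (by linarith) fun _ _ => by positivity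
  have hmono : ∀ a b c d : ℝ, ρ ≤ c → c ≤ a → a ≤ b → b ≤ d → d ≤ ρ + 1 →
      ∫ r in a..b, (|g r| ^ 3 + f r ^ 2) ≤ ∫ r in c..d, (|g r| ^ 3 + f r ^ 2) := by
    intro a b c d k1 k2 k3 k4 k5
    refine intervalIntegral.integral_mono_interval k2 k3 k4
      (Filter.Eventually.of_forall fun _ => by positivity) ?_
    refine hGi.mono_set ?_
    rw [uIcc_of_le (by linarith), uIcc_of_le (by linarith)]
    exact Icc_subset_Icc k1 k5
  have hEm : ∀ s t : ℝ, 1 / 6 ≤ s → s < t → t ≤ 1 / 2 → E s ≤ E t := by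
    intro s t k1 k2 k3
    rw [hEdef s k1 (by linarith), hEdef t (by linarith) k3]
    exact hmono _ _ _ _ (by linarith) (by linarith) (by linarith) (by linarith) (by linarith)
  have hEle : ∀ t : ℝ, 1 / 6 ≤ t → t ≤ 1 / 2 → E t ≤ ε := by
    intro t k1 k2
    rw [hEdef t k1 k2]
    exact (hmono _ _ _ _ le_rfl (by linarith) (by linarith) (by linarith) le_rfl).trans hE
  have hEit : ∀ s t : ℝ, 1 / 6 ≤ s → s < t → t ≤ 1 / 2 →
      E s ≤ C' * (2 * C) * ((t - s) ^ 6)⁻¹ * (E t) ^ (4 / 3 : ℝ) := by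
    intro s t k1 k2 k3
    have c1 := hCac ρ μ f f1 g h h1' hρ (lt_of_lt_of_le hm hμ) hL hsmall s t k1 k2 k3
    rw [← hEdef s k1 (by linarith)] at c1
    have hab : ρ + 1 / 2 - t ≤ ρ + 1 / 2 + t := by linarith
    have hsub : Icc (ρ + 1 / 2 - t) (ρ + 1 / 2 + t) ⊆ Icc ρ (ρ + 1) :=
      Icc_subset_Icc (by linarith) (by linarith)
    have hsub2 : Ioo (ρ + 1 / 2 - t) (ρ + 1 / 2 + t) ⊆ Ioo ρ (ρ + 1) :=
      Ioo_subset_Ioo (by linarith) (by linarith)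
    have cf := hL.cf.mono hsub
    have cg := hL.cg.mono hsub
    have c2 : ∀ r ∈ Icc (ρ + 1 / 2 - t) (ρ + 1 / 2 + t), |f r| ≤ 2 * C * (E t) ^ (1 / 3 : ℝ) := by
      intro r hr
      have k4 := hS (ρ + 1 / 2 - t) (ρ + 1 / 2 + t) f f1 g (by linarith) (by linarith)
        (by linarith) cf cg (fun r hr => hL.df r (hsub2 hr)) (fun r hr => hL.df1 r (hsub2 hr)) r hr
      exact sup_bound hC hab cf cg (le_of_eq (hEdef t (by linarith) k3).symm)
        ((hEle t (by linarith) k3).trans e2) k4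
    have ii : ∀ F : ℝ → ℝ, ContinuousOn F (Icc (ρ + 1 / 2 - t) (ρ + 1 / 2 + t)) →
        IntervalIntegrable F volume (ρ + 1 / 2 - t) (ρ + 1 / 2 + t) := by
      intro F hF
      apply ContinuousOn.intervalIntegrable
      rwa [uIcc_of_le hab]
    have c3 : ∫ r in (ρ + 1 / 2 - t)..(ρ + 1 / 2 + t), |f r| ^ 3 ≤
        ∫ r in (ρ + 1 / 2 - t)..(ρ + 1 / 2 + t),
          2 * C * (E t) ^ (1 / 3 : ℝ) * (|g r| ^ 3 + f r ^ 2) := by
      refine intervalIntegral.integral_mono_on hab (ii _ (cf.abs.pow 3))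
        (ii _ (continuousOn_const.mul ((cg.abs.pow 3).add (cf.pow 2)))) ?_
      intro r hr
      have k5 := c2 r hr
      have k6 : |f r| ^ 3 = |f r| * f r ^ 2 := by
        rw [← sq_abs (f r)]
        ring
      have k7 : |f r| * f r ^ 2 ≤ 2 * C * (E t) ^ (1 / 3 : ℝ) * f r ^ 2 :=
        mul_le_mul_of_nonneg_right k5 (sq_nonneg _)
      have k8 : 0 ≤ 2 * C * (E t) ^ (1 / 3 : ℝ) * |g r| ^ 3 := by
        have := Real.rpow_nonneg (hEn t) (1 / 3)
        positivity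
      rw [k6, mul_add]
      linarith
    rw [intervalIntegral.integral_const_mul, ← hEdef t (by linarith) k3] at c3
    have c4 : 2 * C * (E t) ^ (1 / 3 : ℝ) * E t = 2 * C * (E t) ^ (4 / 3 : ℝ) := by
      have k9 : (E t) ^ (4 / 3 : ℝ) = (E t) ^ (1 / 3 : ℝ) * E t := by
        rw [show (4 / 3 : ℝ) = 1 / 3 + 1 by norm_num, Real.rpow_add' (hEn t) (by norm_num),
          Real.rpow_one]
      rw [k9]
      ring
    rw [c4] at c3
    have hpos : 0 ≤ C' * ((t - s) ^ 6)⁻¹ := by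
      have : 0 < t - s := by linarith
      positivity
    calc E s ≤ C' * ((t - s) ^ 6)⁻¹ * ∫ r in (ρ + 1 / 2 - t)..(ρ + 1 / 2 + t), |f r| ^ 3 := c1
      _ ≤ C' * ((t - s) ^ 6)⁻¹ * (2 * C * (E t) ^ (4 / 3 : ℝ)) :=
        mul_le_mul_of_nonneg_left c3 hpos
      _ = C' * (2 * C) * ((t - s) ^ 6)⁻¹ * (E t) ^ (4 / 3 : ℝ) := by ring
  have hz := hI E hEn hEm hEit ((hEle (1 / 2) (by norm_num) le_rfl).trans e1)
  rw [hEdef (1 / 6) le_rfl (by norm_num)] at hz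
  intro r hr
  by_contra hne
  have hpos : 0 < ∫ r in (ρ + 1 / 2 - 1 / 6)..(ρ + 1 / 2 + 1 / 6), (|g r| ^ 3 + f r ^ 2) := by
    refine intervalIntegral.integral_pos (by linarith) ?_ (fun _ _ => by positivity) ?_
    · exact hGc.mono (Icc_subset_Icc (by linarith) (by linarith))
    · refine ⟨r, ⟨by linarith [hr.1], by linarith [hr.2]⟩, ?_⟩
      have : 0 < f r ^ 2 := by positivity
      have : 0 ≤ |g r| ^ 3 := by positivity
      linarith
  rw [hz] at hpos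
  exact lt_irrefl _ hpos

end Pool.Agent.R525.FP
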