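import Mathlib

/-! # Compactly supported radial solutions of the fourth order p-Laplacian equation (MP_6aeaf9_an)

`n = N - 1`; everything is one-dimensional with the weight `r ^ n`. See NOTES.md. -/

set_option autoImplicit false

open MeasureTheory Set

namespace Pool.Agent.R525.FP

/-- The weighted measure `r^n dr` on `(0,R)`. -/
noncomputable def wm (n : ℕ) (R : ℝ) : Measure ℝ :=
  (volume.restrict (Ioo 0 R)).withDensity (fun r => ENNReal.ofReal (r ^ n))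

/-- `kk n R t = ∫_t^R u^{-n} du`. -/
noncomputable def kk (n : ℕ) (R t : ℝ) : ℝ := ∫ u in t..R, (u ^ n)⁻¹

/-- The radial solution of `Δ f = g`, `f(R) = 0`. -/
noncomputable def FF (n : ℕ) (R : ℝ) (g : ℝ → ℝ) (r : ℝ) : ℝ :=
  - ∫ s, kk n R (max r s) * g s ∂(wm n R)

/-- Admissible right-hand sides (`f'(R) = 0`). -/
def Adm (n : ℕ) (R : ℝ) (g : ℝ → ℝ) : Prop := MemLp g 3 (wm n R) ∧ ∫ s, g s ∂(wm n R) = 0

noncomputable def JJ (n : ℕ) (R : ℝ) (g : ℝ → ℝ) : ℝ :=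
  (∫ s, |g s| ^ 3 ∂(wm n R)) + ∫ s, (FF n R g s) ^ 2 ∂(wm n R)

noncomputable def Phi (n : ℕ) (R : ℝ) (g : ℝ → ℝ) : ℝ := ∫ s, (FF n R g s) ^ 3 ∂(wm n R)

/-- `g` maximises `Phi` on the admissible functions with `JJ ≤ 1`. -/
def IsMax (n : ℕ) (R : ℝ) (g : ℝ → ℝ) : Prop :=
  Adm n R g ∧ JJ n R g ≤ 1 ∧ ∀ g', Adm n R g' → JJ n R g' ≤ 1 → Phi n R g' ≤ Phi n R g

/-- Regular solution of the Euler-Lagrange system on `[0,R]`. -/
structure Sol (n : ℕ) (R μ : ℝ) (f g h : ℝ → ℝ) : Prop where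
  cf : ContinuousOn f (Icc 0 R)
  cg : ContinuousOn g (Icc 0 R)
  ch : ContinuousOn h (Icc 0 R)
  hg : ∀ r ∈ Icc (0:ℝ) R, h r = |g r| * g r
  fR : f R = 0
  gR : ∫ s in (0:ℝ)..R, g s * s ^ n = 0
  df : ∀ r ∈ Ioo (0:ℝ) R, HasDerivAt f ((r ^ n)⁻¹ * ∫ s in (0:ℝ)..r, g s * s ^ n) r
  dh : ∀ r ∈ Ioo (0:ℝ) R, HasDerivAt h
    ((r ^ n)⁻¹ * ∫ s in (0:ℝ)..r, (f s ^ 2 / μ - 2 / 3 * f s) * s ^ n) r

/-- Local form of the system on `[a,b]`. -/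
structure Loc (n : ℕ) (μ a b : ℝ) (f f1 g h h1 : ℝ → ℝ) : Prop where
  cf : ContinuousOn f (Icc a b)
  cf1 : ContinuousOn f1 (Icc a b)
  cg : ContinuousOn g (Icc a b)
  ch : ContinuousOn h (Icc a b)
  ch1 : ContinuousOn h1 (Icc a b)
  hg : ∀ r ∈ Icc a b, h r = |g r| * g r
  df : ∀ r ∈ Ioo a b, HasDerivAt f (f1 r) r
  df1 : ∀ r ∈ Ioo a b, HasDerivAt f1 (g r - n / r * f1 r) r
  dh : ∀ r ∈ Ioo a b, HasDerivAt h (h1 r) r
  dh1 : ∀ r ∈ Ioo a b, HasDerivAt h1 (f r ^ 2 / μ - 2 / 3 * f r - n / r * h1 r) r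

/-- Global compactly supported solution on `[0,∞)`. -/
structure Glob (n : ℕ) (μ c : ℝ) (f g h : ℝ → ℝ) : Prop where
  cf : Continuous f
  cg : Continuous g
  ch : Continuous h
  hg : ∀ r, h r = |g r| * g r
  f0 : ∀ r, c ≤ r → f r = 0
  df : ∀ r, 0 < r → HasDerivAt f ((r ^ n)⁻¹ * ∫ s in (0:ℝ)..r, g s * s ^ n) r
  dh : ∀ r, 0 < r → HasDerivAt h
    ((r ^ n)⁻¹ * ∫ s in (0:ℝ)..r, (f s ^ 2 / μ - 2 / 3 * f s) * s ^ n) r
  ne : ∃ r, 0 < r ∧ f r ≠ 0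

/-- The Laplacian (sum of the second derivatives along the standard basis). -/
noncomputable def lap {N : ℕ} (f : EuclideanSpace ℝ (Fin N) → ℝ) (x : EuclideanSpace ℝ (Fin N)) : ℝ :=
  ∑ i, iteratedFDeriv ℝ 2 f x ![EuclideanSpace.single i 1, EuclideanSpace.single i 1]

end Pool.Agent.R525.FP
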