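import Pool.Agent.R525.FP.Stm

/-!
# FP-EL: the Euler-Lagrange equation of a maximiser
-/

set_option autoImplicit false

open MeasureTheory Set

namespace Pool.Agent.R525.FP

namespace ELAux

lemma fin (n : ℕ) (R : ℝ) : IsFiniteMeasure (wm n R) := by
  unfold wm
  apply isFiniteMeasure_withDensity_ofReal
  have h : IntegrableOn (fun r : ℝ => r ^ n) (Ioo 0 R) volume :=
    ((continuous_pow n).continuousOn.integrableOn_compact isCompact_Icc).mono_set
      Ioo_subset_Icc_self
  exact h.2

lemma ae_mem (n : ℕ) (R : ℝ) : ∀ᵐ s ∂(wm n R), s ∈ Ioo (0:ℝ) R := by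
  unfold wm
  exact (withDensity_absolutelyContinuous _ _).ae_le (ae_restrict_mem measurableSet_Ioo)

lemma pow3 {m : Measure ℝ} {u : ℝ → ℝ} (hu : MemLp u 3 m) :
    Integrable (fun x => |u x| ^ 3) m := by
  have h := MemLp.integrable_norm_pow (p := 3) (f := u) (μ := m) (by exact_mod_cast hu) (by norm_num)
  simpa [Real.norm_eq_abs] using h

lemma int3 {m : Measure ℝ} {u v w : ℝ → ℝ} (hu : MemLp u 3 m) (hv : MemLp v 3 m)
    (hw : MemLp w 3 m) : Integrable (fun x => u x * v x * w x) m := by
  have h := ((pow3 hu).add (pow3 hv)).add (pow3 hw)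
  refine h.mono' ((hu.1.mul hv.1).mul hw.1) (ae_of_all _ fun x => ?_)
  rw [Real.norm_eq_abs, abs_mul, abs_mul]
  have ha := abs_nonneg (u x)
  have hb := abs_nonneg (v x)
  have hc := abs_nonneg (w x)
  change |u x| * |v x| * |w x| ≤ |u x| ^ 3 + |v x| ^ 3 + |w x| ^ 3
  nlinarith [mul_nonneg (add_nonneg (add_nonneg ha hb) hc) (add_nonneg (add_nonneg
    (sq_nonneg (|u x| - |v x|)) (sq_nonneg (|v x| - |w x|))) (sq_nonneg (|u x| - |w x|))),
    mul_nonneg (mul_nonneg ha hb) hc, pow_nonneg ha 3, pow_nonneg hb 3, pow_nonneg hc 3]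

lemma int2 {m : Measure ℝ} [IsFiniteMeasure m] {u v : ℝ → ℝ} (hu : MemLp u 3 m)
    (hv : MemLp v 3 m) : Integrable (fun x => u x * v x) m := by
  have h := int3 hu hv (memLp_const (1 : ℝ))
  simpa using h

lemma int1 {m : Measure ℝ} [IsFiniteMeasure m] {u : ℝ → ℝ} (hu : MemLp u 3 m) :
    Integrable u m := by
  have h := int2 hu (memLp_const (1 : ℝ))
  simpa using h

lemma memabs {m : Measure ℝ} {u : ℝ → ℝ} (hu : MemLp u 3 m) : MemLp (fun x => |u x|) 3 m := by
  have := hu.norm
  simpa [Real.norm_eq_abs] using this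

lemma key1 (x h : ℝ) (hx : 0 ≤ x) :
    |x + h| ^ 3 ≤ |x| ^ 3 + 3 * (|x| * x * h) + 3 * ((|x| + |h|) * h ^ 2) := by
  rw [abs_of_nonneg hx]
  rcases le_total 0 (x + h) with hxh | hxh
  · rw [abs_of_nonneg hxh]
    have h1 : h ^ 3 ≤ 3 * (|h| * h ^ 2) := by
      have h2 : h ^ 3 ≤ |h| * h ^ 2 := by
        have := le_abs_self h
        nlinarith [sq_nonneg h]
      nlinarith [abs_nonneg h, sq_nonneg h, mul_nonneg (abs_nonneg h) (sq_nonneg h)]
    nlinarith
  · have hh : h ≤ 0 := by linarith
    rw [abs_of_nonpos hxh, abs_of_nonpos hh]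
    obtain ⟨y, hy⟩ : ∃ y, y = -(x + h) := ⟨_, rfl⟩
    have hy0 : 0 ≤ y := by linarith
    have hhy : h = -(x + y) := by linarith
    rw [hhy]
    nlinarith [mul_nonneg hx hy0, mul_nonneg (mul_nonneg hx hx) hy0, mul_nonneg (mul_nonneg hx hy0) hy0,
      pow_nonneg hx 3, pow_nonneg hy0 3]

lemma key2 (x h : ℝ) :
    |x + h| ^ 3 ≤ |x| ^ 3 + 3 * (|x| * x * h) + 3 * ((|x| + |h|) * h ^ 2) := by
  rcases le_total 0 x with hx | hx
  · exact key1 x h hx
  · have h1 := key1 (-x) (-h) (by linarith)
    rw [show -x + -h = -(x + h) by ring, abs_neg, abs_neg, abs_neg] at h1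
    calc |x + h| ^ 3 ≤ _ := h1
      _ = _ := by ring

lemma cube (a b t : ℝ) (ht : |t| ≤ 1) :
    |a + t * b| ^ 3 ≤ |a| ^ 3 + t * (3 * (|a| * a * b)) +
      t ^ 2 * (3 * (|a| * b * b + |b| * b * b)) := by
  have h := key2 a (t * b)
  have h1 : |t * b| ≤ |b| := by
    rw [abs_mul]
    calc |t| * |b| ≤ 1 * |b| := mul_le_mul_of_nonneg_right ht (abs_nonneg b)
      _ = |b| := one_mul _
  have h2 : (|a| + |t * b|) * (t * b) ^ 2 ≤ (|a| + |b|) * (t * b) ^ 2 :=
    mul_le_mul_of_nonneg_right (by linarith) (sq_nonneg _)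
  calc |a + t * b| ^ 3 ≤ |a| ^ 3 + 3 * (|a| * a * (t * b)) + 3 * ((|a| + |t * b|) * (t * b) ^ 2) := h
    _ ≤ |a| ^ 3 + 3 * (|a| * a * (t * b)) + 3 * ((|a| + |b|) * (t * b) ^ 2) := by linarith
    _ = _ := by ring

lemma const_of_orth {m : Measure ℝ} [IsFiniteMeasure m] (Z : ℝ → ℝ) (hZ : Integrable Z m)
    (h : ∀ v : ℝ → ℝ, AEStronglyMeasurable v m → (∀ x, |v x| ≤ 2) → ∫ x, v x ∂m = 0 →
      ∫ x, Z x * v x ∂m = 0) : ∃ c : ℝ, ∀ᵐ x ∂m, Z x = c := by
  by_cases hm : m = 0
  · refine ⟨0, ?_⟩
    rw [hm]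
    simp
  have hM : 0 < m.real univ := by
    rw [measureReal_def]
    exact ENNReal.toReal_pos (by simpa using hm) (measure_ne_top _ _)
  set M := m.real univ with hMdef
  set c := (∫ x, Z x ∂m) / M with hc
  have hW : Integrable (fun x => Z x - c) m := hZ.sub (integrable_const c)
  have hWint : ∫ x, (Z x - c) ∂m = 0 := by
    rw [integral_sub hZ (integrable_const c), integral_const, smul_eq_mul, hc]
    field_simp
    ring
  set σ : ℝ → ℝ := fun x => SignType.sign (Z x - c) with hσ
  have hσ1 : ∀ x, |σ x| ≤ 1 := by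
    intro x
    rw [hσ]
    simp only
    rcases lt_trichotomy (Z x - c) 0 with h1 | h1 | h1
    · rw [sign_neg h1]; simp
    · rw [h1]; simp
    · rw [sign_pos h1]; simp
  have hσm : AEStronglyMeasurable σ m := by
    have h1 : Measurable (fun y : ℝ => ((SignType.sign y : SignType) : ℝ)) := by
      have h2 : Measurable (fun y : ℝ => if 0 < y then (1 : ℝ) else if y < 0 then -1 else 0) :=
        Measurable.ite measurableSet_Ioi measurable_const
          (Measurable.ite measurableSet_Iio measurable_const measurable_const)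
      have h3 : (fun y : ℝ => ((SignType.sign y : SignType) : ℝ)) =
          fun y : ℝ => if 0 < y then (1 : ℝ) else if y < 0 then -1 else 0 := by
        funext y
        rcases lt_trichotomy y 0 with h1 | h1 | h1
        · rw [sign_neg h1, if_neg (by linarith), if_pos h1]; simp
        · rw [h1]; simp
        · rw [sign_pos h1, if_pos h1]; simp
      rw [h3]
      exact h2
    exact (h1.comp_aemeasurable hW.aemeasurable).aestronglyMeasurable
  have hσi : Integrable σ m := (MemLp.of_bound (p := 1) hσm 1 (ae_of_all _ fun x => by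
    rw [Real.norm_eq_abs]; exact hσ1 x)).integrable le_rfl
  set b := (∫ x, σ x ∂m) / M with hb
  have hb1 : |b| ≤ 1 := by
    rw [hb, abs_div, abs_of_pos hM, div_le_one hM]
    have h1 : ‖∫ x, σ x ∂m‖ ≤ 1 * m.real univ := norm_integral_le_of_norm_le_const (ae_of_all _ fun x => by
      rw [Real.norm_eq_abs]; exact hσ1 x)
    rw [Real.norm_eq_abs, one_mul] at h1
    exact h1
  have hv0 : ∫ x, (σ x - b) ∂m = 0 := by
    rw [integral_sub hσi (integrable_const b), integral_const, smul_eq_mul, hb]
    field_simp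
    ring
  have h3 := h (fun x => σ x - b) (hσm.sub aestronglyMeasurable_const) (fun x => by
    have h4 := hσ1 x
    rw [abs_le] at *
    constructor <;> linarith) hv0
  have hWσ : ∀ x, (Z x - c) * σ x = |Z x - c| := by
    intro x
    rw [hσ]
    simp only
    rcases lt_trichotomy (Z x - c) 0 with h1 | h1 | h1
    · rw [sign_neg h1, abs_of_neg h1]; simp
    · rw [h1]; simp
    · rw [sign_pos h1, abs_of_pos h1]; simp
  have h5 : ∀ x, |Z x - c| = Z x * (σ x - b) - c * (σ x - b) + b * (Z x - c) := by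
    intro x
    rw [← hWσ x]
    ring
  have hZv : Integrable (fun x => Z x * (σ x - b)) m := by
    refine (hZ.norm.const_mul 2).mono' (hZ.1.mul (hσm.sub aestronglyMeasurable_const))
      (ae_of_all _ fun x => ?_)
    rw [norm_mul, mul_comm]
    apply mul_le_mul_of_nonneg_right _ (norm_nonneg _)
    rw [Real.norm_eq_abs]
    have h4 := hσ1 x
    rw [abs_le] at *
    constructor <;> linarith
  have hvi : Integrable (fun x => σ x - b) m := hσi.sub (integrable_const b)
  have h6 : ∫ x, |Z x - c| ∂m = 0 := by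
    simp_rw [h5]
    have g1 : Integrable (fun x => Z x * (σ x - b) - c * (σ x - b)) m := hZv.sub (hvi.const_mul c)
    rw [integral_add g1 (hW.const_mul b), integral_sub hZv (hvi.const_mul c), integral_const_mul,
      integral_const_mul, hWint, hv0, h3]
    ring
  have h7 := (integral_eq_zero_iff_of_nonneg (fun x => abs_nonneg _) hW.abs).1 h6
  refine ⟨c, ?_⟩
  filter_upwards [h7] with x hx
  have h8 : |Z x - c| = 0 := hx
  rw [abs_eq_zero] at h8
  linarith

end ELAux

open ELAux

theorem elP (h1 : KerP) : ELP := by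
  intro n R g hR hmax hP
  obtain ⟨-, hK2, hK3, hK4⟩ := h1 n R hR
  have := fin n R
  obtain ⟨⟨hg, hg0⟩, hJ, hmx⟩ := hmax
  set m := wm n R with hm
  set f := FF n R g with hfdef
  have hf : MemLp f 3 m := hK2 g hg
  have hlin : ∀ (u v : ℝ → ℝ) (t : ℝ), MemLp u 3 m → MemLp v 3 m → ∀ᵐ s ∂m,
      FF n R (fun s => u s + t * v s) s = FF n R u s + t * FF n R v s := by
    intro u v t hu hv
    exact (ae_mem n R).mono fun r hr => hK3 u v t hu hv r hr
  have hmem : ∀ (u v : ℝ → ℝ) (t : ℝ), MemLp u 3 m → MemLp v 3 m →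
      MemLp (fun s => u s + t * v s) 3 m := fun u v t hu hv => hu.add (hv.const_mul t)
  have hadm : ∀ (u v : ℝ → ℝ) (t : ℝ), Adm n R u → Adm n R v → Adm n R (fun s => u s + t * v s) := by
    intro u v t hu hv
    refine ⟨hmem u v t hu.1 hv.1, ?_⟩
    rw [integral_add (int1 hu.1) ((int1 hv.1).const_mul t), integral_const_mul, hu.2, hv.2]
    ring
  have hga := memabs hg
  -- the derivatives
  set dJ : (ℝ → ℝ) → ℝ := fun v => 3 * (∫ s, |g s| * g s * v s ∂m) + 2 * ∫ s, f s * FF n R v s ∂m with hdJ
  set dP : (ℝ → ℝ) → ℝ := fun v => 3 * ∫ s, f s * f s * FF n R v s ∂m with hdP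
  have hdJlin : ∀ (u v : ℝ → ℝ) (t : ℝ), MemLp u 3 m → MemLp v 3 m →
      dJ (fun s => u s + t * v s) = dJ u + t * dJ v := by
    intro u v t hu hv
    have hU := hK2 u hu
    have hV := hK2 v hv
    have e1 : ∫ s, |g s| * g s * (u s + t * v s) ∂m =
        (∫ s, |g s| * g s * u s ∂m) + t * ∫ s, |g s| * g s * v s ∂m := by
      rw [← integral_const_mul, ← integral_add (int3 hga hg hu) ((int3 hga hg hv).const_mul t)]
      congr 1
      funext s
      ring
    have e2 : ∫ s, f s * FF n R (fun s => u s + t * v s) s ∂m =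
        (∫ s, f s * FF n R u s ∂m) + t * ∫ s, f s * FF n R v s ∂m := by
      rw [← integral_const_mul, ← integral_add (int2 hf hU) ((int2 hf hV).const_mul t)]
      apply integral_congr_ae
      filter_upwards [hlin u v t hu hv] with s hs
      rw [hs]
      ring
    simp only [hdJ]
    rw [e1, e2]
    ring
  have hdPlin : ∀ (u v : ℝ → ℝ) (t : ℝ), MemLp u 3 m → MemLp v 3 m →
      dP (fun s => u s + t * v s) = dP u + t * dP v := by
    intro u v t hu hv
    have hU := hK2 u hu
    have hV := hK2 v hv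
    have e2 : ∫ s, f s * f s * FF n R (fun s => u s + t * v s) s ∂m =
        (∫ s, f s * f s * FF n R u s ∂m) + t * ∫ s, f s * f s * FF n R v s ∂m := by
      rw [← integral_const_mul, ← integral_add (int3 hf hf hU) ((int3 hf hf hV).const_mul t)]
      apply integral_congr_ae
      filter_upwards [hlin u v t hu hv] with s hs
      rw [hs]
      ring
    simp only [hdP]
    rw [e2]
    ring
  -- step (ii)
  have step2 : ∀ v, Adm n R v → dJ v < 0 → dP v ≤ 0 := by
    intro v hv hdv
    by_contra hcon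
    push Not at hcon
    have hV := hK2 v hv.1
    have hva := memabs hv.1
    set V := FF n R v with hVdef
    set K := 3 * (∫ s, (|g s| * v s * v s + |v s| * v s * v s) ∂m) + ∫ s, V s * V s ∂m with hK
    set I4 := ∫ s, f s * V s * V s ∂m with hI4
    set I5 := ∫ s, V s * V s * V s ∂m with hI5
    set K' := 3 * |I4| + |I5| with hK'
    have hK'0 : 0 ≤ K' := by positivity
    set t := min 1 (min (-dJ v / (|K| + 1)) (dP v / (2 * (K' + 1)))) with ht
    have ht0 : 0 < t := by
      rw [ht]
      apply lt_min one_pos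
      apply lt_min
      · apply div_pos (by linarith) (by positivity)
      · apply div_pos hcon (by positivity)
    have ht1 : t ≤ 1 := min_le_left _ _
    have ht2 : t * K ≤ -dJ v := by
      have h2 : t ≤ -dJ v / (|K| + 1) := (min_le_right _ _).trans (min_le_left _ _)
      rw [le_div_iff₀ (by positivity)] at h2
      have h3 : t * K ≤ t * |K| := mul_le_mul_of_nonneg_left (le_abs_self K) ht0.le
      nlinarith
    have ht3 : t * K' < dP v := by
      have h2 : t ≤ dP v / (2 * (K' + 1)) := (min_le_right _ _).trans (min_le_right _ _)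
      rw [le_div_iff₀ (by positivity)] at h2
      nlinarith [mul_nonneg ht0.le hK'0]
    have hmx1 := hmx (fun s => g s + t * v s) (hadm g v t ⟨hg, hg0⟩ hv)
    have hFF := hlin g v t hg hv.1
    -- the constraint
    have hJJ : JJ n R (fun s => g s + t * v s) ≤ JJ n R g + t * dJ v + t ^ 2 * K := by
      unfold JJ
      rw [← hm, ← hfdef]
      have e1 : ∫ s, |g s + t * v s| ^ 3 ∂m ≤ (∫ s, |g s| ^ 3 ∂m) + t * (3 * ∫ s, |g s| * g s * v s ∂m) +
          t ^ 2 * (3 * ∫ s, (|g s| * v s * v s + |v s| * v s * v s) ∂m) := by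
        have g0 := pow3 hg
        have g1 : Integrable (fun s => t * (3 * (|g s| * g s * v s))) m :=
          ((int3 hga hg hv.1).const_mul 3).const_mul t
        have g2 : Integrable (fun s => t ^ 2 * (3 * (|g s| * v s * v s + |v s| * v s * v s))) m :=
          (((int3 hga hv.1 hv.1).add (int3 hva hv.1 hv.1)).const_mul 3).const_mul (t ^ 2)
        have g01 : Integrable (fun s => |g s| ^ 3 + t * (3 * (|g s| * g s * v s))) m := g0.add g1
        rw [← integral_const_mul, ← integral_const_mul, ← integral_const_mul, ← integral_const_mul,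
          ← integral_add g0 g1, ← integral_add g01 g2]
        apply integral_mono
        · exact pow3 (hmem g v t hg hv.1)
        · exact g01.add g2
        · intro s
          exact cube (g s) (v s) t (by rw [abs_of_pos ht0]; exact ht1)
      have e2 : ∫ s, (FF n R (fun s => g s + t * v s) s) ^ 2 ∂m =
          (∫ s, (f s) ^ 2 ∂m) + t * (2 * ∫ s, f s * V s ∂m) + t ^ 2 * ∫ s, V s * V s ∂m := by
        have g0 : Integrable (fun s => f s ^ 2) m := by
          simpa [sq] using int2 hf hf
        have g1 : Integrable (fun s => t * (2 * (f s * V s))) m := ((int2 hf hV).const_mul 2).const_mul t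
        have g2 : Integrable (fun s => t ^ 2 * (V s * V s)) m := (int2 hV hV).const_mul (t ^ 2)
        have g01 : Integrable (fun s => f s ^ 2 + t * (2 * (f s * V s))) m := g0.add g1
        rw [← integral_const_mul, ← integral_const_mul, ← integral_const_mul,
          ← integral_add g0 g1, ← integral_add g01 g2]
        apply integral_congr_ae
        filter_upwards [hFF] with s hs
        rw [hs, ← hfdef, ← hVdef]
        ring
      rw [e2]
      simp only [hdJ, hK]
      linarith
    have hJ2 : JJ n R (fun s => g s + t * v s) ≤ 1 := by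
      refine hJJ.trans ?_
      nlinarith
    have hPhi := hmx1 hJ2
    have e3 : Phi n R (fun s => g s + t * v s) = Phi n R g + t * dP v + t ^ 2 * (3 * I4) + t ^ 3 * I5 := by
      unfold Phi
      rw [← hm, ← hfdef]
      have g0 : Integrable (fun s => f s ^ 3) m := by
        have := int3 hf hf hf
        refine this.congr (ae_of_all _ fun s => ?_)
        simp only
        ring
      have g1 : Integrable (fun s => t * (3 * (f s * f s * V s))) m :=
        ((int3 hf hf hV).const_mul 3).const_mul t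
      have g2 : Integrable (fun s => t ^ 2 * (3 * (f s * V s * V s))) m :=
        ((int3 hf hV hV).const_mul 3).const_mul (t ^ 2)
      have g3 : Integrable (fun s => t ^ 3 * (V s * V s * V s)) m := (int3 hV hV hV).const_mul (t ^ 3)
      have g01 : Integrable (fun s => f s ^ 3 + t * (3 * (f s * f s * V s))) m := g0.add g1
      have g012 : Integrable (fun s => f s ^ 3 + t * (3 * (f s * f s * V s)) +
        t ^ 2 * (3 * (f s * V s * V s))) m := g01.add g2
      simp only [hdP, hI4, hI5]
      rw [← integral_const_mul, ← integral_const_mul, ← integral_const_mul, ← integral_const_mul,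
        ← integral_const_mul, ← integral_add g0 g1, ← integral_add g01 g2, ← integral_add g012 g3]
      apply integral_congr_ae
      filter_upwards [hFF] with s hs
      rw [hs, ← hfdef, ← hVdef]
      ring
    rw [e3] at hPhi
    have h8 : -(t ^ 2 * (3 * |I4|)) ≤ t ^ 2 * (3 * I4) := by
      have := neg_abs_le I4
      nlinarith [sq_nonneg t]
    have h9 : -(t ^ 2 * |I5|) ≤ t ^ 3 * I5 := by
      have h10 := neg_abs_le I5
      have h11 : t ^ 3 ≤ t ^ 2 := by nlinarith [sq_nonneg t]
      have h12 : 0 ≤ t ^ 3 := by positivity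
      nlinarith [abs_nonneg I5]
    have h13 : t * (t * K') < t * dP v := mul_lt_mul_of_pos_left ht3 ht0
    have h14 : t * (t * K') = t ^ 2 * (3 * |I4|) + t ^ 2 * |I5| := by
      rw [hK']
      ring
    linarith
  -- step (iii)
  have hdPg : dP g = 3 * Phi n R g := by
    simp only [hdP]
    unfold Phi
    rw [← hm, ← hfdef]
    congr 1
    congr 1
    funext s
    ring
  have hB0 : 0 ≤ ∫ s, f s ^ 2 ∂m := integral_nonneg fun s => sq_nonneg _
  have hA0 : 0 ≤ ∫ s, |g s| ^ 3 ∂m := integral_nonneg fun s => by positivity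
  have hBpos : 0 < ∫ s, f s ^ 2 ∂m := by
    rcases hB0.lt_or_eq with h2 | h2
    · exact h2
    · exfalso
      have g0 : Integrable (fun s => f s ^ 2) m := by
        simpa [sq] using int2 hf hf
      have h3 := (integral_eq_zero_iff_of_nonneg (fun s => sq_nonneg _) g0).1 h2.symm
      have h4 : Phi n R g = 0 := by
        unfold Phi
        rw [← hm, ← hfdef]
        rw [integral_congr_ae (g := fun _ => (0 : ℝ))]
        · simp
        · filter_upwards [h3] with s hs
          have h5 : f s ^ 2 = 0 := hs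
          have h6 : f s = 0 := by
            rcases pow_eq_zero_iff (two_ne_zero) |>.1 h5 with h7
            exact h7
          rw [h6]
          norm_num
      linarith
  have hdJg : dJ g = 3 * (∫ s, |g s| ^ 3 ∂m) + 2 * ∫ s, f s ^ 2 ∂m := by
    simp only [hdJ]
    rw [← hfdef]
    have e1 : ∀ s, |g s| * g s * g s = |g s| ^ 3 := by
      intro s
      have : g s * g s = |g s| * |g s| := (abs_mul_abs_self _).symm
      rw [mul_assoc, this]
      ring
    have e2 : ∀ s, f s * f s = f s ^ 2 := fun s => by ring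
    simp_rw [e1, e2]
  have hdJg0 : 0 < dJ g := by
    rw [hdJg]
    linarith
  have step3 : ∀ v, Adm n R v → dJ v = 0 → dP v ≤ 0 := by
    intro v hv hdv
    by_contra hcon
    push Not at hcon
    set ε := dP v / (6 * Phi n R g) with hε
    have hε0 : 0 < ε := div_pos hcon (by linarith)
    have h2 := step2 (fun s => v s + (-ε) * g s) (hadm v g (-ε) hv ⟨hg, hg0⟩) (by
      rw [hdJlin v g (-ε) hv.1 hg, hdv]
      nlinarith)
    rw [hdPlin v g (-ε) hv.1 hg, hdPg] at h2
    have h3 : ε * (3 * Phi n R g) = dP v / 2 := by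
      rw [hε]
      field_simp
      ring
    nlinarith
  set μ := dP g / dJ g with hμ
  have hzero : Adm n R (fun _ => (0 : ℝ)) := ⟨memLp_const 0, by simp⟩
  have step4 : ∀ v, Adm n R v → dP v = μ * dJ v := by
    intro v hv
    set w : ℝ → ℝ := fun s => v s + (-(dJ v / dJ g)) * g s with hw
    have hwa : Adm n R w := hadm v g _ hv ⟨hg, hg0⟩
    have hwJ : dJ w = 0 := by
      rw [hw, hdJlin v g _ hv.1 hg]
      field_simp
      ring
    have h2 := step3 w hwa hwJ
    have hz : dJ (fun s => (fun _ => (0 : ℝ)) s + (-2) * w s) = dJ (fun _ => (0 : ℝ)) + (-2) * dJ w :=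
      hdJlin _ w (-2) hzero.1 hwa.1
    have hz2 : dP (fun s => (fun _ => (0 : ℝ)) s + (-2) * w s) = dP (fun _ => (0 : ℝ)) + (-2) * dP w :=
      hdPlin _ w (-2) hzero.1 hwa.1
    have h0J : dJ (fun _ => (0 : ℝ)) = 0 := by
      have := hdJlin (fun _ => (0 : ℝ)) (fun _ => (0 : ℝ)) 1 hzero.1 hzero.1
      simp only [mul_zero, add_zero, one_mul] at this
      linarith
    have h0P : dP (fun _ => (0 : ℝ)) = 0 := by
      have := hdPlin (fun _ => (0 : ℝ)) (fun _ => (0 : ℝ)) 1 hzero.1 hzero.1
      simp only [mul_zero, add_zero, one_mul] at this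
      linarith
    have h3 := step3 (fun s => (fun _ => (0 : ℝ)) s + (-2) * w s) (hadm _ w (-2) hzero hwa) (by
      rw [hz, h0J, hwJ]
      ring)
    rw [hz2, h0P] at h3
    have h4 : dP w = 0 := by linarith
    rw [hw, hdPlin v g _ hv.1 hg] at h4
    rw [hμ]
    have h5 : dP v = dJ v / dJ g * dP g := by linarith
    rw [h5]
    ring
  have hJval : (∫ s, |g s| ^ 3 ∂m) + ∫ s, f s ^ 2 ∂m ≤ 1 := by
    have := hJ
    unfold JJ at this
    rw [← hm, ← hfdef] at this
    exact this
  have hμP : Phi n R g ≤ μ := by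
    rw [hμ, hdPg, le_div_iff₀ hdJg0]
    have h2 : dJ g ≤ 3 := by
      rw [hdJg]
      linarith
    nlinarith
  -- step (iv)
  set q : ℝ → ℝ := fun r => 3 * (FF n R g r) ^ 2 - 2 * μ * FF n R g r with hq
  have hle : (3 / 2 : ENNReal) ≤ 3 := by
    rw [ENNReal.div_le_iff (by norm_num) (by norm_num)]
    norm_num
  have hqm : MemLp q (3 / 2) m := by
    have h2 : MemLp (fun r => f r ^ 2) (3 / 2) m := by
      have := hf.norm_rpow_div 2
      refine this.ae_eq (ae_of_all _ fun x => ?_)
      simp
    have h3 : MemLp f (3 / 2) m := hf.mono_exponent hle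
    exact (h2.const_mul 3).sub (h3.const_mul (2 * μ))
  have hFq := (hK4 g q hg hqm).1
  set Z : ℝ → ℝ := fun s => 3 * μ * (|g s| * g s) - FF n R q s with hZ
  have hZi : Integrable Z m := ((int2 hga hg).const_mul (3 * μ)).sub hFq
  obtain ⟨c, hc⟩ := const_of_orth Z hZi (by
    intro v hvm hvb hv0
    have hv3 : MemLp v 3 m := MemLp.of_bound hvm 2 (ae_of_all _ fun x => by
      rw [Real.norm_eq_abs]; exact hvb x)
    have hva : Adm n R v := ⟨hv3, hv0⟩
    have hV := hK2 v hv3
    obtain ⟨-, h5, h6⟩ := hK4 v q hv3 hqm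
    have h7 : ∫ s, Z s * v s ∂m = 3 * μ * (∫ s, |g s| * g s * v s ∂m) - ∫ s, v s * FF n R q s ∂m := by
      rw [← integral_const_mul, ← integral_sub ((int3 hga hg hv3).const_mul (3 * μ)) h5]
      congr 1
      funext s
      rw [hZ]
      ring
    have h8 : ∫ s, FF n R v s * q s ∂m = 3 * (∫ s, f s * f s * FF n R v s ∂m) -
        2 * μ * ∫ s, f s * FF n R v s ∂m := by
      rw [← integral_const_mul, ← integral_const_mul, ← integral_sub ((int3 hf hf hV).const_mul 3)
        ((int2 hf hV).const_mul (2 * μ))]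
      congr 1
      funext s
      rw [hq]
      simp only
      rw [← hfdef]
      ring
    have h9 := step4 v hva
    simp only [hdP, hdJ] at h9
    rw [h7, ← h6, h8]
    linarith)
  refine ⟨μ, c, hμP, ?_⟩
  filter_upwards [hc] with s hs
  rw [hZ] at hs
  simp only at hs
  linarith

end Pool.Agent.R525.FP
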