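import Pool.Agent.R525.FP.Stm

set_option autoImplicit false

open MeasureTheory Set
open scoped ContDiff InnerProductSpace Laplacian

namespace Pool.Agent.R525.FP

theorem lap_eq {N : ℕ} (f : EuclideanSpace ℝ (Fin N) → ℝ) : Δ f = lap f := by
  rw [InnerProductSpace.laplacian_eq_iteratedFDeriv_orthonormalBasis f
    (EuclideanSpace.basisFun (Fin N) ℝ)]
  funext x
  simp [lap]

theorem scale {n : ℕ} {u q : ℝ → ℝ} {b : ℝ} (hb : 0 < b) (a : ℝ)
    (h : ∀ r, 0 < r → HasDerivAt u ((r ^ n)⁻¹ * ∫ s in (0:ℝ)..r, q s * s ^ n) r) :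
    ∀ r, 0 < r → HasDerivAt (fun r => a * u (b * r))
      ((r ^ n)⁻¹ * ∫ s in (0:ℝ)..r, (a * b ^ 2 * q (b * s)) * s ^ n) r := by
  intro r hr
  have h1 := h (b * r) (mul_pos hb hr)
  have h2 : HasDerivAt (fun r => b * r) b r := by
    simpa using (hasDerivAt_id r).const_mul b
  have h3 := ((h1.comp r h2).const_mul a)
  have h4 : ∫ s in (0:ℝ)..r, (a * b ^ 2 * q (b * s)) * s ^ n =
      a * b ^ 2 * ((b ^ n)⁻¹ * (b⁻¹ * ∫ s in (0:ℝ)..(b * r), q s * s ^ n)) := by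
    have h5 : ∫ s in (0:ℝ)..r, (fun t => q t * t ^ n) (b * s) = b⁻¹ • ∫ s in (b * 0)..(b * r), q s * s ^ n :=
      intervalIntegral.integral_comp_mul_left (fun t => q t * t ^ n) hb.ne'
    rw [mul_zero, smul_eq_mul] at h5
    rw [← h5, ← intervalIntegral.integral_const_mul, ← intervalIntegral.integral_const_mul]
    congr 1
    funext s
    have : (b * s) ^ n = b ^ n * s ^ n := mul_pow _ _ _
    have hbn : b ^ n ≠ 0 := (pow_pos hb n).ne'
    show a * b ^ 2 * q (b * s) * s ^ n = a * b ^ 2 * ((b ^ n)⁻¹ * (q (b * s) * (b * s) ^ n))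
    rw [this]
    field_simp
  have h6 : (r ^ n)⁻¹ * ∫ s in (0:ℝ)..r, (a * b ^ 2 * q (b * s)) * s ^ n =
      a * ((((b * r) ^ n)⁻¹ * ∫ s in (0:ℝ)..(b * r), q s * s ^ n) * b) := by
    rw [h4, mul_pow]
    have hbn : b ^ n ≠ 0 := (pow_pos hb n).ne'
    have hrn : r ^ n ≠ 0 := (pow_pos hr n).ne'
    field_simp
  rw [h6]
  exact h3

/-- The solution in dimension `n + 1`. -/
theorem fin_aux (hR : RadP) (hG : GreenP) {n : ℕ} {μ c : ℝ} {f g h : ℝ → ℝ} (hμ : 0 < μ)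
    (S : Glob n μ c f g h) :
    ∃ F : EuclideanSpace ℝ (Fin (n + 1)) → ℝ, ContDiff ℝ 2 F ∧ HasCompactSupport F ∧ F ≠ 0 ∧
      (∀ x y, ‖x‖ = ‖y‖ → F x = F y) ∧
      ContDiff ℝ 2 (fun x => |(Δ F) x| * (Δ F) x) ∧
      (∀ x, - (Δ (fun y => |(Δ F) y| * (Δ F) y)) x + (F x ^ 2 - F x) = 0) ∧
      ∀ φ : EuclideanSpace ℝ (Fin (n + 1)) → ℝ, ContDiff ℝ ∞ φ → HasCompactSupport φ →
        - (∫ x, |(Δ F) x| * (Δ F) x * (Δ φ) x) + ∫ x, (F x ^ 2 - F x) * φ x = 0 := by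
  obtain ⟨b, hb, hb6⟩ : ∃ b : ℝ, 0 < b ∧ b ^ 6 = μ := by
    refine ⟨μ ^ (1 / 6 : ℝ), Real.rpow_pos_of_pos hμ _, ?_⟩
    rw [← Real.rpow_natCast, ← Real.rpow_mul hμ.le]
    norm_num
  set a : ℝ := 3 / (2 * μ) with ha
  have ha0 : 0 < a := by positivity
  have haμ : a * μ * (2 / 3) = 1 := by rw [ha]; field_simp
  set u : ℝ → ℝ := fun r => a * f (b * r) with hu
  set q : ℝ → ℝ := fun r => a * b ^ 2 * g (b * r) with hq
  set v : ℝ → ℝ := fun r => (a ^ 2 * b ^ 4) * h (b * r) with hv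
  have hbc : Continuous fun r : ℝ => b * r := continuous_const.mul continuous_id
  have cu : Continuous u := continuous_const.mul (S.cf.comp hbc)
  have cq : Continuous q := continuous_const.mul (S.cg.comp hbc)
  have cv : Continuous v := continuous_const.mul (S.ch.comp hbc)
  have du := scale hb a S.df
  have dv := scale (u := h) (q := fun s => f s ^ 2 / μ - 2 / 3 * f s) hb (a ^ 2 * b ^ 4) S.dh
  have hqv : ∀ s : ℝ, a ^ 2 * b ^ 4 * b ^ 2 * (f (b * s) ^ 2 / μ - 2 / 3 * f (b * s)) = u s ^ 2 - u s := by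
    intro s
    have e1 : a ^ 2 * b ^ 4 * b ^ 2 = a ^ 2 * μ := by rw [← hb6]; ring
    rw [e1, hu]
    have e2 : a ^ 2 * μ * (f (b * s) ^ 2 / μ - 2 / 3 * f (b * s)) =
        a ^ 2 * f (b * s) ^ 2 - a * (a * μ * (2 / 3)) * f (b * s) := by
      field_simp
    rw [e2, haμ]; ring
  have dv' : ∀ r, 0 < r → HasDerivAt v ((r ^ n)⁻¹ * ∫ s in (0:ℝ)..r, (u s ^ 2 - u s) * s ^ n) r := by
    intro r hr
    have := dv r hr
    simp only [hqv] at this
    exact this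
  obtain ⟨cU, lU⟩ := hR n u q cu cq du
  obtain ⟨cV, lV⟩ := hR n v (fun s => u s ^ 2 - u s) cv ((cu.pow 2).sub cu) dv'
  set F : EuclideanSpace ℝ (Fin (n + 1)) → ℝ := fun x => u ‖x‖ with hF
  have hΔ : ∀ x, (Δ F) x = q ‖x‖ := by
    intro x; rw [lap_eq]; exact lU x
  have hhh : (fun x => |(Δ F) x| * (Δ F) x) = fun x => v ‖x‖ := by
    funext x
    rw [hΔ x]
    simp only [hq, hv]
    rw [S.hg (b * ‖x‖), abs_mul, abs_of_pos (by positivity : (0:ℝ) < a * b ^ 2)]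
    ring
  have hcomp : HasCompactSupport F := by
    refine HasCompactSupport.intro (K := Metric.closedBall 0 (|c| / b)) (isCompact_closedBall _ _) ?_
    intro x hx
    rw [mem_closedBall_zero_iff, not_le, div_lt_iff₀ hb] at hx
    simp only [hF, hu]
    rw [S.f0 (b * ‖x‖) ((le_abs_self c).trans (by linarith [mul_comm b ‖x‖])), mul_zero]
  refine ⟨F, cU, hcomp, ?_, ?_, ?_, ?_, ?_⟩
  · obtain ⟨r, hr, hfr⟩ := S.ne
    intro h0
    have h1 := congrFun h0 (EuclideanSpace.single 0 (r / b))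
    simp only [hF, hu, PiLp.norm_single, Pi.zero_apply, Real.norm_eq_abs,
      abs_of_pos (div_pos hr hb)] at h1
    rw [mul_div_cancel₀ _ hb.ne'] at h1
    rcases mul_eq_zero.1 h1 with h2 | h2
    · exact ha0.ne' h2
    · exact hfr h2
  · intro x y hxy
    simp only [hF, hxy]
  · rw [hhh]; exact cV
  · intro x
    rw [hhh, lap_eq, lV x]
    simp only [hF]
    ring
  · intro φ hφ hc
    have h1 := hG (n + 1) (fun x => v ‖x‖) φ cV (hφ.of_le (by norm_cast)) hc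
    have h2 : ∫ x, |(Δ F) x| * (Δ F) x * (Δ φ) x = ∫ x, v ‖x‖ * lap φ x := by
      rw [lap_eq φ]
      congr 1
      funext x
      rw [congrFun hhh x]
    have h3 : ∫ x, (F x ^ 2 - F x) * φ x = ∫ x, lap (fun y => v ‖y‖) x * φ x := by
      congr 1
      funext x
      rw [lV x]
    rw [h2, h3, h1]
    ring

theorem main (h1 : SelP) (h2 : Sel0P) (h3 : CutP) (hR : RadP) (hG : GreenP) :
    ∀ N : ℕ, 1 ≤ N → ∃ F : EuclideanSpace ℝ (Fin N) → ℝ,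
      ContDiff ℝ 2 F ∧ HasCompactSupport F ∧ F ≠ 0 ∧
      (∀ x y, ‖x‖ = ‖y‖ → F x = F y) ∧
      ContDiff ℝ 2 (fun x => |(Δ F) x| * (Δ F) x) ∧
      (∀ x, - (Δ (fun y => |(Δ F) y| * (Δ F) y)) x + (F x ^ 2 - F x) = 0) ∧
      ∀ φ : EuclideanSpace ℝ (Fin N) → ℝ, ContDiff ℝ ∞ φ → HasCompactSupport φ →
        - (∫ x, |(Δ F) x| * (Δ F) x * (Δ φ) x) + ∫ x, (F x ^ 2 - F x) * φ x = 0 := by
  intro N hN
  obtain ⟨n, rfl⟩ : ∃ n, N = n + 1 := ⟨N - 1, by omega⟩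
  rcases Nat.eq_zero_or_pos n with rfl | hn
  · obtain ⟨R, μ, c, c', f, g, h, hμ, S, hc, hcc, hcR, h0, hne⟩ := h2
    obtain ⟨f', g', h', G⟩ := h3 0 R μ c c' f g h hμ S hc hcc hcR h0 hne
    exact fin_aux hR hG hμ G
  · obtain ⟨R, μ, c, c', f, g, h, hμ, S, hc, hcc, hcR, h0, hne⟩ := h1 n hn
    obtain ⟨f', g', h', G⟩ := h3 n R μ c c' f g h hμ S hc hcc hcR h0 hne
    exact fin_aux hR hG hμ G

end Pool.Agent.R525.FP
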