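import Pool.Agent.R525.FP.Stm

/-! # FP-GREEN (helper451): Green's identity for `C²` functions, one compactly supported -/

set_option autoImplicit false

open MeasureTheory Set

namespace Pool.Agent.R525.FP

namespace GreenAux

variable {N : ℕ}

/-- the derivative in the direction `v` -/
noncomputable def dv (v : EuclideanSpace ℝ (Fin N)) (f : EuclideanSpace ℝ (Fin N) → ℝ)
    (x : EuclideanSpace ℝ (Fin N)) : ℝ := fderiv ℝ f x v

lemma two (v : EuclideanSpace ℝ (Fin N)) {f : EuclideanSpace ℝ (Fin N) → ℝ}
    (hf : ContDiff ℝ 2 f) (x : EuclideanSpace ℝ (Fin N)) :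
    iteratedFDeriv ℝ 2 f x ![v, v] = dv v (dv v f) x := by
  rw [iteratedFDeriv_two_apply]
  simp only [Matrix.cons_val_zero, Matrix.cons_val_one]
  unfold dv
  have h1 : DifferentiableAt ℝ (fderiv ℝ f) x :=
    (hf.fderiv_right (m := 1) (by norm_num)).differentiable (by norm_num) x
  rw [fderiv_clm_apply h1 (differentiableAt_const v)]
  simp

lemma dv_cont (v : EuclideanSpace ℝ (Fin N)) {f : EuclideanSpace ℝ (Fin N) → ℝ}
    (hf : ContDiff ℝ 1 f) : Continuous (dv v f) := by
  unfold dv
  exact (hf.continuous_fderiv (by norm_num)).clm_apply continuous_const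

lemma dv_contDiff (v : EuclideanSpace ℝ (Fin N)) {f : EuclideanSpace ℝ (Fin N) → ℝ}
    (hf : ContDiff ℝ 2 f) : ContDiff ℝ 1 (dv v f) := by
  unfold dv
  exact (hf.fderiv_right (m := 1) (by norm_num)).clm_apply contDiff_const

lemma dv_supp (v : EuclideanSpace ℝ (Fin N)) {f : EuclideanSpace ℝ (Fin N) → ℝ}
    (hf : HasCompactSupport f) : HasCompactSupport (dv v f) := hf.fderiv_apply ℝ v

lemma parts (v : EuclideanSpace ℝ (Fin N)) {f g : EuclideanSpace ℝ (Fin N) → ℝ}
    (hf : ContDiff ℝ 1 f) (hg : ContDiff ℝ 1 g) (hc : HasCompactSupport g) :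
    ∫ x, f x * dv v g x = - ∫ x, dv v f x * g x := by
  unfold dv
  apply integral_mul_fderiv_eq_neg_fderiv_mul_of_integrable
  · exact ((dv_cont v hf).mul hg.continuous).integrable_of_hasCompactSupport hc.mul_left
  · exact (hf.continuous.mul (dv_cont v hg)).integrable_of_hasCompactSupport
      (dv_supp v hc).mul_left
  · exact (hf.continuous.mul hg.continuous).integrable_of_hasCompactSupport hc.mul_left
  · exact fun x _ => hf.differentiable (by norm_num) x
  · exact fun x _ => hg.differentiable (by norm_num) x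

end GreenAux

open GreenAux in
/-- Green's identity -/
theorem greenP : GreenP := by
  intro N H φ hH hφ hc
  have h1 : ∀ x, H x * lap φ x = ∑ i, H x * dv (EuclideanSpace.single i 1)
      (dv (EuclideanSpace.single i 1) φ) x := by
    intro x
    unfold lap
    rw [Finset.mul_sum]
    exact Finset.sum_congr rfl fun i _ => by rw [two _ hφ]
  have h2 : ∀ x, lap H x * φ x = ∑ i, dv (EuclideanSpace.single i 1)
      (dv (EuclideanSpace.single i 1) H) x * φ x := by
    intro x
    unfold lap
    rw [Finset.sum_mul]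
    exact Finset.sum_congr rfl fun i _ => by rw [two _ hH]
  simp only [h1, h2]
  rw [integral_finsetSum, integral_finsetSum]
  · refine Finset.sum_congr rfl fun i _ => ?_
    rw [parts _ (hH.of_le (by norm_num)) (dv_contDiff _ hφ) (dv_supp _ hc),
      parts _ (dv_contDiff _ hH) (hφ.of_le (by norm_num)) hc, neg_neg]
  · intro i _
    exact ((dv_cont _ (dv_contDiff _ hH)).mul hφ.continuous).integrable_of_hasCompactSupport
      hc.mul_left
  · intro i _
    exact (hH.continuous.mul (dv_cont _ (dv_contDiff _ hφ))).integrable_of_hasCompactSupport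
      (dv_supp _ (dv_supp _ hc)).mul_left

end Pool.Agent.R525.FP
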