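import Pool.Agent.R525.FP.Stm

/-! Project FP, piece FP-IT: `FF` as an iterated integral. -/

set_option autoImplicit false

open MeasureTheory Set

namespace Pool.Agent.R525.FP

namespace ItAux

lemma integrable_iff (n : ℕ) (R : ℝ) (g : ℝ → ℝ) :
    Integrable g (wm n R) ↔ IntegrableOn (fun s => g s * s ^ n) (Ioo 0 R) := by
  unfold wm IntegrableOn
  rw [integrable_withDensity_iff_integrable_smul' (by fun_prop)
    (ae_of_all _ fun _ => ENNReal.ofReal_lt_top)]
  refine integrable_congr ?_
  refine (ae_restrict_iff' measurableSet_Ioo).mpr (ae_of_all _ fun s hs => ?_)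
  simp only [smul_eq_mul]
  rw [ENNReal.toReal_ofReal (pow_nonneg hs.1.le n), mul_comm]

lemma integral_eq (n : ℕ) (R : ℝ) (g : ℝ → ℝ) :
    ∫ s, g s ∂(wm n R) = ∫ s in Ioo 0 R, g s * s ^ n := by
  unfold wm
  rw [integral_withDensity_eq_integral_toReal_smul (by fun_prop)
    (ae_of_all _ fun _ => ENNReal.ofReal_lt_top)]
  refine setIntegral_congr_fun measurableSet_Ioo fun s hs => ?_
  simp only [smul_eq_mul]
  rw [ENNReal.toReal_ofReal (pow_nonneg hs.1.le n), mul_comm]

lemma kint (n : ℕ) {r R : ℝ} (hr : 0 < r) : IntegrableOn (fun u : ℝ => (u ^ n)⁻¹) (Ioc r R) := by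
  have h : ContinuousOn (fun u : ℝ => (u ^ n)⁻¹) (Icc r R) := by
    refine ContinuousOn.inv₀ (by fun_prop) fun u hu => ?_
    have : 0 < u := lt_of_lt_of_le hr hu.1
    positivity
  exact (h.integrableOn_Icc).mono_set Ioc_subset_Icc_self

end ItAux

open ItAux in
theorem itP : ItP := by
  intro n R hR g hg
  have hg' := (integrable_iff n R g).mp hg
  refine ⟨(intervalIntegrable_iff_integrableOn_Ioo_of_le hR.le).mpr hg', ?_, ?_⟩
  · rw [integral_eq, intervalIntegral.integral_of_le hR.le, integral_Ioc_eq_integral_Ioo]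
  · intro r hr
    have hI : Integrable (Function.uncurry fun s u : ℝ =>
        (g s * s ^ n * (u ^ n)⁻¹) * (if s < u then (1 : ℝ) else 0))
        ((volume.restrict (Ioo 0 R)).prod (volume.restrict (Ioc r R))) := by
      have h1 : Integrable (fun p : ℝ × ℝ => (g p.1 * p.1 ^ n) * (p.2 ^ n)⁻¹)
          ((volume.restrict (Ioo 0 R)).prod (volume.restrict (Ioc r R))) :=
        Integrable.mul_prod hg' (kint n hr.1)
      refine h1.mul_bdd (c := 1) ?_ (ae_of_all _ fun p => ?_)
      · refine Measurable.aestronglyMeasurable ?_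
        exact Measurable.ite (measurableSet_lt measurable_fst measurable_snd) measurable_const
          measurable_const
      · split_ifs <;> simp
    have e1 : FF n R g r = - ∫ s in Ioo 0 R, ∫ u in Ioc r R,
        (g s * s ^ n * (u ^ n)⁻¹) * (if s < u then (1 : ℝ) else 0) := by
      unfold FF
      rw [integral_eq]
      congr 1
      refine setIntegral_congr_fun measurableSet_Ioo fun s hs => ?_
      have hm : max r s ≤ R := max_le hr.2 hs.2.le
      have e2 : ∫ u in Ioc r R, (g s * s ^ n * (u ^ n)⁻¹) * (if s < u then (1 : ℝ) else 0) =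
          ∫ u in Ioc r R, (Ioi s).indicator (fun u : ℝ => g s * s ^ n * (u ^ n)⁻¹) u := by
        refine setIntegral_congr_fun measurableSet_Ioc fun u _ => ?_
        simp only [Set.indicator, Set.mem_Ioi]
        split_ifs <;> simp
      rw [e2, setIntegral_indicator measurableSet_Ioi, Set.Ioc_inter_Ioi, integral_const_mul]
      rw [kk, intervalIntegral.integral_of_le hm]
      ring
    have e3 : ∫ u in r..R, (u ^ n)⁻¹ * ∫ s in (0:ℝ)..u, g s * s ^ n =
        ∫ u in Ioc r R, ∫ s in Ioo 0 R,
          (g s * s ^ n * (u ^ n)⁻¹) * (if s < u then (1 : ℝ) else 0) := by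
      rw [intervalIntegral.integral_of_le hr.2]
      refine setIntegral_congr_fun measurableSet_Ioc fun u hu => ?_
      have hu0 : 0 ≤ u := (lt_trans hr.1 hu.1).le
      have e2 : ∫ s in Ioo 0 R, (g s * s ^ n * (u ^ n)⁻¹) * (if s < u then (1 : ℝ) else 0) =
          ∫ s in Ioo 0 R, (Iio u).indicator (fun s : ℝ => g s * s ^ n * (u ^ n)⁻¹) s := by
        refine setIntegral_congr_fun measurableSet_Ioo fun s _ => ?_
        simp only [Set.indicator, Set.mem_Iio]
        split_ifs <;> simp
      rw [e2, setIntegral_indicator measurableSet_Iio, Set.Ioo_inter_Iio, min_eq_right hu.2,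
        integral_mul_const, intervalIntegral.integral_of_le hu0, integral_Ioc_eq_integral_Ioo]
      ring
    rw [e1, e3, integral_integral_swap hI]

end Pool.Agent.R525.FP
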