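import Pool.Agent.R525.FP.Stm

/-! # FP-ITER: Stampacchia iteration -/

set_option autoImplicit false

open MeasureTheory Set Filter Topology

namespace Pool.Agent.R525.FP

namespace IterAux

theorem rpow_cube {x : ℝ} (hx : 0 ≤ x) : (x ^ 3) ^ (4 / 3 : ℝ) = x ^ 4 := by
  rw [← Real.rpow_natCast x 3, ← Real.rpow_mul hx, ← Real.rpow_natCast x 4]
  norm_num

/-- the points -/
noncomputable def tk (k : ℕ) : ℝ := 1 / 6 + 1 / 3 * (1 / 2) ^ k

theorem tk_gt (k : ℕ) : 1 / 6 < tk k := by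
  unfold tk
  have : (0 : ℝ) < (1 / 2) ^ k := by positivity
  linarith

theorem tk_le (k : ℕ) : tk k ≤ 1 / 2 := by
  unfold tk
  have : (1 / 2 : ℝ) ^ k ≤ 1 := pow_le_one₀ (by norm_num) (by norm_num)
  linarith

theorem tk_sub (k : ℕ) : tk k - tk (k + 1) = 1 / 6 * (1 / 2) ^ k := by
  unfold tk
  rw [pow_succ]
  ring

end IterAux

open IterAux in
theorem iterP : IterP := by
  intro C hC
  set η : ℝ := (1 / 64) ^ 3 / (C * 6 ^ 6) with hη
  have hη0 : 0 < η := by positivity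
  refine ⟨η ^ 3, by positivity, fun E hE0 hmono hrec hε => ?_⟩
  have key : ∀ k : ℕ, E (tk k) ≤ (η * (1 / 64) ^ k) ^ 3 := by
    intro k
    induction k with
    | zero =>
      have e : tk 0 = 1 / 2 := by unfold tk; norm_num
      rw [e, pow_zero, mul_one]
      exact hε
    | succ k ih =>
      have hlt : tk (k + 1) < tk k := by
        have h1 := tk_sub k
        have : (0 : ℝ) < 1 / 6 * (1 / 2) ^ k := by positivity
        linarith
      have h1 := hrec (tk (k + 1)) (tk k) (tk_gt _).le hlt (tk_le _)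
      refine h1.trans ?_
      have h2 : E (tk k) ^ (4 / 3 : ℝ) ≤ (η * (1 / 64) ^ k) ^ 4 := by
        rw [← rpow_cube (by positivity)]
        exact Real.rpow_le_rpow (hE0 _) ih (by norm_num)
      have h3 : ((tk k - tk (k + 1)) ^ 6)⁻¹ = 6 ^ 6 * 64 ^ k := by
        rw [tk_sub, mul_pow, ← pow_mul, mul_comm k 6, pow_mul, mul_inv, ← inv_pow, ← inv_pow]
        norm_num
      rw [h3]
      calc C * (6 ^ 6 * 64 ^ k) * E (tk k) ^ (4 / 3 : ℝ)
          ≤ C * (6 ^ 6 * 64 ^ k) * (η * (1 / 64) ^ k) ^ 4 := by gcongr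
        _ = (C * 6 ^ 6 * η) * (64 ^ k * (1 / 64) ^ k) * (η * (1 / 64) ^ k) ^ 3 := by ring
        _ = (1 / 64) ^ 3 * (η * (1 / 64) ^ k) ^ 3 := by
            have e1 : C * 6 ^ 6 * η = (1 / 64) ^ 3 := by
              rw [hη]; field_simp
            have e2 : (64 : ℝ) ^ k * (1 / 64) ^ k = 1 := by
              rw [← mul_pow]; norm_num
            rw [e1, e2, mul_one]
        _ = (η * (1 / 64) ^ (k + 1)) ^ 3 := by
            rw [pow_succ (1 / 64 : ℝ) k]; ring
  have hlim : Tendsto (fun k : ℕ => (η * (1 / 64 : ℝ) ^ k) ^ 3) atTop (𝓝 0) := by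
    have h1 : Tendsto (fun k : ℕ => (1 / 64 : ℝ) ^ k) atTop (𝓝 0) :=
      tendsto_pow_atTop_nhds_zero_of_lt_one (by norm_num) (by norm_num)
    have h2 := ((h1.const_mul η).pow 3)
    simpa using h2
  have hle : E (1 / 6) ≤ 0 := ge_of_tendsto' hlim fun k =>
    (hmono (1 / 6) (tk k) le_rfl (tk_gt k) (tk_le k)).trans (key k)
  exact le_antisymm hle (hE0 _)

end Pool.Agent.R525.FP
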