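import Pool.Agent.R525.FP.Stm

/-! # FP-KER: bounds, linearity and symmetry of the radial solution operator -/

set_option autoImplicit false

open MeasureTheory Set

namespace Pool.Agent.R525.FP

namespace KerAux

open scoped ENNReal

theorem kk_bd {n : ℕ} {R t : ℝ} (ht : 0 < t) (htR : t ≤ R) :
    0 ≤ kk n R t ∧ kk n R t ≤ R * (t ^ n)⁻¹ := by
  constructor
  · exact intervalIntegral.integral_nonneg htR fun u hu => by
      have h0 : 0 < u := lt_of_lt_of_le ht hu.1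
      positivity
  · have h : ‖∫ u in t..R, (u ^ n)⁻¹‖ ≤ (t ^ n)⁻¹ * |R - t| := by
      refine intervalIntegral.norm_integral_le_of_norm_le_const fun u hu => ?_
      rw [uIoc_of_le htR] at hu
      have h0 : 0 < u := ht.trans hu.1
      rw [Real.norm_of_nonneg (by positivity)]
      exact inv_anti₀ (by positivity) (pow_le_pow_left₀ ht.le hu.1.le n)
    rw [abs_of_nonneg (by linarith)] at h
    calc kk n R t ≤ ‖∫ u in t..R, (u ^ n)⁻¹‖ := Real.le_norm_self _
      _ ≤ (t ^ n)⁻¹ * (R - t) := h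
      _ ≤ (t ^ n)⁻¹ * R := by
          refine mul_le_mul_of_nonneg_left (by linarith) (by positivity)
      _ = _ := mul_comm _ _

theorem kk_cont (n : ℕ) {R : ℝ} (hR : 0 < R) : ContinuousOn (kk n R) (Ioi 0) := by
  intro t ht
  have hc : ContinuousOn (fun u : ℝ => (u ^ n)⁻¹) (Ioi 0) := by
    intro u hu
    refine ContinuousAt.continuousWithinAt ?_
    have h0 : u ^ n ≠ 0 := pow_ne_zero _ (ne_of_gt hu)
    exact (continuousAt_id.pow n).inv₀ h0
  have h1 : IntervalIntegrable (fun u : ℝ => (u ^ n)⁻¹) volume t R := by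
    refine (hc.mono ?_).intervalIntegrable
    intro u hu
    have h2 := (mem_uIcc.1 hu)
    have ht' : 0 < t := ht
    rcases h2 with h2 | h2
    · exact lt_of_lt_of_le ht' h2.1
    · exact lt_of_lt_of_le hR h2.1
  have h := intervalIntegral.integral_hasDerivAt_left h1
    (ContinuousOn.stronglyMeasurableAtFilter isOpen_Ioi hc t ht)
    (hc.continuousAt (Ioi_mem_nhds ht))
  exact h.continuousAt.continuousWithinAt

/-- measurable version of the kernel -/
noncomputable def K (n : ℕ) (R : ℝ) : ℝ → ℝ := (Ioi 0).indicator (kk n R)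

theorem K_meas (n : ℕ) {R : ℝ} (hR : 0 < R) : Measurable (K n R) := by
  classical
  have h := ContinuousOn.measurable_piecewise (kk_cont n hR)
    (continuousOn_const (c := (0 : ℝ)) (s := (Ioi (0 : ℝ))ᶜ)) measurableSet_Ioi
  have e : K n R = (Ioi (0 : ℝ)).piecewise (kk n R) (fun _ => 0) := by
    unfold K
    rw [← Set.piecewise_eq_indicator]
    rfl
  rw [e]
  exact h

theorem K_eq {n : ℕ} {R t : ℝ} (ht : 0 < t) : K n R t = kk n R t := by
  unfold K
  exact indicator_of_mem (show t ∈ Ioi (0 : ℝ) from ht) _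

theorem wm_mem (n : ℕ) (R : ℝ) : ∀ᵐ s ∂(wm n R), s ∈ Ioo (0 : ℝ) R := by
  unfold wm
  exact (withDensity_absolutelyContinuous _ _).ae_le (ae_restrict_mem measurableSet_Ioo)

theorem wm_le (n : ℕ) (R : ℝ) (F : ℝ → ℝ≥0∞) :
    ∫⁻ s, F s ∂(wm n R) ≤ ∫⁻ s in Ioo 0 R, ENNReal.ofReal (s ^ n) * F s := by
  unfold wm
  exact lintegral_withDensity_le_lintegral_mul _ (by fun_prop) F

theorem wm_le_const (n : ℕ) (R : ℝ) (F : ℝ → ℝ≥0∞) (c : ℝ≥0∞)
    (h : ∀ s ∈ Ioo (0 : ℝ) R, ENNReal.ofReal (s ^ n) * F s ≤ c) :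
    ∫⁻ s, F s ∂(wm n R) ≤ c * ENNReal.ofReal R := by
  refine (wm_le n R F).trans ?_
  calc ∫⁻ s in Ioo 0 R, ENNReal.ofReal (s ^ n) * F s ≤ ∫⁻ _s in Ioo 0 R, c :=
        setLIntegral_mono' measurableSet_Ioo h
    _ = c * ENNReal.ofReal R := by
        rw [setLIntegral_const, Real.volume_Ioo, sub_zero]

theorem wm_fin (n : ℕ) (R : ℝ) : IsFiniteMeasure (wm n R) := by
  refine ⟨?_⟩
  have h := wm_le_const n R (fun _ => 1) (ENNReal.ofReal (R ^ n)) (fun s hs => by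
    rw [mul_one]
    exact ENNReal.ofReal_le_ofReal (pow_le_pow_left₀ hs.1.le hs.2.le n))
  rw [lintegral_one] at h
  exact lt_of_le_of_lt h (ENNReal.mul_lt_top ENNReal.ofReal_lt_top ENNReal.ofReal_lt_top)

/-- the `L^{3/2}` norm of the kernel -/
theorem ker_lint (n : ℕ) {R r : ℝ} (hr : r ∈ Ioo (0 : ℝ) R) :
    ∫⁻ s, ‖K n R (max r s)‖ₑ ^ (3 / 2 : ℝ) ∂(wm n R) ≤
      ENNReal.ofReal (R ^ (5 / 2 : ℝ) * r ^ (-(n : ℝ) / 2)) := by
  have hR : 0 < R := hr.1.trans hr.2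
  have h := wm_le_const n R (fun s => ‖K n R (max r s)‖ₑ ^ (3 / 2 : ℝ))
    (ENNReal.ofReal (R ^ (3 / 2 : ℝ) * r ^ (-(n : ℝ) / 2))) (fun s hs => by
      have hM0 : 0 < max r s := lt_max_of_lt_left hr.1
      have hMR : max r s ≤ R := max_le hr.2.le hs.2.le
      obtain ⟨k0, k1⟩ := kk_bd (n := n) hM0 hMR
      have hs0 : 0 < s := hs.1
      have hr0 : 0 < r := hr.1
      rw [K_eq hM0, Real.enorm_of_nonneg k0, ENNReal.ofReal_rpow_of_nonneg k0 (by norm_num),
        ← ENNReal.ofReal_mul (by positivity)]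
      refine ENNReal.ofReal_le_ofReal ?_
      obtain ⟨x, hx⟩ : ∃ x : ℝ, x = (max r s) ^ n := ⟨_, rfl⟩
      have hx0 : 0 < x := by rw [hx]; positivity
      have hrx : r ^ n ≤ x := by
        rw [hx]
        exact pow_le_pow_left₀ hr.1.le (le_max_left _ _) n
      have hsx : s ^ n ≤ x := by
        rw [hx]
        exact pow_le_pow_left₀ hs.1.le (le_max_right _ _) n
      rw [← hx] at k1
      calc s ^ n * kk n R (max r s) ^ (3 / 2 : ℝ) ≤ x * (R * x⁻¹) ^ (3 / 2 : ℝ) := by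
            gcongr
        _ = R ^ (3 / 2 : ℝ) * x ^ (-(1 : ℝ) / 2) := by
            rw [Real.mul_rpow hR.le (by positivity), Real.inv_rpow hx0.le,
              ← Real.rpow_neg hx0.le]
            have h1 : x ^ (-(1 : ℝ) / 2) = x * x ^ (-(3 / 2) : ℝ) := by
              nth_rw 2 [← Real.rpow_one x]
              rw [← Real.rpow_add hx0]
              norm_num
            rw [h1]
            ring
        _ ≤ R ^ (3 / 2 : ℝ) * (r ^ n) ^ (-(1 : ℝ) / 2) := by
            refine mul_le_mul_of_nonneg_left ?_ (by positivity)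
            exact Real.rpow_le_rpow_of_nonpos (by positivity) hrx (by norm_num)
        _ = _ := by
            rw [← Real.rpow_natCast, ← Real.rpow_mul hr0.le]
            congr 2
            ring)
  refine h.trans (le_of_eq ?_)
  rw [← ENNReal.ofReal_mul (by have := hr.1; positivity)]
  congr 1
  have h1 : R ^ (5 / 2 : ℝ) = R ^ (3 / 2 : ℝ) * R := by
    nth_rw 3 [← Real.rpow_one R]
    rw [← Real.rpow_add hR]
    norm_num
  rw [h1]
  ring

theorem int3 {n : ℕ} {R : ℝ} {g : ℝ → ℝ} (hg : MemLp g 3 (wm n R)) :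
    ∫⁻ s, ‖g s‖ₑ ^ (3 : ℝ) ∂(wm n R) = ENNReal.ofReal (∫ s, |g s| ^ 3 ∂(wm n R)) := by
  have hI : Integrable (fun s => |g s| ^ 3) (wm n R) := by
    have h := hg.integrable_norm_pow (p := 3) (by norm_num)
    simpa using h
  rw [ofReal_integral_eq_lintegral_ofReal hI (Filter.Eventually.of_forall fun s => by positivity)]
  refine lintegral_congr fun s => ?_
  rw [Real.enorm_eq_ofReal_abs, ENNReal.ofReal_rpow_of_nonneg (abs_nonneg _) (by norm_num)]
  congr 1
  exact_mod_cast Real.rpow_natCast |g s| 3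

theorem hold {n : ℕ} {R : ℝ} (hR : 0 < R) {g : ℝ → ℝ} (hg : MemLp g 3 (wm n R)) {r : ℝ}
    (hr : r ∈ Ioo (0 : ℝ) R) :
    ∫⁻ s, ‖K n R (max r s) * g s‖ₑ ∂(wm n R) ≤ ENNReal.ofReal
      ((R ^ (5 / 2 : ℝ)) ^ (2 / 3 : ℝ) * (∫ s, |g s| ^ 3 ∂(wm n R)) ^ (1 / 3 : ℝ) *
        r ^ (-(n : ℝ) / 3)) := by
  have hr0 : 0 < r := hr.1
  have hcj : (3 / 2 : ℝ).HolderConjugate 3 := by
    rw [Real.holderConjugate_iff]
    norm_num
  have h := ENNReal.lintegral_mul_le_Lp_mul_Lq (wm n R) hcj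
    (f := fun s => ‖K n R (max r s)‖ₑ) (g := fun s => ‖g s‖ₑ)
    (((K_meas n hR).comp (measurable_const.max measurable_id)).enorm.aemeasurable)
    hg.aestronglyMeasurable.enorm
  have e : ∫⁻ s, ‖K n R (max r s) * g s‖ₑ ∂(wm n R) =
      ∫⁻ s, ((fun s => ‖K n R (max r s)‖ₑ) * fun s => ‖g s‖ₑ) s ∂(wm n R) := by
    refine lintegral_congr fun s => ?_
    rw [enorm_mul]
    rfl
  rw [e]
  refine h.trans ?_
  rw [int3 hg]
  have hI0 : 0 ≤ ∫ s, |g s| ^ 3 ∂(wm n R) := integral_nonneg fun s => by positivity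
  have k1 : (∫⁻ s, ‖K n R (max r s)‖ₑ ^ (3 / 2 : ℝ) ∂(wm n R)) ^ (1 / (3 / 2) : ℝ) ≤
      ENNReal.ofReal ((R ^ (5 / 2 : ℝ)) ^ (2 / 3 : ℝ) * r ^ (-(n : ℝ) / 3)) := by
    calc (∫⁻ s, ‖K n R (max r s)‖ₑ ^ (3 / 2 : ℝ) ∂(wm n R)) ^ (1 / (3 / 2) : ℝ)
        ≤ (ENNReal.ofReal (R ^ (5 / 2 : ℝ) * r ^ (-(n : ℝ) / 2))) ^ (1 / (3 / 2) : ℝ) :=
          ENNReal.rpow_le_rpow (ker_lint n hr) (by norm_num)
      _ = ENNReal.ofReal ((R ^ (5 / 2 : ℝ) * r ^ (-(n : ℝ) / 2)) ^ (1 / (3 / 2) : ℝ)) :=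
          ENNReal.ofReal_rpow_of_nonneg (by positivity) (by norm_num)
      _ = _ := by
          congr 1
          rw [Real.mul_rpow (by positivity) (by positivity), ← Real.rpow_mul hr0.le]
          congr 2
          · norm_num
          · ring
  have k2 : (ENNReal.ofReal (∫ s, |g s| ^ 3 ∂(wm n R))) ^ (1 / 3 : ℝ) =
      ENNReal.ofReal ((∫ s, |g s| ^ 3 ∂(wm n R)) ^ (1 / 3 : ℝ)) :=
    ENNReal.ofReal_rpow_of_nonneg hI0 (by norm_num)
  rw [k2]
  refine (mul_le_mul_left k1 _).trans (le_of_eq ?_)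
  rw [← ENNReal.ofReal_mul (by positivity)]
  congr 1
  ring

theorem FF_eq (n : ℕ) (R : ℝ) (g : ℝ → ℝ) (r : ℝ) :
    FF n R g r = - ∫ s, K n R (max r s) * g s ∂(wm n R) := by
  unfold FF
  congr 1
  refine integral_congr_ae ?_
  filter_upwards [wm_mem n R] with s hs
  rw [K_eq (lt_max_of_lt_right hs.1)]

theorem Kg_int {n : ℕ} {R : ℝ} (hR : 0 < R) {g : ℝ → ℝ} (hg : MemLp g 3 (wm n R)) {r : ℝ}
    (hr : r ∈ Ioo (0 : ℝ) R) : Integrable (fun s => K n R (max r s) * g s) (wm n R) := by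
  refine ⟨(((K_meas n hR).comp (measurable_const.max measurable_id)).aestronglyMeasurable).mul
    hg.aestronglyMeasurable, ?_⟩
  exact lt_of_le_of_lt (hold hR hg hr) ENNReal.ofReal_lt_top

theorem wt_lint (n : ℕ) {R c : ℝ} (hc : 0 ≤ c) :
    ∫⁻ r, ENNReal.ofReal (c * r ^ (-(n : ℝ) / 3)) ^ (3 : ℝ) ∂(wm n R) < ⊤ := by
  refine lt_of_le_of_lt (wm_le_const n R _ (ENNReal.ofReal (c ^ 3)) fun r hr => ?_)
    (ENNReal.mul_lt_top ENNReal.ofReal_lt_top ENNReal.ofReal_lt_top)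
  have hr0 : 0 < r := hr.1
  rw [ENNReal.ofReal_rpow_of_nonneg (by positivity) (by norm_num),
    ← ENNReal.ofReal_mul (by positivity)]
  refine ENNReal.ofReal_le_ofReal (le_of_eq ?_)
  have h1 : (c * r ^ (-(n : ℝ) / 3)) ^ (3 : ℝ) = c ^ 3 * (r ^ n)⁻¹ := by
    rw [Real.mul_rpow hc (by positivity), ← Real.rpow_mul hr0.le]
    congr 1
    · exact_mod_cast Real.rpow_natCast c 3
    · rw [div_mul_cancel₀ _ (by norm_num), Real.rpow_neg hr0.le, Real.rpow_natCast]
  rw [h1]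
  have h2 : r ^ n ≠ 0 := by positivity
  field_simp

theorem bd {n : ℕ} {R : ℝ} (hR : 0 < R) {g : ℝ → ℝ} (hg : MemLp g 3 (wm n R)) {r : ℝ}
    (hr : r ∈ Ioo (0 : ℝ) R) :
    ‖FF n R g r‖ₑ ≤ ENNReal.ofReal
      ((R ^ (5 / 2 : ℝ)) ^ (2 / 3 : ℝ) * (∫ s, |g s| ^ 3 ∂(wm n R)) ^ (1 / 3 : ℝ) *
        r ^ (-(n : ℝ) / 3)) := by
  rw [FF_eq, enorm_neg]
  exact (enorm_integral_le_lintegral_enorm _).trans (hold hR hg hr)

theorem FF_meas {n : ℕ} {R : ℝ} (hR : 0 < R) {g : ℝ → ℝ}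
    (hg : AEStronglyMeasurable g (wm n R)) : AEStronglyMeasurable (FF n R g) (wm n R) := by
  have hf := wm_fin n R
  have e : FF n R g = fun r => - ∫ s, K n R (max r s) * hg.mk g s ∂(wm n R) := by
    funext r
    rw [FF_eq]
    congr 1
    refine integral_congr_ae ?_
    filter_upwards [hg.ae_eq_mk] with s hs
    rw [hs]
  rw [e]
  have h1 : StronglyMeasurable (fun z : ℝ × ℝ => K n R (max z.1 z.2) * hg.mk g z.2) :=
    (((K_meas n hR).comp (measurable_fst.max measurable_snd)).mul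
      (hg.stronglyMeasurable_mk.measurable.comp measurable_snd)).stronglyMeasurable
  exact (h1.integral_prod_right').neg.aestronglyMeasurable

theorem prod_int {n : ℕ} {R : ℝ} (hR : 0 < R) {g q : ℝ → ℝ} (hg : MemLp g 3 (wm n R))
    (hq : MemLp q (3 / 2) (wm n R)) :
    Integrable (fun z : ℝ × ℝ => q z.1 * (K n R (max z.1 z.2) * g z.2))
      ((wm n R).prod (wm n R)) := by
  have hf := wm_fin n R
  have hm : AEStronglyMeasurable (fun z : ℝ × ℝ => q z.1 * (K n R (max z.1 z.2) * g z.2))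
      ((wm n R).prod (wm n R)) :=
    hq.aestronglyMeasurable.comp_fst.mul
      ((((K_meas n hR).comp (measurable_fst.max measurable_snd)).aestronglyMeasurable).mul
        hg.aestronglyMeasurable.comp_snd)
  refine ⟨hm, ?_⟩
  unfold HasFiniteIntegral
  rw [lintegral_prod _ hm.enorm]
  obtain ⟨c, hc⟩ : ∃ c : ℝ, c = (R ^ (5 / 2 : ℝ)) ^ (2 / 3 : ℝ) *
    (∫ s, |g s| ^ 3 ∂(wm n R)) ^ (1 / 3 : ℝ) := ⟨_, rfl⟩
  have hc0 : 0 ≤ c := by
    rw [hc]
    have hI0 : 0 ≤ ∫ s, |g s| ^ 3 ∂(wm n R) := integral_nonneg fun s => by positivity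
    positivity
  have hcj : (3 / 2 : ℝ).HolderConjugate 3 := by
    rw [Real.holderConjugate_iff]
    norm_num
  calc ∫⁻ r, ∫⁻ s, ‖q r * (K n R (max r s) * g s)‖ₑ ∂(wm n R) ∂(wm n R)
      ≤ ∫⁻ r, ‖q r‖ₑ * ENNReal.ofReal (c * r ^ (-(n : ℝ) / 3)) ∂(wm n R) := by
        refine lintegral_mono_ae ?_
        filter_upwards [wm_mem n R] with r hr
        have e : ∫⁻ s, ‖q r * (K n R (max r s) * g s)‖ₑ ∂(wm n R) =
            ‖q r‖ₑ * ∫⁻ s, ‖K n R (max r s) * g s‖ₑ ∂(wm n R) := by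
          rw [← lintegral_const_mul' _ _ enorm_ne_top]
          refine lintegral_congr fun s => ?_
          rw [enorm_mul]
        rw [e, hc]
        gcongr
        exact hold hR hg hr
    _ ≤ (∫⁻ r, ‖q r‖ₑ ^ (3 / 2 : ℝ) ∂(wm n R)) ^ (1 / (3 / 2) : ℝ) *
        (∫⁻ r, ENNReal.ofReal (c * r ^ (-(n : ℝ) / 3)) ^ (3 : ℝ) ∂(wm n R)) ^ (1 / 3 : ℝ) := by
        refine ENNReal.lintegral_mul_le_Lp_mul_Lq (wm n R) hcj
          (f := fun r => ‖q r‖ₑ) (g := fun r => ENNReal.ofReal (c * r ^ (-(n : ℝ) / 3)))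
          hq.aestronglyMeasurable.enorm ?_
        exact (by fun_prop : Measurable fun r : ℝ =>
          ENNReal.ofReal (c * r ^ (-(n : ℝ) / 3))).aemeasurable
    _ < ⊤ := by
        refine ENNReal.mul_lt_top ?_ ?_
        · refine ENNReal.rpow_lt_top_of_nonneg (by norm_num) (ne_of_lt ?_)
          have h := (eLpNorm_lt_top_iff_lintegral_rpow_enorm_lt_top (p := 3 / 2) (by norm_num)
            (by finiteness)).1 hq.2
          have e : (3 / 2 : ℝ≥0∞).toReal = 3 / 2 := by simp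
          rw [e] at h
          exact h
        · exact ENNReal.rpow_lt_top_of_nonneg (by norm_num) (wt_lint n hc0).ne

theorem sym {n : ℕ} {R : ℝ} (hR : 0 < R) {g q : ℝ → ℝ} (hg : MemLp g 3 (wm n R))
    (hq : MemLp q (3 / 2) (wm n R)) :
    Integrable (fun s => g s * FF n R q s) (wm n R) ∧
    ∫ s, FF n R g s * q s ∂(wm n R) = ∫ s, g s * FF n R q s ∂(wm n R) := by
  have hf := wm_fin n R
  have hI := prod_int hR hg hq
  have e1 : ∀ s, ∫ r, q r * (K n R (max r s) * g s) ∂(wm n R) = -(g s * FF n R q s) := by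
    intro s
    rw [FF_eq, mul_neg, neg_neg, ← integral_const_mul]
    refine integral_congr_ae (Filter.Eventually.of_forall fun r => ?_)
    simp only
    rw [max_comm s r]
    ring
  have e2 : ∀ r, ∫ s, q r * (K n R (max r s) * g s) ∂(wm n R) = -(FF n R g r * q r) := by
    intro r
    rw [FF_eq, neg_mul, neg_neg, integral_const_mul, mul_comm]
  constructor
  · have h := hI.integral_prod_right
    simp only [e1] at h
    have h' := h.neg
    refine h'.congr (Filter.Eventually.of_forall fun s => ?_)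
    simp
  · have h1 := integral_prod _ hI
    have h2 := integral_prod_symm _ hI
    rw [h1] at h2
    simp only [e1, e2] at h2
    rw [integral_neg, integral_neg] at h2
    exact neg_injective h2

end KerAux

open KerAux in
theorem kerP : KerP := by
  intro n R hR
  have hf := wm_fin n R
  refine ⟨⟨(R ^ (5 / 2 : ℝ)) ^ (2 / 3 : ℝ), by positivity, fun g hg r hr => ?_⟩, fun g hg => ?_,
    fun g g' t hg hg' r hr => ?_, fun g q hg hq => ⟨?_, (sym hR hg hq).1, (sym hR hg hq).2⟩⟩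
  · have h := bd hR hg hr
    rw [Real.enorm_eq_ofReal_abs] at h
    have hI0 : 0 ≤ ∫ s, |g s| ^ 3 ∂(wm n R) := integral_nonneg fun s => by positivity
    have hr0 : 0 < r := hr.1
    exact (ENNReal.ofReal_le_ofReal_iff (by positivity)).1 h
  · refine ⟨FF_meas hR hg.aestronglyMeasurable, ?_⟩
    rw [eLpNorm_lt_top_iff_lintegral_rpow_enorm_lt_top (by norm_num) (by norm_num)]
    have e : (3 : ENNReal).toReal = 3 := by simp
    rw [e]
    have hI0 : 0 ≤ ∫ s, |g s| ^ 3 ∂(wm n R) := integral_nonneg fun s => by positivity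
    refine lt_of_le_of_lt (lintegral_mono_ae ?_) (wt_lint n (R := R)
      (c := (R ^ (5 / 2 : ℝ)) ^ (2 / 3 : ℝ) * (∫ s, |g s| ^ 3 ∂(wm n R)) ^ (1 / 3 : ℝ))
      (by positivity))
    filter_upwards [wm_mem n R] with r hr
    exact ENNReal.rpow_le_rpow (bd hR hg hr) (by norm_num)
  · rw [FF_eq, FF_eq, FF_eq]
    have e : ∫ s, K n R (max r s) * (g s + t * g' s) ∂(wm n R) =
        (∫ s, K n R (max r s) * g s ∂(wm n R)) + t * ∫ s, K n R (max r s) * g' s ∂(wm n R) := by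
      rw [← integral_const_mul, ← integral_add (Kg_int hR hg hr) ((Kg_int hR hg' hr).const_mul t)]
      refine integral_congr_ae (Filter.Eventually.of_forall fun s => ?_)
      simp only
      ring
    rw [e]
    ring
  · have h := (sym hR (memLp_const (1 : ℝ)) hq).1
    simpa using h

end Pool.Agent.R525.FP
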