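import Pool.Agent.R525.FP.Stm

/-! # FP-LOC (helper711): from `Sol` to `Loc`. -/

set_option autoImplicit false

open MeasureTheory Set

namespace Pool.Agent.R525.FP

namespace LoccAux

variable {n : ℕ} {R a b : ℝ} {F : ℝ → ℝ}

theorem integrand_cont (hF : ContinuousOn F (Icc 0 R)) :
    ContinuousOn (fun s => F s * s ^ n) (Icc 0 R) :=
  hF.mul (continuous_pow n).continuousOn

theorem prim_deriv (hF : ContinuousOn F (Icc 0 R)) {r : ℝ} (h0 : 0 < r) (hR : r < R) :
    HasDerivAt (fun r => ∫ s in (0 : ℝ)..r, F s * s ^ n) (F r * r ^ n) r := by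
  have hk := integrand_cont (n := n) hF
  have hi : IntervalIntegrable (fun s => F s * s ^ n) volume 0 r := by
    refine (hk.mono ?_).intervalIntegrable
    rw [uIcc_of_le h0.le]
    exact Icc_subset_Icc le_rfl hR.le
  have ho : ContinuousOn (fun s => F s * s ^ n) (Ioo 0 R) := hk.mono Ioo_subset_Icc_self
  exact intervalIntegral.integral_hasDerivAt_right hi
    (ho.stronglyMeasurableAtFilter isOpen_Ioo r ⟨h0, hR⟩)
    (ho.continuousAt (isOpen_Ioo.mem_nhds ⟨h0, hR⟩))

theorem quot_cont (hF : ContinuousOn F (Icc 0 R)) (h0 : 0 < a) (hab : a < b) (hR : b ≤ R) :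
    ContinuousOn (fun r => (r ^ n)⁻¹ * ∫ s in (0 : ℝ)..r, F s * s ^ n) (Icc a b) := by
  have hk := integrand_cont (n := n) hF
  have h0R : (0 : ℝ) ≤ R := by linarith
  have h1 : ContinuousOn (fun r => ∫ s in (0 : ℝ)..r, F s * s ^ n) (Icc 0 R) := by
    have h2 := intervalIntegral.continuousOn_primitive_interval (μ := volume) (a := 0) (b := R)
      (f := fun s => F s * s ^ n) (by
        rw [uIcc_of_le h0R]
        exact hk.integrableOn_compact isCompact_Icc)
    rwa [uIcc_of_le h0R] at h2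
  refine ContinuousOn.mul (ContinuousOn.inv₀ (continuous_pow n).continuousOn fun r hr => ?_)
    (h1.mono (Icc_subset_Icc h0.le hR))
  exact pow_ne_zero n (h0.trans_le hr.1).ne'

theorem quot_deriv (hF : ContinuousOn F (Icc 0 R)) {r : ℝ} (h0 : 0 < r) (hR : r < R) :
    HasDerivAt (fun r => (r ^ n)⁻¹ * ∫ s in (0 : ℝ)..r, F s * s ^ n)
      (F r - n / r * ((r ^ n)⁻¹ * ∫ s in (0 : ℝ)..r, F s * s ^ n)) r := by
  have hr : r ≠ 0 := h0.ne'
  have h1 := ((hasDerivAt_pow n r).inv (pow_ne_zero n hr)).mul (prim_deriv (n := n) hF h0 hR)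
  refine h1.congr_deriv ?_
  simp only [Pi.inv_apply]
  generalize (∫ s in (0 : ℝ)..r, F s * s ^ n) = G
  rcases n with _ | n
  · simp
  · rw [Nat.add_sub_cancel]
    push_cast
    field_simp
    ring

end LoccAux

open LoccAux in
theorem locP : LocP := by
  intro n R μ a b f g h hs h0 hab hR
  have hF : ContinuousOn (fun s => f s ^ 2 / μ - 2 / 3 * f s) (Icc 0 R) :=
    ((hs.cf.pow 2).div_const μ).sub (continuousOn_const.mul hs.cf)
  have hsub : Icc a b ⊆ Icc 0 R := Icc_subset_Icc h0.le hR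
  exact
    { cf := hs.cf.mono hsub
      cf1 := quot_cont hs.cg h0 hab hR
      cg := hs.cg.mono hsub
      ch := hs.ch.mono hsub
      ch1 := quot_cont hF h0 hab hR
      hg := fun r hr => hs.hg r (hsub hr)
      df := fun r hr => hs.df r ⟨h0.trans hr.1, hr.2.trans_le hR⟩
      df1 := fun r hr => quot_deriv hs.cg (h0.trans hr.1) (hr.2.trans_le hR)
      dh := fun r hr => hs.dh r ⟨h0.trans hr.1, hr.2.trans_le hR⟩
      dh1 := fun r hr => quot_deriv hF (h0.trans hr.1) (hr.2.trans_le hR) }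

end Pool.Agent.R525.FP
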