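import Pool.Agent.R525.FP.Stm

/-! # FP-MAX: existence of a maximiser -/

set_option autoImplicit false

open MeasureTheory Set Filter Topology
open scoped RealInnerProductSpace ENNReal

namespace Pool.Agent.R525.FP

namespace MaxAux

theorem exists_weak_subseq {X : Type*} [NormedAddCommGroup X] [InnerProductSpace ℝ X]
    [CompleteSpace X] [TopologicalSpace.SeparableSpace X] (y : ℕ → X) {R : ℝ}
    (hR : ∀ n, ‖y n‖ ≤ R) :
    ∃ (z : X) (ns : ℕ → ℕ), StrictMono ns ∧
      ∀ w, Tendsto (fun k => ⟪y (ns k), w⟫) atTop (𝓝 ⟪z, w⟫) := by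
  have h := WeakDual.isSeqCompact_closedBall ℝ X (0 : StrongDual ℝ X) R
  have hx : ∀ n, StrongDual.toWeakDual (InnerProductSpace.toDual ℝ X (y n)) ∈
      WeakDual.toStrongDual ⁻¹' Metric.closedBall (0 : StrongDual ℝ X) R := by
    intro n
    have := hR n
    simpa using this
  obtain ⟨f, _, ns, hns, hf⟩ := h hx
  refine ⟨(InnerProductSpace.toDual ℝ X).symm (WeakDual.toStrongDual f), ns, hns, fun w => ?_⟩
  have h2 := ((WeakBilin.eval_continuous _ w).tendsto f).comp hf
  rw [InnerProductSpace.toDual_symm_apply]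
  exact h2

instance fin (n : ℕ) (R : ℝ) : IsFiniteMeasure (wm n R) := by
  unfold wm
  refine isFiniteMeasure_withDensity (lt_of_le_of_lt (b :=
    ∫⁻ _ in Ioo 0 R, ENNReal.ofReal (R ^ n)) ?_ ?_).ne
  · refine setLIntegral_mono' measurableSet_Ioo fun r hr => ?_
    exact ENNReal.ofReal_le_ofReal (pow_le_pow_left₀ hr.1.le hr.2.le n)
  · rw [setLIntegral_const]
    exact ENNReal.mul_lt_top ENNReal.ofReal_lt_top (by simp)

lemma ae_mem (n : ℕ) (R : ℝ) : ∀ᵐ s ∂(wm n R), s ∈ Ioo 0 R := by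
  unfold wm
  exact (withDensity_absolutelyContinuous _ _).ae_le (ae_restrict_mem measurableSet_Ioo)

/-- the dominating function -/
noncomputable def dm (n : ℕ) (r : ℝ) : ℝ := r ^ (-(n : ℝ) / 3)

lemma dm_meas (n : ℕ) : Measurable (dm n) := by unfold dm; fun_prop

lemma dm_cube (n : ℕ) {r : ℝ} (hr : 0 < r) : (dm n r) ^ 3 = (r ^ n)⁻¹ := by
  unfold dm
  rw [← Real.rpow_natCast, ← Real.rpow_mul hr.le]
  have : -(n : ℝ) / 3 * ((3 : ℕ) : ℝ) = -(n : ℝ) := by push_cast; ring
  rw [this, Real.rpow_neg hr.le, Real.rpow_natCast]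

lemma dm_int3 (n : ℕ) (R : ℝ) : Integrable (fun r => (dm n r) ^ 3) (wm n R) := by
  unfold wm
  rw [integrable_withDensity_iff_integrable_smul' (by fun_prop) (by simp)]
  have h : IntegrableOn (fun _ : ℝ => (1 : ℝ)) (Ioo 0 R) := integrableOn_const (by simp)
  refine h.congr_fun (fun r hr => ?_) measurableSet_Ioo
  have hr0 : 0 < r := hr.1
  rw [dm_cube n hr0, ENNReal.toReal_ofReal (by positivity), smul_eq_mul]
  field_simp

lemma dm_int2 (n : ℕ) (R : ℝ) : Integrable (fun r => (dm n r) ^ 2) (wm n R) := by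
  refine ((integrable_const (1 : ℝ)).add (dm_int3 n R)).mono' (by
    have := dm_meas n; fun_prop) ?_
  filter_upwards [ae_mem n R] with r hr
  have h0 : 0 ≤ dm n r := Real.rpow_nonneg hr.1.le _
  rw [Real.norm_of_nonneg (by positivity)]
  simp only [Pi.add_apply]
  nlinarith [sq_nonneg (dm n r - 1), mul_nonneg h0 h0, sq_nonneg (dm n r)]

/-- continuity of the kernel -/
lemma kk_cont (n : ℕ) (R r : ℝ) (hr : 0 < r) (hrR : r ≤ R) :
    Continuous (fun s => kk n R (max r s)) := by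
  have hq : Continuous (fun u : ℝ => ((max r u) ^ n)⁻¹) :=
    Continuous.inv₀ (by fun_prop) (fun u => pow_ne_zero n (lt_of_lt_of_le hr (le_max_left _ _)).ne')
  have h1 : ∀ s, kk n R (max r s) = - ∫ u in R..(max r s), ((max r u) ^ n)⁻¹ := by
    intro s
    unfold kk
    rw [intervalIntegral.integral_symm, neg_inj]
    refine intervalIntegral.integral_congr fun u hu => ?_
    have : r ≤ u := by
      rw [mem_uIcc] at hu
      rcases hu with h | h
      · exact hrR.trans h.1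
      · exact (le_max_left _ _).trans h.1
    simp only [max_eq_right this]
  simp_rw [h1]
  have h2 : Continuous (fun x => ∫ u in R..x, ((max r u) ^ n)⁻¹) :=
    intervalIntegral.continuous_primitive (fun a b => hq.intervalIntegrable a b) R
  exact (h2.comp (continuous_const.max continuous_id)).neg

lemma memLp_cont (n : ℕ) (R : ℝ) (f : ℝ → ℝ) (hf : Continuous f) (p : ℝ≥0∞) :
    MemLp f p (wm n R) := by
  obtain ⟨B, hB⟩ := (isCompact_Icc (a := (0 : ℝ)) (b := R)).exists_bound_of_continuousOn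
    hf.continuousOn
  refine MemLp.of_bound hf.aestronglyMeasurable B ?_
  filter_upwards [ae_mem n R] with s hs
  exact hB s ⟨hs.1.le, hs.2.le⟩

lemma convex3 (a b : ℝ) : 3 * (|a| * a) * b - 2 * |a| ^ 3 ≤ |b| ^ 3 := by
  have h1 : (|a| * a) * b ≤ |a| ^ 2 * |b| := by
    calc (|a| * a) * b = |a| * (a * b) := by ring
      _ ≤ |a| * |a * b| := mul_le_mul_of_nonneg_left (le_abs_self _) (abs_nonneg _)
      _ = |a| ^ 2 * |b| := by rw [abs_mul]; ring
  have h2 : 0 ≤ (|b| - |a|) ^ 2 * (|b| + 2 * |a|) :=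
    mul_nonneg (sq_nonneg _) (by positivity)
  nlinarith

lemma int3 {n : ℕ} {R : ℝ} {g : ℝ → ℝ} (h : MemLp g 3 (wm n R)) :
    Integrable (fun s => |g s| ^ 3) (wm n R) := by
  have := h.integrable_norm_pow (by norm_num)
  simpa [Real.norm_eq_abs] using this

lemma memLp2 {n : ℕ} {R : ℝ} {g : ℝ → ℝ} (h : MemLp g 3 (wm n R)) : MemLp g 2 (wm n R) :=
  h.mono_exponent (by norm_num)

lemma inner_toLp {n : ℕ} {R : ℝ} {f g : ℝ → ℝ} (hf : MemLp f 2 (wm n R))
    (hg : MemLp g 2 (wm n R)) :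
    ⟪hf.toLp f, hg.toLp g⟫ = ∫ x, f x * g x ∂(wm n R) := by
  rw [L2.inner_def]
  apply integral_congr_ae
  filter_upwards [hf.coeFn_toLp, hg.coeFn_toLp] with x h1 h2
  rw [h1, h2]
  simp [mul_comm]

/-- truncation -/
noncomputable def tr (z : ℝ → ℝ) (m : ℕ) (s : ℝ) : ℝ := if |z s| ≤ m then z s else 0

lemma tr_meas {z : ℝ → ℝ} (hz : Measurable z) (m : ℕ) : Measurable (tr z m) := by
  unfold tr
  exact Measurable.ite (measurableSet_le hz.abs measurable_const) hz measurable_const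

lemma tr_le (z : ℝ → ℝ) (m : ℕ) (s : ℝ) : |tr z m s| ≤ m := by
  unfold tr
  split_ifs with h
  · exact h
  · simp

lemma tr_mono (z : ℝ → ℝ) (s : ℝ) {m m' : ℕ} (h : m ≤ m') : |tr z m s| ≤ |tr z m' s| := by
  unfold tr
  have hm : (m : ℝ) ≤ m' := by exact_mod_cast h
  by_cases h1 : |z s| ≤ m
  · rw [if_pos h1, if_pos (h1.trans hm)]
  · rw [if_neg h1, abs_zero]; exact abs_nonneg _

lemma tr_mul (z : ℝ → ℝ) (m : ℕ) (s : ℝ) :
    z s * (|tr z m s| * tr z m s) = |tr z m s| ^ 3 := by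
  unfold tr
  split_ifs with h
  · rw [pow_succ, sq_abs]
    ring
  · simp

end MaxAux

open MaxAux in
theorem maxP (h1 : KerP) (_h2 : ItP) : MaxP := by
  intro n R hR
  obtain ⟨⟨C, hC0, hC⟩, hK2, -, -⟩ := h1 n R hR
  -- bounds
  have hA1 : ∀ g, JJ n R g ≤ 1 → ∫ s, |g s| ^ 3 ∂(wm n R) ≤ 1 := by
    intro g hg
    unfold JJ at hg
    have : 0 ≤ ∫ s, (FF n R g s) ^ 2 ∂(wm n R) := integral_nonneg fun s => sq_nonneg _
    linarith
  have hF : ∀ g, Adm n R g → JJ n R g ≤ 1 → ∀ r ∈ Ioo (0 : ℝ) R, |FF n R g r| ≤ C * dm n r := by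
    intro g hg hJ r hr
    refine (hC g hg.1 r hr).trans ?_
    have h3 := hA1 g hJ
    have h4 : 0 ≤ ∫ s, |g s| ^ 3 ∂(wm n R) := integral_nonneg fun s => by positivity
    have h5 : (∫ s, |g s| ^ 3 ∂(wm n R)) ^ (1 / 3 : ℝ) ≤ 1 :=
      Real.rpow_le_one h4 h3 (by norm_num)
    have h6 : 0 ≤ dm n r := Real.rpow_nonneg hr.1.le _
    calc C * (∫ s, |g s| ^ 3 ∂(wm n R)) ^ (1 / 3 : ℝ) * r ^ (-(n : ℝ) / 3)
        ≤ C * 1 * r ^ (-(n : ℝ) / 3) :=
          mul_le_mul_of_nonneg_right (mul_le_mul_of_nonneg_left h5 hC0) h6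
      _ = C * dm n r := by rw [mul_one]; rfl
  have hi2 : Integrable (fun r => (C * dm n r) ^ 2) (wm n R) := by
    have := (dm_int2 n R).const_mul (C ^ 2)
    refine this.congr (Eventually.of_forall fun r => ?_)
    simp only [mul_pow]
  have hi3 : Integrable (fun r => (C * dm n r) ^ 3) (wm n R) := by
    have := (dm_int3 n R).const_mul (C ^ 3)
    refine this.congr (Eventually.of_forall fun r => ?_)
    simp only [mul_pow]
  have hb2 : ∀ g, Adm n R g → JJ n R g ≤ 1 → ∀ᵐ r ∂(wm n R),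
      ‖(FF n R g r) ^ 2‖ ≤ (C * dm n r) ^ 2 := by
    intro g hg hJ
    filter_upwards [ae_mem n R] with r hr
    rw [norm_pow, Real.norm_eq_abs]
    exact pow_le_pow_left₀ (abs_nonneg _) (hF g hg hJ r hr) 2
  have hb3 : ∀ g, Adm n R g → JJ n R g ≤ 1 → ∀ᵐ r ∂(wm n R),
      ‖(FF n R g r) ^ 3‖ ≤ (C * dm n r) ^ 3 := by
    intro g hg hJ
    filter_upwards [ae_mem n R] with r hr
    rw [norm_pow, Real.norm_eq_abs]
    exact pow_le_pow_left₀ (abs_nonneg _) (hF g hg hJ r hr) 3
  -- the supremum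
  set S : Set ℝ := {v | ∃ g, Adm n R g ∧ JJ n R g ≤ 1 ∧ v = Phi n R g} with hS
  have hSne : S.Nonempty := by
    refine ⟨Phi n R (fun _ => 0), fun _ => 0, ⟨?_, ?_⟩, ?_, rfl⟩
    · exact MemLp.zero'
    · simp
    · have hz : ∀ r, FF n R (fun _ => 0) r = 0 := by intro r; unfold FF; simp
      unfold JJ
      simp [hz]
  have hSb : BddAbove S := by
    refine ⟨∫ r, (C * dm n r) ^ 3 ∂(wm n R), ?_⟩
    rintro v ⟨g, hg, hJ, rfl⟩
    exact (le_abs_self _).trans (norm_integral_le_of_norm_le hi3 (hb3 g hg hJ))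
  obtain ⟨u, -, hu, huS⟩ := exists_seq_tendsto_sSup hSne hSb
  choose g hgA hgJ hgu using huS
  -- weak limit
  have hgm : ∀ k, MemLp (g k) 2 (wm n R) := fun k => memLp2 (hgA k).1
  have hnorm : ∀ k, ‖(hgm k).toLp (g k)‖ ≤ (wm n R).real univ + 2 := by
    intro k
    have h3 : ‖(hgm k).toLp (g k)‖ ^ 2 = ∫ x, g k x * g k x ∂(wm n R) := by
      rw [← real_inner_self_eq_norm_sq, inner_toLp]
    have h4 : ∫ x, g k x * g k x ∂(wm n R) ≤ ∫ x, (1 + |g k x| ^ 3) ∂(wm n R) := by
      refine integral_mono_of_nonneg (Eventually.of_forall fun x => mul_self_nonneg _)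
        ((integrable_const _).add (int3 (hgA k).1)) (Eventually.of_forall fun x => ?_)
      simp only
      rw [← abs_mul_abs_self]
      have h0 := abs_nonneg (g k x)
      nlinarith [sq_nonneg (|g k x| - 1), mul_nonneg h0 h0]
    rw [integral_add (integrable_const _) (int3 (hgA k).1)] at h4
    have h5 := hA1 _ (hgJ k)
    have h6 : ∫ _, (1 : ℝ) ∂(wm n R) = (wm n R).real univ := by simp
    rw [h6] at h4
    have h7 : 0 ≤ (wm n R).real univ := measureReal_nonneg
    have h8 := norm_nonneg ((hgm k).toLp (g k))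
    nlinarith
  have : Fact ((2 : ℝ≥0∞) ≠ ⊤) := ⟨by simp⟩
  have : SecondCountableTopology (Lp ℝ 2 (wm n R)) := Lp.SecondCountableTopology
  obtain ⟨z, ns, hns, hz⟩ := exists_weak_subseq (fun k => (hgm k).toLp (g k)) hnorm
  have hz2 : MemLp z 2 (wm n R) := Lp.memLp z
  have hW : ∀ φ : ℝ → ℝ, MemLp φ 2 (wm n R) →
      Tendsto (fun k => ∫ s, g (ns k) s * φ s ∂(wm n R)) atTop
        (𝓝 (∫ s, z s * φ s ∂(wm n R))) := by
    intro φ hφ
    have h3 := hz (hφ.toLp φ)
    have h4 : z = hz2.toLp z := (Lp.toLp_coeFn z hz2).symm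
    rw [h4, inner_toLp hz2 hφ] at h3
    refine h3.congr fun k => ?_
    exact inner_toLp (hgm (ns k)) hφ
  have hz0 : ∫ s, z s ∂(wm n R) = 0 := by
    have h3 := hW (fun _ => 1) (memLp_const _)
    simp only [mul_one] at h3
    have h4 : (fun k => ∫ s, g (ns k) s ∂(wm n R)) = fun _ => 0 := funext fun k => (hgA (ns k)).2
    rw [h4] at h3
    exact (tendsto_nhds_unique h3 tendsto_const_nhds)
  have hFl : ∀ r ∈ Ioo (0 : ℝ) R, Tendsto (fun k => FF n R (g (ns k)) r) atTop
      (𝓝 (FF n R z r)) := by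
    intro r hr
    have h3 := hW (fun s => kk n R (max r s))
      (memLp_cont n R _ (kk_cont n R r hr.1 hr.2.le) 2)
    have h4 := h3.neg
    unfold FF
    simpa only [mul_comm] using h4
  have hT2 : Tendsto (fun k => ∫ s, (FF n R (g (ns k)) s) ^ 2 ∂(wm n R)) atTop
      (𝓝 (∫ s, (FF n R z s) ^ 2 ∂(wm n R))) := by
    refine tendsto_integral_of_dominated_convergence _
      (fun k => ((hK2 _ (hgA (ns k)).1).1.pow 2)) hi2
      (fun k => hb2 _ (hgA _) (hgJ _)) ?_
    filter_upwards [ae_mem n R] with r hr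
    exact (hFl r hr).pow 2
  have hT3 : Tendsto (fun k => ∫ s, (FF n R (g (ns k)) s) ^ 3 ∂(wm n R)) atTop
      (𝓝 (∫ s, (FF n R z s) ^ 3 ∂(wm n R))) := by
    refine tendsto_integral_of_dominated_convergence _
      (fun k => ((hK2 _ (hgA (ns k)).1).1.pow 3)) hi3
      (fun k => hb3 _ (hgA _) (hgJ _)) ?_
    filter_upwards [ae_mem n R] with r hr
    exact (hFl r hr).pow 3
  -- truncations
  have hzm : Measurable (z : ℝ → ℝ) := (Lp.stronglyMeasurable z).measurable
  set Q : ℝ := 1 - ∫ s, (FF n R z s) ^ 2 ∂(wm n R) with hQ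
  have htr3 : ∀ m, Integrable (fun s => |tr z m s| ^ 3) (wm n R) := by
    intro m
    refine (integrable_const ((m : ℝ) ^ 3)).mono' ((tr_meas hzm m).abs.pow_const 3).aestronglyMeasurable
      (Eventually.of_forall fun s => ?_)
    rw [Real.norm_of_nonneg (by positivity)]
    exact pow_le_pow_left₀ (abs_nonneg _) (tr_le z m s) 3
  have htrm : ∀ m, MemLp (fun s => |tr z m s| * tr z m s) 2 (wm n R) := by
    intro m
    refine MemLp.of_bound ((tr_meas hzm m).abs.mul (tr_meas hzm m)).aestronglyMeasurable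
      ((m : ℝ) * m) (Eventually.of_forall fun s => ?_)
    rw [Real.norm_eq_abs, abs_mul, abs_abs]
    exact mul_le_mul (tr_le z m s) (tr_le z m s) (abs_nonneg _) (Nat.cast_nonneg _)
  have hcut : ∀ m, ∫ s, |tr z m s| ^ 3 ∂(wm n R) ≤ Q := by
    intro m
    have h3 := ((hW _ (htrm m)).const_mul 3).sub
      (tendsto_const_nhds (x := 2 * ∫ s, |tr z m s| ^ 3 ∂(wm n R)))
    have h4 := h3.add hT2
    have h5 : ∫ s, z s * (|tr z m s| * tr z m s) ∂(wm n R) =
        ∫ s, |tr z m s| ^ 3 ∂(wm n R) :=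
      integral_congr_ae (Eventually.of_forall fun s => tr_mul z m s)
    rw [h5] at h4
    have h6 : 3 * (∫ s, |tr z m s| ^ 3 ∂(wm n R)) - 2 * (∫ s, |tr z m s| ^ 3 ∂(wm n R)) +
        ∫ s, (FF n R z s) ^ 2 ∂(wm n R) ≤ 1 := by
      refine le_of_tendsto' h4 fun k => ?_
      refine le_trans ?_ (hgJ (ns k))
      unfold JJ
      refine add_le_add ?_ le_rfl
      have h7 : Integrable (fun s => g (ns k) s * (|tr z m s| * tr z m s)) (wm n R) :=
        (hgm (ns k)).integrable_mul (htrm m)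
      rw [← integral_const_mul, ← integral_const_mul, ← integral_sub (h7.const_mul 3)
        ((htr3 m).const_mul 2)]
      refine integral_mono ((h7.const_mul 3).sub ((htr3 m).const_mul 2)) (int3 (hgA (ns k)).1)
        fun s => ?_
      have := convex3 (tr z m s) (g (ns k) s)
      simp only
      linarith
    rw [hQ]; linarith
  have hQ0 : 0 ≤ Q := (integral_nonneg fun s => by positivity).trans (hcut 0)
  have hlin : ∫⁻ s, ENNReal.ofReal (|z s| ^ 3) ∂(wm n R) ≤ ENNReal.ofReal Q := by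
    have h3 : Tendsto (fun m : ℕ => ∫⁻ s, ENNReal.ofReal (|tr z m s| ^ 3) ∂(wm n R)) atTop
        (𝓝 (∫⁻ s, ENNReal.ofReal (|z s| ^ 3) ∂(wm n R))) := by
      refine lintegral_tendsto_of_tendsto_of_monotone (fun m => ?_)
        (Eventually.of_forall fun s => ?_) (Eventually.of_forall fun s => ?_)
      · exact ((tr_meas hzm m).abs.pow_const 3).ennreal_ofReal.aemeasurable
      · intro m m' h
        exact ENNReal.ofReal_le_ofReal (pow_le_pow_left₀ (abs_nonneg _) (tr_mono z s h) 3)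
      · refine tendsto_const_nhds.congr' ?_
        filter_upwards [eventually_ge_atTop ⌈|z s|⌉₊] with m hm
        have : |z s| ≤ m := (Nat.le_ceil _).trans (by exact_mod_cast hm)
        unfold tr
        rw [if_pos this]
    refine le_of_tendsto' h3 fun m => ?_
    rw [← ofReal_integral_eq_lintegral_ofReal (htr3 m)
      (Eventually.of_forall fun s => by positivity)]
    exact ENNReal.ofReal_le_ofReal (hcut m)
  have hz3i : Integrable (fun s => |z s| ^ 3) (wm n R) := by
    rw [← lintegral_ofReal_ne_top_iff_integrable (hzm.abs.pow_const 3).aestronglyMeasurable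
      (Eventually.of_forall fun s => by positivity)]
    exact (hlin.trans_lt ENNReal.ofReal_lt_top).ne
  have hz3 : MemLp z 3 (wm n R) := by
    rw [← integrable_norm_rpow_iff hzm.aestronglyMeasurable (by norm_num) (by norm_num)]
    refine hz3i.congr (Eventually.of_forall fun s => ?_)
    simp only [Real.norm_eq_abs]
    rw [← Real.rpow_natCast]
    norm_num
  have hz3le : ∫ s, |z s| ^ 3 ∂(wm n R) ≤ Q := by
    rw [integral_eq_lintegral_of_nonneg_ae (Eventually.of_forall fun s => by positivity)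
      (hzm.abs.pow_const 3).aestronglyMeasurable]
    exact ENNReal.toReal_le_of_le_ofReal hQ0 hlin
  refine ⟨z, ⟨hz3, hz0⟩, ?_, ?_⟩
  · unfold JJ
    rw [hQ] at hz3le
    linarith
  · intro g' hg' hJ'
    have h3 : Phi n R z = sSup S := by
      refine tendsto_nhds_unique hT3 ?_
      have h4 := hu.comp hns.tendsto_atTop
      refine h4.congr fun k => ?_
      exact hgu (ns k)
    rw [h3]
    exact le_csSup hSb ⟨g', hg', hJ', rfl⟩

end Pool.Agent.R525.FP
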