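import Pool.Agent.R525.FP.Stm

/-!
# FP-RAD: radial functions of class `C²`
-/

set_option autoImplicit false

open MeasureTheory Set Filter Topology
open scoped InnerProductSpace

namespace Pool.Agent.R525.FP

namespace RadAux

/-- the mean of `q` -/
noncomputable def mm (n : ℕ) (q : ℝ → ℝ) (r : ℝ) : ℝ := ∫ t in (0:ℝ)..1, q (r * t) * t ^ n

/-- `r m'(r)` -/
noncomputable def pp (n : ℕ) (q : ℝ → ℝ) (r : ℝ) : ℝ := q r - (n + 1) * mm n q r

variable {n : ℕ} {q u : ℝ → ℝ}

theorem mm_cont (hq : Continuous q) : Continuous (mm n q) := by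
  unfold mm
  apply intervalIntegral.continuous_parametric_intervalIntegral_of_continuous'
  unfold Function.uncurry
  fun_prop

theorem mm_eq (r : ℝ) : ∫ s in (0:ℝ)..r, q s * s ^ n = r ^ (n + 1) * mm n q r := by
  have h := intervalIntegral.mul_integral_comp_mul_left (a := (0:ℝ)) (b := 1)
    (f := fun s => q s * s ^ n) r
  rw [mul_zero, mul_one] at h
  rw [← h, pow_succ']
  unfold mm
  rw [mul_assoc, ← intervalIntegral.integral_const_mul (r ^ n)]
  congr 1
  refine intervalIntegral.integral_congr fun t _ => ?_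
  rw [mul_pow]
  ring

theorem mm_zero : (n + 1 : ℝ) * mm n q 0 = q 0 := by
  unfold mm
  simp only [zero_mul]
  rw [intervalIntegral.integral_const_mul, integral_pow]
  have : (n : ℝ) + 1 ≠ 0 := by positivity
  field_simp
  simp

theorem pp_zero : pp n q 0 = 0 := by
  unfold pp
  rw [mm_zero, sub_self]

theorem pp_cont (hq : Continuous q) : Continuous (pp n q) := by
  unfold pp
  exact hq.sub (continuous_const.mul (mm_cont hq))

theorem mm_deriv (hq : Continuous q) {r : ℝ} (hr : 0 < r) :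
    HasDerivAt (mm n q) (pp n q r / r) r := by
  have h1 : HasDerivAt (fun r => ∫ s in (0:ℝ)..r, q s * s ^ n) (q r * r ^ n) r :=
    (Continuous.integral_hasStrictDerivAt (f := fun s => q s * s ^ n) (by fun_prop) 0 r).hasDerivAt
  have h2 : HasDerivAt (fun r : ℝ => r ^ (n + 1)) ((n + 1 : ℕ) * r ^ n) r := by
    simpa using hasDerivAt_pow (n + 1) r
  have h3 := h1.div h2 (by positivity)
  have h4 : HasDerivAt (mm n q) ((q r * r ^ n * r ^ (n + 1) -
      (∫ s in (0:ℝ)..r, q s * s ^ n) * ((n + 1 : ℕ) * r ^ n)) / (r ^ (n + 1)) ^ 2) r := by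
    refine h3.congr_of_eventuallyEq ?_
    filter_upwards [lt_mem_nhds hr] with x hx
    have hx0 : x ^ (n + 1) ≠ 0 := by positivity
    rw [Pi.div_apply, mm_eq, mul_div_cancel_left₀ _ hx0]
  refine h4.congr_deriv ?_
  rw [mm_eq]
  unfold pp
  have : r ≠ 0 := hr.ne'
  push_cast
  field_simp
  ring

/-- `u(√s)`, extended to a function of class `C¹` -/
noncomputable def VV (n : ℕ) (q u : ℝ → ℝ) (s : ℝ) : ℝ :=
  u 0 + ∫ σ in (0:ℝ)..s, mm n q (√|σ|) / 2

theorem VV_deriv (hq : Continuous q) (s : ℝ) :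
    HasDerivAt (VV n q u) (mm n q (√|s|) / 2) s := by
  have h1 : Continuous (fun σ : ℝ => mm n q (√|σ|) / 2) := by
    have := mm_cont (n := n) hq
    fun_prop
  exact (h1.integral_hasStrictDerivAt 0 s).hasDerivAt.const_add (u 0)

theorem VV_eq (hu : Continuous u) (hq : Continuous q)
    (h : ∀ r, 0 < r → HasDerivAt u ((r ^ n)⁻¹ * ∫ s in (0:ℝ)..r, q s * s ^ n) r)
    {r : ℝ} (hr : 0 ≤ r) : VV n q u (r ^ 2) = u r := by
  rcases eq_or_lt_of_le hr with h0 | h0
  · rw [← h0]
    unfold VV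
    simp
  · have h1 : ∀ x, HasDerivAt (fun y => VV n q u (y ^ 2)) (mm n q (√|x ^ 2|) / 2 * (2 * x)) x := by
      intro x
      have h2 := (VV_deriv (n := n) (u := u) hq (x ^ 2)).comp x (hasDerivAt_pow 2 x)
      refine HasDerivAt.congr_deriv (f := fun y => VV n q u (y ^ 2)) h2 ?_
      push_cast
      ring
    obtain ⟨c, hc, hc2⟩ := exists_hasDerivAt_eq_slope (fun y => VV n q u (y ^ 2) - u y)
      (fun _ => 0) h0 (by
        have h3 : Continuous (fun y => VV n q u (y ^ 2)) :=
          continuous_iff_continuousAt.2 fun x => (h1 x).continuousAt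
        exact (h3.sub hu).continuousOn) (by
        rintro x ⟨hx, _⟩
        have h4 := (h1 x).sub (h x hx)
        refine HasDerivAt.congr_deriv (f := fun y => VV n q u (y ^ 2) - u y) h4 ?_
        rw [mm_eq, abs_of_nonneg (sq_nonneg x), Real.sqrt_sq hx.le]
        have : x ≠ 0 := hx.ne'
        field_simp
        ring)
    have h5 : VV n q u (r ^ 2) - u r - (VV n q u (0 ^ 2) - u 0) = 0 := by
      rw [eq_comm, div_eq_iff (by linarith)] at hc2
      rw [hc2, zero_mul]
    have h6 : VV n q u (0 ^ 2) = u 0 := by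
      unfold VV
      simp
    rw [h6] at h5
    linarith

abbrev EE (n : ℕ) := EuclideanSpace ℝ (Fin (n + 1))

/-- the gradient -/
noncomputable def GG (n : ℕ) (q : ℝ → ℝ) (x : EE n) : EE n := mm n q ‖x‖ • x

/-- its derivative -/
noncomputable def DG (n : ℕ) (q : ℝ → ℝ) (x : EE n) : EE n →L[ℝ] EE n :=
  mm n q ‖x‖ • ContinuousLinearMap.id ℝ (EE n) +
    (pp n q ‖x‖ / ‖x‖ ^ 2) • (innerSL ℝ x).smulRight x

theorem U_deriv (hu : Continuous u) (hq : Continuous q)
    (h : ∀ r, 0 < r → HasDerivAt u ((r ^ n)⁻¹ * ∫ s in (0:ℝ)..r, q s * s ^ n) r) (x : EE n) :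
    HasFDerivAt (fun x : EE n => u ‖x‖) (innerSL ℝ (GG n q x)) x := by
  have h1 : (fun x : EE n => u ‖x‖) = fun x : EE n => VV n q u (‖x‖ ^ 2) := by
    funext y
    rw [VV_eq hu hq h (norm_nonneg y)]
  rw [h1]
  have h2 := (VV_deriv (n := n) (u := u) hq (‖x‖ ^ 2)).comp_hasFDerivAt x
    (hasStrictFDerivAt_norm_sq x).hasFDerivAt
  refine HasFDerivAt.congr_fderiv (f := fun x : EE n => VV n q u (‖x‖ ^ 2)) h2 ?_
  rw [abs_of_nonneg (sq_nonneg _), Real.sqrt_sq (norm_nonneg x)]
  ext y
  unfold GG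
  simp [real_inner_smul_left]
  ring

theorem norm_deriv {x : EE n} (hx : x ≠ 0) :
    HasFDerivAt (fun y : EE n => ‖y‖) (‖x‖⁻¹ • innerSL ℝ x) x := by
  have h1 : (fun y : EE n => ‖y‖) = fun y : EE n => √(‖y‖ ^ 2) := by
    funext y
    rw [Real.sqrt_sq (norm_nonneg y)]
  have hx0 : ‖x‖ ≠ 0 := norm_ne_zero_iff.2 hx
  rw [h1]
  have h2 := (hasStrictFDerivAt_norm_sq x).hasFDerivAt.sqrt (pow_ne_zero 2 hx0)
  refine h2.congr_fderiv ?_
  rw [Real.sqrt_sq (norm_nonneg x)]
  ext y
  simp
  field_simp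

theorem G_deriv (hq : Continuous q) (x : EE n) : HasFDerivAt (GG n q) (DG n q x) x := by
  rcases eq_or_ne x 0 with rfl | hx
  · have h1 : DG n q (0 : EE n) = mm n q 0 • ContinuousLinearMap.id ℝ (EE n) := by
      unfold DG
      simp
    rw [h1]
    refine HasFDerivAt.of_isLittleO ?_
    rw [Asymptotics.isLittleO_iff]
    intro c hc
    have h2 : Tendsto (fun y : EE n => mm n q ‖y‖) (𝓝 0) (𝓝 (mm n q 0)) := by
      have h3 : Continuous (fun y : EE n => mm n q ‖y‖) := (mm_cont hq).comp continuous_norm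
      have h4 := h3.tendsto (0 : EE n)
      rwa [norm_zero] at h4
    filter_upwards [(Metric.tendsto_nhds.1 h2) c hc] with y hy
    rw [Real.dist_eq] at hy
    have h5 : GG n q y - GG n q 0 - (mm n q 0 • ContinuousLinearMap.id ℝ (EE n)) (y - 0) =
        (mm n q ‖y‖ - mm n q 0) • y := by
      unfold GG
      simp [sub_smul]
    rw [h5, norm_smul, sub_zero, Real.norm_eq_abs]
    exact mul_le_mul_of_nonneg_right hy.le (norm_nonneg _)
  · have hx0 : 0 < ‖x‖ := norm_pos_iff.2 hx
    have h1 := (mm_deriv (n := n) hq hx0).comp_hasFDerivAt x (norm_deriv hx)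
    have h2 := h1.smul (hasFDerivAt_id x)
    refine HasFDerivAt.congr_fderiv (f := GG n q) h2 ?_
    unfold DG
    ext y i
    simp
    field_simp

theorem DG_cont (hq : Continuous q) : Continuous (DG n q) := by
  unfold DG
  refine Continuous.add ?_ ?_
  · have h1 : Continuous (fun y : EE n => mm n q ‖y‖) := (mm_cont hq).comp continuous_norm
    exact h1.smul continuous_const
  · have hp : Continuous (fun y : EE n => pp n q ‖y‖) := (pp_cont hq).comp continuous_norm
    have hs : Continuous (fun x : EE n => (innerSL ℝ x).smulRight x) := by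
      have h2 : Continuous (fun x : EE n =>
          ContinuousLinearMap.smulRightL ℝ (EE n) (EE n) (innerSL ℝ x) x) := by
        fun_prop
      exact h2
    rw [continuous_iff_continuousAt]
    intro x
    rcases eq_or_ne x 0 with rfl | hx
    · have h3 : (pp n q ‖(0 : EE n)‖ / ‖(0 : EE n)‖ ^ 2) •
          (innerSL ℝ (0 : EE n)).smulRight (0 : EE n) = 0 := by simp
      unfold ContinuousAt
      beta_reduce
      rw [h3]
      have h4 : Tendsto (fun y : EE n => |pp n q ‖y‖|) (𝓝 0) (𝓝 0) := by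
        have h5 := hp.abs.tendsto (0 : EE n)
        rwa [norm_zero, pp_zero, abs_zero] at h5
      refine squeeze_zero_norm (fun y => ?_) h4
      rw [norm_smul, ContinuousLinearMap.norm_smulRight_apply, innerSL_apply_norm,
        Real.norm_eq_abs, abs_div, abs_of_nonneg (sq_nonneg ‖y‖), ← sq]
      rcases eq_or_ne y 0 with rfl | hy
      · simp
      · have : ‖y‖ ^ 2 ≠ 0 := pow_ne_zero 2 (norm_ne_zero_iff.2 hy)
        rw [div_mul_cancel₀ _ this]
    · have hx0 : ‖x‖ ^ 2 ≠ 0 := pow_ne_zero 2 (norm_ne_zero_iff.2 hx)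
      exact (hp.continuousAt.div (continuous_norm.pow 2).continuousAt hx0).smul hs.continuousAt

theorem G_contDiff (hq : Continuous q) : ContDiff ℝ 1 (GG n q) := by
  rw [contDiff_one_iff_fderiv]
  refine ⟨fun x => (G_deriv hq x).differentiableAt, ?_⟩
  have h1 : fderiv ℝ (GG n q) = DG n q := funext fun x => (G_deriv hq x).fderiv
  rw [h1]
  exact DG_cont hq

end RadAux

open RadAux

theorem radP : RadP := by
  intro n u q hu hq h
  have h1 : fderiv ℝ (fun x : EE n => u ‖x‖) =
      fun x => (innerSL ℝ : EE n →L[ℝ] EE n →L[ℝ] ℝ) (GG n q x) :=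
    funext fun x => (U_deriv hu hq h x).fderiv
  refine ⟨?_, fun x => ?_⟩
  · have h2 : ContDiff ℝ (1 + 1) (fun x : EE n => u ‖x‖) := by
      rw [contDiff_succ_iff_fderiv]
      refine ⟨fun x => (U_deriv hu hq h x).differentiableAt, by simp, ?_⟩
      rw [h1]
      exact (ContinuousLinearMap.contDiff _).comp (G_contDiff hq)
    exact h2
  · unfold lap
    have h2 : ∀ i : Fin (n + 1), iteratedFDeriv ℝ 2 (fun y : EE n => u ‖y‖) x
        ![EuclideanSpace.single i 1, EuclideanSpace.single i 1] =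
        mm n q ‖x‖ + pp n q ‖x‖ / ‖x‖ ^ 2 * (x i) ^ 2 := by
      intro i
      rw [iteratedFDeriv_two_apply, h1]
      have h3 := ((innerSL ℝ : EE n →L[ℝ] EE n →L[ℝ] ℝ).hasFDerivAt.comp x (G_deriv hq x)).fderiv
      have h4 : fderiv ℝ (fun x => (innerSL ℝ : EE n →L[ℝ] EE n →L[ℝ] ℝ) (GG n q x)) x =
        (innerSL ℝ : EE n →L[ℝ] EE n →L[ℝ] ℝ).comp (DG n q x) := h3
      rw [h4]
      unfold DG
      have h5 : ∀ z w : EE n, (innerSL ℝ : EE n →L[ℝ] EE n →L[ℝ] ℝ) z w = ⟪z, w⟫_ℝ :=
        fun z w => rfl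
      have h6 : ⟪EuclideanSpace.single i (1 : ℝ), EuclideanSpace.single i (1 : ℝ)⟫_ℝ = 1 := by
        simp [EuclideanSpace.inner_single_right]
      have h7 : ⟪x, EuclideanSpace.single i (1 : ℝ)⟫_ℝ = x i := by
        simp [EuclideanSpace.inner_single_right]
      simp only [Matrix.cons_val_zero, Matrix.cons_val_one, ContinuousLinearMap.comp_apply,
        ContinuousLinearMap.add_apply, ContinuousLinearMap.smul_apply,
        ContinuousLinearMap.id_apply, ContinuousLinearMap.smulRight_apply, h5, inner_add_left,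
        real_inner_smul_left, h6, h7, innerSL_apply_apply]
      ring
    rw [Finset.sum_congr rfl fun i _ => h2 i, Finset.sum_add_distrib, ← Finset.mul_sum,
      ← EuclideanSpace.real_norm_sq_eq]
    simp only [Finset.sum_const, Finset.card_univ, Fintype.card_fin, nsmul_eq_mul]
    rcases eq_or_ne x 0 with rfl | hx
    · have h5 := mm_zero (n := n) (q := q)
      simp only [norm_zero]
      push_cast
      rw [h5]
      simp
    · have : ‖x‖ ^ 2 ≠ 0 := pow_ne_zero 2 (norm_ne_zero_iff.2 hx)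
      rw [div_mul_cancel₀ _ this]
      unfold pp
      push_cast
      ring

end Pool.Agent.R525.FP
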