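import Pool.Agent.R525.FP.Stm

/-!
# FP-REG: regularity
-/

set_option autoImplicit false

open MeasureTheory Set Filter Topology

namespace Pool.Agent.R525.FP

namespace RegAux

/-- signed square root -/
noncomputable def psi (x : ℝ) : ℝ := Real.sqrt (max x 0) - Real.sqrt (max (-x) 0)

theorem psi_cont : Continuous psi := by
  unfold psi
  fun_prop

theorem psi_abs (x : ℝ) : |psi x| * psi x = x := by
  unfold psi
  rcases le_total 0 x with h | h
  · rw [max_eq_left h, max_eq_right (by linarith), Real.sqrt_zero, sub_zero,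
      abs_of_nonneg (Real.sqrt_nonneg x), Real.mul_self_sqrt h]
  · rw [max_eq_right h, max_eq_left (by linarith), Real.sqrt_zero, zero_sub, abs_neg,
      abs_of_nonneg (Real.sqrt_nonneg _), mul_neg, Real.mul_self_sqrt (by linarith)]
    ring

theorem psi_inv (y : ℝ) : psi (|y| * y) = y := by
  unfold psi
  rcases le_total 0 y with h | h
  · rw [abs_of_nonneg h, max_eq_left (mul_nonneg h h), max_eq_right (by nlinarith),
      Real.sqrt_zero, sub_zero, Real.sqrt_mul_self h]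
  · rw [abs_of_nonpos h, max_eq_right (by nlinarith), max_eq_left (by nlinarith),
      Real.sqrt_zero, zero_sub]
    have h1 : -(-y * y) = (-y) * (-y) := by ring
    rw [h1, Real.sqrt_mul_self (by linarith)]
    ring

theorem fin_wm (n : ℕ) (R : ℝ) : IsFiniteMeasure (wm n R) := by
  unfold wm
  refine isFiniteMeasure_withDensity_ofReal ?_
  exact (((continuous_pow n).integrableOn_Icc (a := 0) (b := R)).mono_set
    Ioo_subset_Icc_self).hasFiniteIntegral

theorem ae_mem (n : ℕ) (R : ℝ) : ∀ᵐ s ∂(wm n R), s ∈ Ioo (0:ℝ) R := by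
  have h : wm n R ≪ volume.restrict (Ioo 0 R) := withDensity_absolutelyContinuous _ _
  exact h.ae_le (ae_restrict_mem measurableSet_Ioo)

/-- the inner integral -/
noncomputable def GG (n : ℕ) (g : ℝ → ℝ) (u : ℝ) : ℝ := (u ^ n)⁻¹ * ∫ s in (0:ℝ)..u, g s * s ^ n

theorem GG_cont (n : ℕ) (R : ℝ) (hR : 0 < R) (g : ℝ → ℝ)
    (hg : IntervalIntegrable (fun s => g s * s ^ n) volume 0 R) :
    ContinuousOn (GG n g) (Ioo 0 R) := by
  have h1 : ContinuousOn (fun u => ∫ s in (0:ℝ)..u, g s * s ^ n) (Icc 0 R) := by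
    have h2 : IntegrableOn (fun s => g s * s ^ n) (uIcc 0 R) volume := by
      rw [uIcc_of_le hR.le, integrableOn_Icc_iff_integrableOn_Ioc]
      exact (intervalIntegrable_iff_integrableOn_Ioc_of_le hR.le).1 hg
    have h3 := intervalIntegral.continuousOn_primitive_interval h2
    rwa [uIcc_of_le hR.le] at h3
  unfold GG
  refine ContinuousOn.mul ?_ (h1.mono Ioo_subset_Icc_self)
  refine ContinuousOn.inv₀ (continuous_pow n).continuousOn ?_
  intro x hx
  exact pow_ne_zero _ hx.1.ne'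

theorem GG_bound (n : ℕ) (R K : ℝ) (g : ℝ → ℝ)
    (hK : ∀ s ∈ Ioo (0:ℝ) R, |g s| ≤ K) (u : ℝ) (hu : u ∈ Ioo (0:ℝ) R) :
    ‖GG n g u‖ ≤ K * R := by
  have hK0 : 0 ≤ K := (abs_nonneg _).trans (hK u hu)
  have h1 : ‖∫ s in (0:ℝ)..u, g s * s ^ n‖ ≤ (K * u ^ n) * |u - 0| := by
    refine intervalIntegral.norm_integral_le_of_norm_le_const ?_
    intro x hx
    rw [uIoc_of_le hu.1.le] at hx
    rw [norm_mul, Real.norm_eq_abs, norm_pow, Real.norm_eq_abs, abs_of_pos hx.1]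
    refine mul_le_mul (hK x ⟨hx.1, lt_of_le_of_lt hx.2 hu.2⟩) ?_ (pow_nonneg hx.1.le _) hK0
    exact pow_le_pow_left₀ hx.1.le hx.2 n
  have hu0 : (0:ℝ) < u ^ n := pow_pos hu.1 n
  unfold GG
  rw [norm_mul, norm_inv, Real.norm_eq_abs (u ^ n), abs_of_pos hu0]
  rw [sub_zero, abs_of_pos hu.1] at h1
  calc (u ^ n)⁻¹ * ‖∫ s in (0:ℝ)..u, g s * s ^ n‖ ≤ (u ^ n)⁻¹ * ((K * u ^ n) * u) :=
        mul_le_mul_of_nonneg_left h1 (inv_nonneg.2 hu0.le)
    _ = K * u := by field_simp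
    _ ≤ K * R := mul_le_mul_of_nonneg_left hu.2.le hK0

theorem GG_int (n : ℕ) (R K : ℝ) (hR : 0 < R) (g : ℝ → ℝ)
    (hg : IntervalIntegrable (fun s => g s * s ^ n) volume 0 R)
    (hK : ∀ s ∈ Ioo (0:ℝ) R, |g s| ≤ K) : IntegrableOn (GG n g) (Icc 0 R) volume := by
  rw [integrableOn_Icc_iff_integrableOn_Ioc, integrableOn_Ioc_iff_integrableOn_Ioo]
  have hfin : IsFiniteMeasure (volume.restrict (Ioo (0:ℝ) R)) :=
    ⟨by rw [Measure.restrict_apply_univ]; simp⟩
  refine Integrable.of_bound ((GG_cont n R hR g hg).aestronglyMeasurable measurableSet_Ioo)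
    (K * R) ?_
  filter_upwards [ae_restrict_mem measurableSet_Ioo] with u hu
  exact GG_bound n R K g hK u hu

/-- the outer integral -/
noncomputable def FI (n : ℕ) (R : ℝ) (g : ℝ → ℝ) (r : ℝ) : ℝ := - ∫ u in r..R, GG n g u

theorem FI_cont (n : ℕ) (R K : ℝ) (hR : 0 < R) (g : ℝ → ℝ)
    (hg : IntervalIntegrable (fun s => g s * s ^ n) volume 0 R)
    (hK : ∀ s ∈ Ioo (0:ℝ) R, |g s| ≤ K) : ContinuousOn (FI n R g) (Icc 0 R) := by
  have h1 := GG_int n R K hR g hg hK
  rw [← uIcc_of_le hR.le] at h1 ⊢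
  exact (intervalIntegral.continuousOn_primitive_interval_left h1).neg

theorem FI_deriv (n : ℕ) (R K : ℝ) (hR : 0 < R) (g : ℝ → ℝ)
    (hg : IntervalIntegrable (fun s => g s * s ^ n) volume 0 R)
    (hK : ∀ s ∈ Ioo (0:ℝ) R, |g s| ≤ K) (r : ℝ) (hr : r ∈ Ioo (0:ℝ) R) :
    HasDerivAt (FI n R g) (GG n g r) r := by
  have h1 := GG_int n R K hR g hg hK
  have h2 := GG_cont n R hR g hg
  have h3 : IntervalIntegrable (GG n g) volume r R := by
    rw [intervalIntegrable_iff_integrableOn_Ioc_of_le hr.2.le]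
    refine h1.mono_set ?_
    intro x hx
    exact ⟨hr.1.le.trans hx.1.le, hx.2⟩
  have h4 := intervalIntegral.integral_hasDerivAt_left h3
    (h2.stronglyMeasurableAtFilter isOpen_Ioo r hr) (h2.continuousAt (isOpen_Ioo.mem_nhds hr))
  have h5 := h4.neg
  rw [neg_neg] at h5
  exact h5

end RegAux

open RegAux in
/-- FP-REG -/
theorem regP (h1 : KerP) (h2 : ItP) (h3 : BootP) : RegP := by
  intro n R μ c g hR hμ hadm hEL
  have hfw := fin_wm n R
  obtain ⟨B, hB⟩ := h3 n R μ c g hR hμ hadm.1 hEL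
  obtain ⟨-, hL3, -, -⟩ := h1 n R hR
  have hF3 : MemLp (FF n R g) 3 (wm n R) := hL3 g hadm.1
  have hgi : Integrable g (wm n R) := hadm.1.integrable (by norm_num)
  -- the function q
  set q : ℝ → ℝ := fun r => 3 * (FF n R g r) ^ 2 - 2 * μ * FF n R g r with hq
  have hqB : ∀ s ∈ Ioo (0:ℝ) R, |q s| ≤ 3 * B ^ 2 + 2 * μ * B := by
    intro s hs
    have h4 := hB s hs
    have h5 : |q s| ≤ |3 * (FF n R g s) ^ 2| + |2 * μ * FF n R g s| := abs_sub _ _
    have h6 : |3 * (FF n R g s) ^ 2| = 3 * |FF n R g s| ^ 2 := by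
      rw [abs_mul, abs_pow]; norm_num
    have h7 : |2 * μ * FF n R g s| = 2 * μ * |FF n R g s| := by
      rw [abs_mul, abs_of_pos (by linarith : (0:ℝ) < 2 * μ)]
    rw [h6, h7] at h5
    have h8 : |FF n R g s| ^ 2 ≤ B ^ 2 := pow_le_pow_left₀ (abs_nonneg _) h4 2
    have h9 : 2 * μ * |FF n R g s| ≤ 2 * μ * B := mul_le_mul_of_nonneg_left h4 (by linarith)
    linarith
  have hqm : AEStronglyMeasurable q (wm n R) :=
    ((hF3.aestronglyMeasurable.pow 2).const_mul 3).sub (hF3.aestronglyMeasurable.const_mul (2 * μ))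
  have hqi : Integrable q (wm n R) := by
    refine Integrable.of_bound hqm (3 * B ^ 2 + 2 * μ * B) ?_
    filter_upwards [ae_mem n R] with s hs
    exact hqB s hs
  obtain ⟨q1, q2, q3⟩ := h2 n R hR q hqi
  have hHc := FI_cont n R _ hR q q1 hqB
  have hHd := FI_deriv n R _ hR q q1 hqB
  -- the function h
  set h : ℝ → ℝ := fun s => (c + FI n R q s) / (3 * μ) with hh
  have hhc : ContinuousOn h (Icc 0 R) := (continuousOn_const.add hHc).div_const _
  set g₁ : ℝ → ℝ := fun s => psi (h s) with hg₁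
  have hg₁c : ContinuousOn g₁ (Icc 0 R) := psi_cont.comp_continuousOn hhc
  have hae : ∀ᵐ s ∂(wm n R), g s = g₁ s := by
    filter_upwards [hEL, ae_mem n R] with s hs hs'
    have h4 : FF n R q s = FI n R q s := q3 s ⟨hs'.1, hs'.2.le⟩
    have h5 : |g s| * g s = h s := by
      show |g s| * g s = (c + FI n R q s) / (3 * μ)
      rw [← h4, ← hs]
      field_simp
    show g s = psi (h s)
    rw [← h5, psi_inv]
  have hg₁i : Integrable g₁ (wm n R) := hgi.congr hae
  obtain ⟨K, hK⟩ := isCompact_Icc.exists_bound_of_continuousOn hg₁c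
  have hK' : ∀ s ∈ Ioo (0:ℝ) R, |g₁ s| ≤ K := fun s hs => hK s ⟨hs.1.le, hs.2.le⟩
  obtain ⟨p1, p2, p3⟩ := h2 n R hR g₁ hg₁i
  have hFF : ∀ r, FF n R g₁ r = FF n R g r := by
    intro r
    unfold FF
    congr 1
    refine integral_congr_ae ?_
    filter_upwards [hae] with s hs
    rw [hs]
  have hfF : ∀ r ∈ Ioc (0:ℝ) R, FI n R g₁ r = FF n R g r := by
    intro r hr
    rw [← hFF r]
    exact (p3 r hr).symm
  refine ⟨FI n R g₁, g₁, h, ?_, hfF, hae⟩
  refine ⟨FI_cont n R K hR g₁ p1 hK', hg₁c, hhc, fun r _ => (psi_abs (h r)).symm, ?_, ?_,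
    fun r hr => FI_deriv n R K hR g₁ p1 hK' r hr, ?_⟩
  · unfold FI
    rw [intervalIntegral.integral_same, neg_zero]
  · rw [← p2, ← integral_congr_ae hae]
    exact hadm.2
  · intro r hr
    have h4 := ((hHd r hr).const_add c).div_const (3 * μ)
    have h5 : GG n q r / (3 * μ) = (r ^ n)⁻¹ * ∫ s in (0:ℝ)..r,
        ((FI n R g₁ s) ^ 2 / μ - 2 / 3 * FI n R g₁ s) * s ^ n := by
      have h6 : ∫ s in (0:ℝ)..r, ((FI n R g₁ s) ^ 2 / μ - 2 / 3 * FI n R g₁ s) * s ^ n =
          ∫ s in (0:ℝ)..r, (3 * μ)⁻¹ * (q s * s ^ n) := by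
        refine intervalIntegral.integral_congr_ae (Eventually.of_forall fun x hx => ?_)
        rw [uIoc_of_le hr.1.le] at hx
        rw [hfF x ⟨hx.1, hx.2.trans hr.2.le⟩]
        show ((FF n R g x) ^ 2 / μ - 2 / 3 * FF n R g x) * x ^ n =
          (3 * μ)⁻¹ * ((3 * (FF n R g x) ^ 2 - 2 * μ * FF n R g x) * x ^ n)
        field_simp
      rw [h6, intervalIntegral.integral_const_mul]
      unfold GG
      rw [div_eq_mul_inv]
      ring
    rw [← h5]
    exact h4

end Pool.Agent.R525.FP
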