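import Pool.Agent.R525.FP.Stm

/-! FP-SUP: sup bound on an interval (helper662, for project FP of helper525) -/

set_option autoImplicit false

open MeasureTheory Set

namespace Pool.Agent.R525.FP

namespace SUPAux

theorem mv {f f1 : ℝ → ℝ} {a b M : ℝ} (hf : ContinuousOn f (Icc a b))
    (hd : ∀ r ∈ Ioo a b, HasDerivAt f (f1 r) r) (hM : ∀ r ∈ Ioo a b, |f1 r| ≤ M) :
    ∀ x ∈ Icc a b, ∀ y ∈ Icc a b, |f x - f y| ≤ M * |x - y| := by
  have key : ∀ x ∈ Icc a b, ∀ y ∈ Icc a b, x < y → |f x - f y| ≤ M * |x - y| := by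
    intro x hx y hy hxy
    obtain ⟨c, hc, hc'⟩ := exists_hasDerivAt_eq_slope f f1 hxy
      (hf.mono (Icc_subset_Icc hx.1 hy.2))
      (fun r hr => hd r ⟨lt_of_le_of_lt hx.1 hr.1, lt_of_lt_of_le hr.2 hy.2⟩)
    have hyx : 0 < y - x := by linarith
    have h1 : f y - f x = f1 c * (y - x) := by
      rw [hc']
      field_simp
    have h2 : |f y - f x| = |f1 c| * |y - x| := by rw [h1, abs_mul]
    rw [abs_sub_comm, h2, abs_sub_comm x y]
    exact mul_le_mul_of_nonneg_right
      (hM c ⟨lt_of_le_of_lt hx.1 hc.1, lt_of_lt_of_le hc.2 hy.2⟩) (abs_nonneg _)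
  intro x hx y hy
  rcases lt_trichotomy x y with h | h | h
  · exact key x hx y hy h
  · subst h
    simp
  · rw [abs_sub_comm, abs_sub_comm x y]
    exact key y hy x hx h

/-- a point where `f` is small -/
theorem pt {f : ℝ → ℝ} {a b c d : ℝ} (hf : ContinuousOn f (Icc a b)) (hac : a ≤ c) (hcd : c < d)
    (hdb : d ≤ b) (hl : 1 / 9 ≤ d - c) :
    ∃ x ∈ Icc c d, |f x| ≤ 3 * (∫ s in a..b, f s ^ 2) ^ (1 / 2 : ℝ) := by
  have hsub : Icc c d ⊆ Icc a b := Icc_subset_Icc hac hdb
  have hf2 : ContinuousOn (fun s => f s ^ 2) (Icc a b) := hf.pow 2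
  obtain ⟨x, hx, hmin⟩ := isCompact_Icc.exists_isMinOn (nonempty_Icc.2 hcd.le) (hf2.mono hsub)
  refine ⟨x, hx, ?_⟩
  have hab : a ≤ b := by linarith
  have hi : IntervalIntegrable (fun s => f s ^ 2) volume a b :=
    hf2.intervalIntegrable_of_Icc hab
  have hi' : IntervalIntegrable (fun s => f s ^ 2) volume c d :=
    (hf2.mono hsub).intervalIntegrable_of_Icc hcd.le
  have h1 : (d - c) * f x ^ 2 ≤ ∫ s in c..d, f s ^ 2 := by
    have h2 : ∫ _s in c..d, f x ^ 2 ≤ ∫ s in c..d, f s ^ 2 :=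
      intervalIntegral.integral_mono_on hcd.le (by simp) hi' fun s hs => hmin hs
    rwa [intervalIntegral.integral_const, smul_eq_mul] at h2
  have h3 : ∫ s in c..d, f s ^ 2 ≤ ∫ s in a..b, f s ^ 2 :=
    intervalIntegral.integral_mono_interval hac hcd.le hdb
      (Filter.Eventually.of_forall fun s => sq_nonneg _) hi
  have h4 : f x ^ 2 ≤ 9 * ∫ s in a..b, f s ^ 2 := by
    nlinarith [sq_nonneg (f x)]
  have h5 : 0 ≤ ∫ s in a..b, f s ^ 2 := by nlinarith [sq_nonneg (f x)]
  rw [← Real.sqrt_eq_rpow]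
  apply abs_le_of_sq_le_sq _ (by positivity)
  rw [mul_pow, Real.sq_sqrt h5]
  linarith

/-- Jensen -/
theorem jen {g : ℝ → ℝ} {a b : ℝ} (hab : a ≤ b) (h1 : b - a ≤ 1) (hg : ContinuousOn g (Icc a b)) :
    ∫ s in a..b, |g s| ≤ (∫ s in a..b, |g s| ^ 3) ^ (1 / 3 : ℝ) := by
  set m : ℝ := ∫ s in a..b, |g s| with hm
  have hm0 : 0 ≤ m := intervalIntegral.integral_nonneg hab fun s _ => abs_nonneg _
  have hi1 : IntervalIntegrable (fun s => |g s|) volume a b :=
    hg.abs.intervalIntegrable_of_Icc hab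
  have hi3 : IntervalIntegrable (fun s => |g s| ^ 3) volume a b :=
    (hg.abs.pow 3).intervalIntegrable_of_Icc hab
  have h2 : ∫ s in a..b, (3 * m ^ 2 * |g s| - 2 * m ^ 3) ≤ ∫ s in a..b, |g s| ^ 3 := by
    apply intervalIntegral.integral_mono_on hab _ hi3
    · intro s _
      nlinarith [mul_nonneg (sq_nonneg (|g s| - m)) (by positivity : 0 ≤ |g s| + 2 * m)]
    · exact (hi1.const_mul _).sub (by simp)
  rw [intervalIntegral.integral_sub (hi1.const_mul _) (by simp),
    intervalIntegral.integral_const_mul, intervalIntegral.integral_const, smul_eq_mul,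
    ← hm] at h2
  have h3 : m ^ 3 ≤ ∫ s in a..b, |g s| ^ 3 := by
    have h4 : (b - a) * (2 * m ^ 3) ≤ 1 * (2 * m ^ 3) :=
      mul_le_mul_of_nonneg_right h1 (by positivity)
    nlinarith
  have h5 : (m ^ 3) ^ (1 / 3 : ℝ) = m := by
    have := Real.pow_rpow_inv_natCast hm0 (n := 3) (by norm_num)
    rw [show (1 / 3 : ℝ) = ((3 : ℕ) : ℝ)⁻¹ by norm_num]
    exact this
  rw [← h5]
  exact Real.rpow_le_rpow (by positivity) h3 (by norm_num)

end SUPAux

open SUPAux in
theorem supP : SupP := by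
  intro n
  refine ⟨3 + 54 * 2 ^ n, by positivity, ?_⟩
  intro a b f f1 g ha hl1 hl2 hf hg hd hd1 r hr
  have hab : a < b := by linarith
  set A : ℝ := (∫ s in a..b, |g s| ^ 3) ^ (1 / 3 : ℝ) with hA
  set Q : ℝ := (∫ s in a..b, f s ^ 2) ^ (1 / 2 : ℝ) with hQ
  have hjen := jen hab.le hl2 hg
  have hgi : 0 ≤ ∫ s in a..b, |g s| :=
    intervalIntegral.integral_nonneg hab.le fun s _ => abs_nonneg _
  have hA0 : 0 ≤ A := hgi.trans hjen
  have hQ0 : 0 ≤ Q := Real.rpow_nonneg
    (intervalIntegral.integral_nonneg hab.le fun s _ => sq_nonneg _) _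
  obtain ⟨p, hp, hp'⟩ := pt hf (c := a) (d := a + (b - a) / 3) le_rfl (by linarith) (by linarith)
    (by linarith)
  obtain ⟨q, hq, hq'⟩ := pt hf (c := b - (b - a) / 3) (d := b) (by linarith) (by linarith) le_rfl
    (by linarith)
  rw [← hQ] at hp' hq'
  have hpq : p < q := by linarith [hp.2, hq.1]
  have hpI : p ∈ Icc a b := ⟨hp.1, by linarith [hp.2]⟩
  have hqI : q ∈ Icc a b := ⟨by linarith [hq.1], hq.2⟩
  obtain ⟨y, hy, hy'⟩ := exists_hasDerivAt_eq_slope f f1 hpq
    (hf.mono (Icc_subset_Icc hpI.1 hqI.2))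
    (fun r hr => hd r ⟨lt_of_le_of_lt hpI.1 hr.1, lt_of_lt_of_le hr.2 hqI.2⟩)
  have hyI : y ∈ Ioo a b := ⟨lt_of_le_of_lt hpI.1 hy.1, lt_of_lt_of_le hy.2 hqI.2⟩
  have hfy : |f1 y| ≤ 54 * Q := by
    have hgap : 1 / 9 ≤ q - p := by linarith [hp.2, hq.1]
    have hgap0 : 0 < q - p := by linarith
    rw [hy', abs_div, abs_of_pos hgap0, div_le_iff₀ hgap0]
    have h1 : |f q - f p| ≤ 6 * Q := by
      have := abs_sub (f q) (f p)
      linarith
    nlinarith
  -- the bound of `f1`
  have hf1 : ∀ x ∈ Ioo a b, |f1 x| ≤ 2 ^ n * (54 * Q + A) := by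
    intro x hx
    have hx0 : 0 < x := by linarith [hx.1]
    have hsub : Set.uIcc y x ⊆ Ioo a b := by
      intro s hs
      rw [Set.mem_uIcc] at hs
      rcases hs with h | h
      · exact ⟨lt_of_lt_of_le hyI.1 h.1, lt_of_le_of_lt h.2 hx.2⟩
      · exact ⟨lt_of_lt_of_le hx.1 h.1, lt_of_le_of_lt h.2 hyI.2⟩
    have hder : ∀ s ∈ Set.uIcc y x, HasDerivAt (fun s => s ^ n * f1 s) (s ^ n * g s) s := by
      intro s hs
      have hs' := hsub hs
      have hs0 : 0 < s := by linarith [hs'.1]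
      have h1 := (hasDerivAt_pow n s).mul (hd1 s hs')
      have h2 : (n : ℝ) * s ^ (n - 1) * f1 s + s ^ n * (g s - n / s * f1 s) = s ^ n * g s := by
        rcases Nat.eq_zero_or_pos n with h | h
        · subst h
          simp
        · obtain ⟨m, rfl⟩ : ∃ m, n = m + 1 := ⟨n - 1, by omega⟩
          rw [Nat.add_sub_cancel]
          field_simp
          ring
      rw [← h2]
      exact h1
    have hcont : ContinuousOn (fun s => s ^ n * g s) (Icc a b) :=
      (continuousOn_id.pow n).mul hg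
    have hint : IntervalIntegrable (fun s => s ^ n * g s) volume y x :=
      ContinuousOn.intervalIntegrable (hcont.mono (hsub.trans Ioo_subset_Icc_self))
    have h1 := intervalIntegral.integral_eq_sub_of_hasDerivAt hder hint
    have h2 : |∫ s in y..x, s ^ n * g s| ≤ b ^ n * A := by
      have hinorm : IntervalIntegrable (fun s => |s ^ n * g s|) volume a b :=
        hcont.abs.intervalIntegrable_of_Icc hab.le
      have e1 : |∫ s in y..x, s ^ n * g s| ≤ abs (∫ s in y..x, |s ^ n * g s|) := by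
        have := intervalIntegral.norm_integral_le_abs_integral_norm (f := fun s => s ^ n * g s)
          (a := y) (b := x) (μ := volume)
        simpa only [Real.norm_eq_abs] using this
      have e2 : abs (∫ s in y..x, |s ^ n * g s|) ≤ abs (∫ s in a..b, |s ^ n * g s|) := by
        apply intervalIntegral.abs_integral_mono_interval _ _ hinorm
        · rw [Set.uIoc_of_le hab.le]
          intro s hs
          have hs' := hsub (Set.uIoc_subset_uIcc hs)
          exact ⟨hs'.1, hs'.2.le⟩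
        · exact Filter.Eventually.of_forall fun s => abs_nonneg _
      have e3 : abs (∫ s in a..b, |s ^ n * g s|) = ∫ s in a..b, |s ^ n * g s| :=
        abs_of_nonneg (intervalIntegral.integral_nonneg hab.le fun s _ => abs_nonneg _)
      have e4 : ∫ s in a..b, |s ^ n * g s| ≤ ∫ s in a..b, b ^ n * |g s| := by
        apply intervalIntegral.integral_mono_on hab.le hinorm
          ((hg.abs.intervalIntegrable_of_Icc hab.le).const_mul _)
        intro s hs
        rw [abs_mul]
        apply mul_le_mul_of_nonneg_right _ (abs_nonneg _)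
        rw [abs_of_nonneg (pow_nonneg (by linarith [hs.1]) n)]
        exact pow_le_pow_left₀ (by linarith [hs.1]) hs.2 n
      rw [intervalIntegral.integral_const_mul] at e4
      have e5 : b ^ n * ∫ s in a..b, |g s| ≤ b ^ n * A :=
        mul_le_mul_of_nonneg_left hjen (pow_nonneg (by linarith) n)
      linarith
    have h3 : x ^ n * |f1 x| ≤ b ^ n * (54 * Q + A) := by
      have e1 : x ^ n * f1 x = y ^ n * f1 y + ∫ s in y..x, s ^ n * g s := by
        rw [h1]
        ring
      have e2 : x ^ n * |f1 x| = |x ^ n * f1 x| := by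
        rw [abs_mul, abs_of_nonneg (pow_nonneg hx0.le n)]
      rw [e2, e1]
      have e3 : |y ^ n * f1 y| ≤ b ^ n * (54 * Q) := by
        rw [abs_mul, abs_of_nonneg (pow_nonneg (by linarith [hyI.1]) n)]
        apply mul_le_mul _ hfy (abs_nonneg _) (pow_nonneg (by linarith) n)
        exact pow_le_pow_left₀ (by linarith [hyI.1]) hyI.2.le n
      have := abs_add_le (y ^ n * f1 y) (∫ s in y..x, s ^ n * g s)
      linarith
    have h4 : b ^ n ≤ 2 ^ n * x ^ n := by
      rw [← mul_pow]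
      exact pow_le_pow_left₀ (by linarith) (by linarith [hx.1]) n
    have h5 : x ^ n * |f1 x| ≤ x ^ n * (2 ^ n * (54 * Q + A)) := by
      have : b ^ n * (54 * Q + A) ≤ 2 ^ n * x ^ n * (54 * Q + A) :=
        mul_le_mul_of_nonneg_right h4 (by positivity)
      linarith
    exact le_of_mul_le_mul_left h5 (pow_pos hx0 n)
  have hmv := mv hf hd hf1 r hr p hpI
  have hrp : |r - p| ≤ 1 := by
    rw [abs_le]
    constructor <;> linarith [hr.1, hr.2, hpI.1, hpI.2]
  have h6 : 2 ^ n * (54 * Q + A) * |r - p| ≤ 2 ^ n * (54 * Q + A) * 1 :=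
    mul_le_mul_of_nonneg_left hrp (by positivity)
  have h7 : |f r| ≤ |f p| + |f r - f p| := by
    have := abs_add_le (f p) (f r - f p)
    rwa [add_sub_cancel] at this
  have h8 : (0 : ℝ) ≤ 2 ^ n := by positivity
  have h9 : (1 : ℝ) ≤ 2 ^ n := one_le_pow₀ (by norm_num)
  nlinarith [mul_nonneg h8 hA0, mul_nonneg h8 hQ0]

end Pool.Agent.R525.FP
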