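import Pool.Agent.R525.FP.Stm

set_option autoImplicit false

open MeasureTheory Set

namespace Pool.Agent.R525.FP

namespace SelAux

lemma integral_wm (n : ℕ) (R : ℝ) (hR : 0 < R) (F : ℝ → ℝ) :
    ∫ s, F s ∂(wm n R) = ∫ s in (0:ℝ)..R, F s * s ^ n := by
  unfold wm
  rw [integral_withDensity_eq_integral_toReal_smul (by fun_prop)
    (Filter.Eventually.of_forall (fun x => ENNReal.ofReal_lt_top)),
    intervalIntegral.integral_of_le hR.le, integral_Ioc_eq_integral_Ioo]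
  refine setIntegral_congr_fun measurableSet_Ioo (fun s hs => ?_)
  have h0 : 0 ≤ s ^ n := pow_nonneg hs.1.le n
  simp only [ENNReal.toReal_ofReal h0, smul_eq_mul]
  ring

lemma ae_wm (n : ℕ) (R : ℝ) (P : ℝ → Prop) (h : ∀ s ∈ Ioo (0:ℝ) R, P s) :
    ∀ᵐ s ∂(wm n R), P s := by
  unfold wm
  exact (withDensity_absolutelyContinuous _ _).ae_le
    (ae_restrict_of_forall_mem measurableSet_Ioo h)

end SelAux

open SelAux in
theorem selP (h1 : ItP) (h2 : MaxP) (h3 : ELP) (h4 : RegP) (h5 : SupP) (h6 : DeadP)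
    (h7 : BumpP) (h8 : LocP) : SelP := by
  have _ := h1
  intro n hn
  obtain ⟨m, hm, hbump⟩ := h7 n
  obtain ⟨ε, hε, hdead⟩ := h6 n m hm
  obtain ⟨C, hC, hsup⟩ := h5 n
  -- the small parameter
  obtain ⟨η, hη0, hη1, hηm⟩ : ∃ η : ℝ, 0 < η ∧ η ≤ 1 ∧ 2 * C * η < m := by
    refine ⟨min 1 (m / (4 * C)), lt_min one_pos (by positivity), min_le_left _ _, ?_⟩
    have h : min 1 (m / (4 * C)) ≤ m / (4 * C) := min_le_right _ _
    calc 2 * C * min 1 (m / (4 * C)) ≤ 2 * C * (m / (4 * C)) := by gcongr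
      _ = m / 2 := by field_simp; ring
      _ < m := by linarith
  obtain ⟨ρ₀, hρ1, hρη⟩ : ∃ ρ : ℝ, 1 ≤ ρ ∧ 1 ≤ ρ * η ^ 3 := by
    refine ⟨(η ^ 3)⁻¹, ?_, ?_⟩
    · exact (one_le_inv₀ (by positivity)).2 (pow_le_one₀ hη0.le hη1)
    · rw [inv_mul_cancel₀ (by positivity)]
  have hρn : 1 ≤ ρ₀ ^ n * η ^ 3 := by
    have h : ρ₀ ≤ ρ₀ ^ n := le_self_pow₀ hρ1 (by omega)
    calc (1:ℝ) ≤ ρ₀ * η ^ 3 := hρη
      _ ≤ ρ₀ ^ n * η ^ 3 := by gcongr
  obtain ⟨K, hK0, hKε⟩ : ∃ K : ℕ, 0 < K ∧ 1 / (K:ℝ) ≤ ε := by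
    obtain ⟨K, hK⟩ := exists_nat_gt (1 / ε)
    have hKpos : (0:ℝ) < K := lt_trans (by positivity) hK
    refine ⟨K, by exact_mod_cast hKpos, ?_⟩
    rw [div_le_iff₀ hKpos]
    rw [div_lt_iff₀ hε] at hK
    linarith
  obtain ⟨R, hRdef⟩ : ∃ R : ℝ, R = ρ₀ + K + 1 := ⟨_, rfl⟩
  have hKr : (1:ℝ) ≤ K := by exact_mod_cast hK0
  have hR1 : 1 ≤ R := by linarith
  have hR0 : 0 < R := by linarith
  obtain ⟨g, hg⟩ := h2 n R hR0
  obtain ⟨g₀, hg₀a, hg₀J, hg₀m⟩ := hbump R hR1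
  have hPhi : m ≤ Phi n R g := le_trans hg₀m (hg.2.2 g₀ hg₀a hg₀J)
  obtain ⟨μ, c₀, hμ, hel⟩ := h3 n R g hR0 hg (by linarith)
  have hmμ : m ≤ μ := le_trans hPhi hμ
  have hμ0 : 0 < μ := by linarith
  obtain ⟨f, g₁, h, hsol, hfF, hgg⟩ := h4 n R μ c₀ g hR0 hμ0 hg.1 hel
  -- energy in terms of f, g₁
  have hfae : ∀ᵐ s ∂(wm n R), FF n R g s = f s :=
    ae_wm n R _ (fun s hs => (hfF s ⟨hs.1, hs.2.le⟩).symm)
  have hfcont := hsol.cf
  have hgcont := hsol.cg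
  have hE1 : (∫ s, |g s| ^ 3 ∂(wm n R)) = ∫ s in (0:ℝ)..R, |g₁ s| ^ 3 * s ^ n := by
    rw [← integral_wm n R hR0]
    refine integral_congr_ae ?_
    filter_upwards [hgg] with s hs
    rw [hs]
  have hE2 : (∫ s, (FF n R g s) ^ 2 ∂(wm n R)) = ∫ s in (0:ℝ)..R, f s ^ 2 * s ^ n := by
    rw [← integral_wm n R hR0]
    refine integral_congr_ae ?_
    filter_upwards [hfae] with s hs
    rw [hs]
  have hE3 : Phi n R g = ∫ s in (0:ℝ)..R, f s ^ 3 * s ^ n := by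
    unfold Phi
    rw [← integral_wm n R hR0]
    refine integral_congr_ae ?_
    filter_upwards [hfae] with s hs
    rw [hs]
  have hJ : (∫ s in (0:ℝ)..R, |g₁ s| ^ 3 * s ^ n) + (∫ s in (0:ℝ)..R, f s ^ 2 * s ^ n) ≤ 1 := by
    have := hg.2.1
    unfold JJ at this
    rw [hE1, hE2] at this
    exact this
  -- integrability on subintervals
  have hcg3 : ContinuousOn (fun s => |g₁ s| ^ 3) (Icc 0 R) := (hgcont.abs).pow 3
  have hcf2 : ContinuousOn (fun s => f s ^ 2) (Icc 0 R) := hfcont.pow 2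
  have hcw : ContinuousOn (fun s : ℝ => s ^ n) (Icc 0 R) := (continuous_pow n).continuousOn
  have hii : ∀ {F : ℝ → ℝ}, ContinuousOn F (Icc 0 R) → ∀ {a b : ℝ}, 0 ≤ a → a ≤ b → b ≤ R →
      IntervalIntegrable F volume a b := by
    intro F hF a b ha hab hb
    refine ContinuousOn.intervalIntegrable ?_
    rw [uIcc_of_le hab]
    exact hF.mono (Icc_subset_Icc ha hb)
  -- monotonicity in the interval
  have hsub : ∀ {F : ℝ → ℝ}, ContinuousOn F (Icc 0 R) → (∀ s ∈ Icc 0 R, 0 ≤ F s) →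
      ∀ {a b : ℝ}, 0 ≤ a → a ≤ b → b ≤ R →
      (∫ s in a..b, F s) ≤ ∫ s in (0:ℝ)..R, F s := by
    intro F hF hpos a b ha hab hb
    have e1 : (∫ s in (0:ℝ)..a, F s) + (∫ s in a..b, F s) = ∫ s in (0:ℝ)..b, F s :=
      intervalIntegral.integral_add_adjacent_intervals (hii hF le_rfl ha (hab.trans hb))
        (hii hF ha hab hb)
    have e2 : (∫ s in (0:ℝ)..b, F s) + (∫ s in b..R, F s) = ∫ s in (0:ℝ)..R, F s :=
      intervalIntegral.integral_add_adjacent_intervals (hii hF le_rfl (ha.trans hab) hb)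
        (hii hF (ha.trans hab) hb le_rfl)
    have p1 : 0 ≤ ∫ s in (0:ℝ)..a, F s :=
      intervalIntegral.integral_nonneg ha (fun s hs => hpos s ⟨hs.1, hs.2.trans (hab.trans hb)⟩)
    have p2 : 0 ≤ ∫ s in b..R, F s :=
      intervalIntegral.integral_nonneg hb
        (fun s hs => hpos s ⟨(ha.trans hab).trans hs.1, hs.2⟩)
    linarith
  have hI1 : 0 ≤ ∫ s in (0:ℝ)..R, |g₁ s| ^ 3 * s ^ n :=
    intervalIntegral.integral_nonneg hR0.le (fun s hs => by
      have := hs.1; positivity)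
  have hI2 : 0 ≤ ∫ s in (0:ℝ)..R, f s ^ 2 * s ^ n :=
    intervalIntegral.integral_nonneg hR0.le (fun s hs => by
      have := hs.1; positivity)
  -- (A) pigeonhole
  have hA : ∃ i : ℕ, i < K ∧
      (∫ s in (ρ₀ + i)..(ρ₀ + i + 1), (|g₁ s| ^ 3 + f s ^ 2)) ≤ 1 / (K:ℝ) := by
    by_contra hcon
    push Not at hcon
    have hcF : ContinuousOn (fun s => |g₁ s| ^ 3 + f s ^ 2) (Icc 0 R) := hcg3.add hcf2
    have hsum : ∑ i ∈ Finset.range K, (∫ s in (ρ₀ + (i:ℕ))..(ρ₀ + ((i + 1 : ℕ) : ℝ)),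
        (|g₁ s| ^ 3 + f s ^ 2)) =
        ∫ s in (ρ₀ + ((0:ℕ):ℝ))..(ρ₀ + (K:ℝ)), (|g₁ s| ^ 3 + f s ^ 2) := by
      refine intervalIntegral.sum_integral_adjacent_intervals
        (a := fun i : ℕ => ρ₀ + (i:ℝ)) (fun i hi => ?_)
      have hiK : (i:ℝ) + 1 ≤ K := by exact_mod_cast hi
      refine hii hcF (by positivity) (by push_cast; linarith) (by push_cast; linarith)
    have hlow : (1:ℝ) < ∑ i ∈ Finset.range K, (∫ s in (ρ₀ + (i:ℕ))..(ρ₀ + ((i + 1 : ℕ) : ℝ)),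
        (|g₁ s| ^ 3 + f s ^ 2)) := by
      have : (1:ℝ) = ∑ i ∈ Finset.range K, 1 / (K:ℝ) := by
        rw [Finset.sum_const, Finset.card_range, nsmul_eq_mul]
        field_simp
      rw [this]
      refine Finset.sum_lt_sum_of_nonempty (by simpa using by omega) (fun i hi => ?_)
      have := hcon i (by simpa using hi)
      have e : ρ₀ + ((i + 1 : ℕ) : ℝ) = ρ₀ + i + 1 := by push_cast; ring
      rw [e]
      exact this
    rw [hsum] at hlow
    have hup1 : (∫ s in (ρ₀ + ((0:ℕ):ℝ))..(ρ₀ + (K:ℝ)), (|g₁ s| ^ 3 + f s ^ 2)) ≤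
        ∫ s in (ρ₀ + ((0:ℕ):ℝ))..(ρ₀ + (K:ℝ)), (|g₁ s| ^ 3 + f s ^ 2) * s ^ n := by
      refine intervalIntegral.integral_mono_on (by push_cast; linarith)
        (hii hcF (by push_cast; linarith) (by push_cast; linarith) (by linarith))
        (hii (hcF.mul hcw) (by push_cast; linarith) (by push_cast; linarith) (by linarith))
        (fun s hs => ?_)
      have hs1 : 1 ≤ s := by
        have := hs.1
        push_cast at this
        linarith
      have hsn : 1 ≤ s ^ n := one_le_pow₀ hs1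
      have hnn : 0 ≤ |g₁ s| ^ 3 + f s ^ 2 := by positivity
      nlinarith
    have hup2 : (∫ s in (ρ₀ + ((0:ℕ):ℝ))..(ρ₀ + (K:ℝ)), (|g₁ s| ^ 3 + f s ^ 2) * s ^ n) ≤
        ∫ s in (0:ℝ)..R, (|g₁ s| ^ 3 + f s ^ 2) * s ^ n :=
      hsub (hcF.mul hcw) (fun s hs => mul_nonneg
        (add_nonneg (pow_nonneg (abs_nonneg _) _) (sq_nonneg _)) (pow_nonneg hs.1 n))
        (by push_cast; linarith) (by push_cast; linarith) (by linarith)
    have hup3 : (∫ s in (0:ℝ)..R, (|g₁ s| ^ 3 + f s ^ 2) * s ^ n) =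
        (∫ s in (0:ℝ)..R, |g₁ s| ^ 3 * s ^ n) + (∫ s in (0:ℝ)..R, f s ^ 2 * s ^ n) := by
      have i1 : IntervalIntegrable (fun s => |g₁ s| ^ 3 * s ^ n) volume 0 R :=
        hii (hcg3.mul hcw) le_rfl hR0.le le_rfl
      have i2 : IntervalIntegrable (fun s => f s ^ 2 * s ^ n) volume 0 R :=
        hii (hcf2.mul hcw) le_rfl hR0.le le_rfl
      rw [← intervalIntegral.integral_add i1 i2]
      exact intervalIntegral.integral_congr (fun s _ => add_mul _ _ _)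
    linarith
  obtain ⟨i, hiK, hAi⟩ := hA
  have hiK' : (i:ℝ) + 1 ≤ K := by exact_mod_cast hiK
  have hi0 : (0:ℝ) ≤ i := Nat.cast_nonneg i
  have hloc := h8 n R μ (ρ₀ + i) (ρ₀ + i + 1) f g₁ h hsol (by linarith) (by linarith)
    (by linarith)
  have hzero := hdead (ρ₀ + i) μ f _ g₁ h _ (by linarith) hmμ hloc (hAi.trans hKε)
  refine ⟨R, μ, ρ₀ + i + 1 / 3, ρ₀ + i + 2 / 3, f, g₁, h, hμ0, hsol, by linarith, by linarith,
    by linarith, hzero, ?_⟩
  -- (B)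
  by_contra hcon
  push Not at hcon
  have hbound : ∀ x ∈ Icc ρ₀ R, |f x| ≤ 2 * C * η := by
    intro x hx
    obtain ⟨a, ha1, ha2, ha3, ha4⟩ : ∃ a : ℝ, ρ₀ ≤ a ∧ a + 1 ≤ R ∧ a ≤ x ∧ x ≤ a + 1 := by
      by_cases hxR : x + 1 ≤ R
      · exact ⟨x, hx.1, hxR, le_rfl, by linarith⟩
      · exact ⟨R - 1, by linarith, by linarith, by linarith, by linarith [hx.2]⟩
    have ha0 : 0 ≤ a := by linarith
    have hL := h8 n R μ a (a + 1) f g₁ h hsol (by linarith) (by linarith) ha2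
    have hs := hsup a (a + 1) f _ g₁ (by linarith) (by linarith) (by linarith) hL.cf hL.cg
      hL.df hL.df1 x ⟨ha3, ha4⟩
    -- the weight is at least η^{-3} on [a, a+1]
    have hwt : ∀ s ∈ Icc a (a + 1), 1 ≤ s ^ n * η ^ 3 := by
      intro s hs'
      have : ρ₀ ^ n ≤ s ^ n := pow_le_pow_left₀ (by linarith) (by linarith [hs'.1]) n
      calc (1:ℝ) ≤ ρ₀ ^ n * η ^ 3 := hρn
        _ ≤ s ^ n * η ^ 3 := by gcongr
    have key : ∀ {F : ℝ → ℝ}, ContinuousOn F (Icc 0 R) → (∀ s, 0 ≤ F s) →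
        (∫ s in (0:ℝ)..R, F s * s ^ n) ≤ 1 → (∫ s in a..(a + 1), F s) ≤ η ^ 3 := by
      intro F hF hpos hle
      have e1 : (∫ s in a..(a + 1), F s) ≤ ∫ s in a..(a + 1), (F s * s ^ n) * η ^ 3 := by
        refine intervalIntegral.integral_mono_on (by linarith) (hii hF ha0 (by linarith) ha2)
          ((hii (hF.mul hcw) ha0 (by linarith) ha2).mul_const _) (fun s hs' => ?_)
        have := hwt s hs'
        have hp := hpos s
        nlinarith
      have e2 : (∫ s in a..(a + 1), (F s * s ^ n) * η ^ 3) =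
          (∫ s in a..(a + 1), F s * s ^ n) * η ^ 3 := intervalIntegral.integral_mul_const _ _
      have e3 : (∫ s in a..(a + 1), F s * s ^ n) ≤ ∫ s in (0:ℝ)..R, F s * s ^ n :=
        hsub (hF.mul hcw) (fun s hs' => mul_nonneg (hpos s) (pow_nonneg hs'.1 n)) ha0
          (by linarith) ha2
      have e4 : (∫ s in a..(a + 1), F s * s ^ n) * η ^ 3 ≤ 1 * η ^ 3 := by
        gcongr
        linarith
      linarith
    have k1 : (∫ s in a..(a + 1), |g₁ s| ^ 3) ≤ η ^ 3 :=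
      key hcg3 (fun s => by positivity) (by linarith)
    have k2 : (∫ s in a..(a + 1), f s ^ 2) ≤ η ^ 3 :=
      key hcf2 (fun s => by positivity) (by linarith)
    have k1' : 0 ≤ (∫ s in a..(a + 1), |g₁ s| ^ 3) :=
      intervalIntegral.integral_nonneg (by linarith) (fun s _ => by positivity)
    have k2' : 0 ≤ (∫ s in a..(a + 1), f s ^ 2) :=
      intervalIntegral.integral_nonneg (by linarith) (fun s _ => by positivity)
    have r1 : (∫ s in a..(a + 1), |g₁ s| ^ 3) ^ (1 / 3 : ℝ) ≤ η := by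
      calc (∫ s in a..(a + 1), |g₁ s| ^ 3) ^ (1 / 3 : ℝ) ≤ (η ^ 3) ^ (1 / 3 : ℝ) :=
            Real.rpow_le_rpow k1' k1 (by norm_num)
        _ = η := by
            rw [← Real.rpow_natCast η 3, ← Real.rpow_mul hη0.le]
            norm_num
    have r2 : (∫ s in a..(a + 1), f s ^ 2) ^ (1 / 2 : ℝ) ≤ η := by
      calc (∫ s in a..(a + 1), f s ^ 2) ^ (1 / 2 : ℝ) ≤ (η ^ 2) ^ (1 / 2 : ℝ) := by
            refine Real.rpow_le_rpow k2' (k2.trans ?_) (by norm_num)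
            exact pow_le_pow_of_le_one hη0.le hη1 (by norm_num)
        _ = η := by
            rw [← Real.rpow_natCast η 2, ← Real.rpow_mul hη0.le]
            norm_num
    calc |f x| ≤ C * ((∫ s in a..(a + 1), |g₁ s| ^ 3) ^ (1 / 3 : ℝ) +
          (∫ s in a..(a + 1), f s ^ 2) ^ (1 / 2 : ℝ)) := hs
      _ ≤ C * (η + η) := by gcongr
      _ = 2 * C * η := by ring
  have hfin : (∫ s in (0:ℝ)..R, f s ^ 3 * s ^ n) ≤
      ∫ s in (0:ℝ)..R, (2 * C * η) * (f s ^ 2 * s ^ n) := by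
    refine intervalIntegral.integral_mono_on_of_le_Ioo hR0.le
      (hii ((hfcont.pow 3).mul hcw) le_rfl hR0.le le_rfl)
      ((hii (hcf2.mul hcw) le_rfl hR0.le le_rfl).const_mul _) (fun s hs => ?_)
    have hsn : 0 ≤ s ^ n := pow_nonneg hs.1.le n
    by_cases hsc : s < ρ₀ + i + 1 / 3
    · have := hcon s ⟨hs.1, hsc⟩
      rw [this]
      simp
    · have hb := hbound s ⟨by linarith, hs.2.le⟩
      have hb' : f s ≤ 2 * C * η := (le_abs_self _).trans hb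
      have : f s ^ 3 ≤ (2 * C * η) * f s ^ 2 := by
        have := sq_nonneg (f s)
        nlinarith
      calc f s ^ 3 * s ^ n ≤ ((2 * C * η) * f s ^ 2) * s ^ n := by gcongr
        _ = (2 * C * η) * (f s ^ 2 * s ^ n) := by ring
  rw [intervalIntegral.integral_const_mul] at hfin
  have hS0 : 0 ≤ 2 * C * η := by positivity
  have : (2 * C * η) * (∫ s in (0:ℝ)..R, f s ^ 2 * s ^ n) ≤ (2 * C * η) * 1 := by
    gcongr
    linarith
  rw [hE3] at hPhi
  linarith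

end Pool.Agent.R525.FP
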