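import Pool.Agent.R525.FP.Stm

set_option autoImplicit false

open MeasureTheory Set

namespace Pool.Agent.R525.FP

namespace Sel0Aux

theorem wm0 (R : ℝ) : wm 0 R = volume.restrict (Ioo 0 R) := by
  unfold wm
  simp only [pow_zero, ENNReal.ofReal_one]
  exact withDensity_one

theorem int0 {R : ℝ} (hR : 0 < R) (F : ℝ → ℝ) : ∫ s, F s ∂(wm 0 R) = ∫ s in (0:ℝ)..R, F s := by
  rw [wm0, intervalIntegral.integral_of_le hR.le, integral_Ioc_eq_integral_Ioo]

/-- extension by zero -/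
noncomputable def ex (R : ℝ) (φ : ℝ → ℝ) : ℝ → ℝ := (Icc 0 R).indicator φ

theorem ex_of_mem {R : ℝ} {φ : ℝ → ℝ} {s : ℝ} (h : s ∈ Icc 0 R) : ex R φ s = φ s :=
  indicator_of_mem h φ

theorem ex_of_gt {R : ℝ} {φ : ℝ → ℝ} {s : ℝ} (h : R < s) : ex R φ s = 0 :=
  indicator_of_notMem (fun h' => absurd h'.2 (not_le.2 h)) φ

theorem ex_integrable {R : ℝ} {φ : ℝ → ℝ} (hφ : ContinuousOn φ (Icc 0 R)) :
    Integrable (ex R φ) := by
  unfold ex
  rw [integrable_indicator_iff measurableSet_Icc]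
  exact hφ.integrableOn_Icc

theorem ex_comp {R : ℝ} {φ Ψ : ℝ → ℝ} (h0 : Ψ 0 = 0) (s : ℝ) :
    Ψ (ex R φ s) = ex R (fun s => Ψ (φ s)) s := by
  unfold ex
  by_cases h : s ∈ Icc 0 R
  · rw [indicator_of_mem h, indicator_of_mem h]
  · rw [indicator_of_notMem h, indicator_of_notMem h, h0]

theorem int_ex {R a b : ℝ} {φ : ℝ → ℝ} (ha : 0 ≤ a) (hab : a ≤ b) (hb : b ≤ R) :
    ∫ s in a..b, ex R φ s = ∫ s in a..b, φ s := by
  refine intervalIntegral.integral_congr fun s hs => ?_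
  rw [uIcc_of_le hab] at hs
  exact ex_of_mem ⟨ha.trans hs.1, hs.2.trans hb⟩

theorem int_ex_out {R a b : ℝ} {φ : ℝ → ℝ} (ha : R ≤ a) (hab : a ≤ b) :
    ∫ s in a..b, ex R φ s = 0 := by
  rw [intervalIntegral.integral_of_le hab]
  refine setIntegral_eq_zero_of_forall_eq_zero fun s hs => ?_
  exact ex_of_gt (lt_of_le_of_lt ha hs.1)

/-- The shift. -/
theorem int_shift {R d : ℝ} {φ Ψ : ℝ → ℝ} (hφ : ContinuousOn (fun s => Ψ (φ s)) (Icc 0 R))
    (h0 : Ψ 0 = 0) (hd : 0 ≤ d) (hdR : d ≤ R) :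
    ∫ s in (0:ℝ)..R, Ψ (ex R φ (s + d)) = ∫ s in d..R, Ψ (φ s) := by
  have h1 : ∫ s in (0:ℝ)..R, Ψ (ex R φ (s + d)) =
      ∫ s in (0:ℝ)..R, ex R (fun s => Ψ (φ s)) (s + d) :=
    intervalIntegral.integral_congr fun s _ => ex_comp h0 _
  rw [h1, intervalIntegral.integral_comp_add_right (fun s => ex R (fun s => Ψ (φ s)) s), zero_add]
  have hint := ex_integrable hφ
  rw [← intervalIntegral.integral_add_adjacent_intervals (b := R) hint.intervalIntegrable
    hint.intervalIntegrable, int_ex_out le_rfl (by linarith), add_zero, int_ex hd hdR le_rfl]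

end Sel0Aux

open Sel0Aux in
/-- The shifted function is again a maximiser. -/
theorem Sel0Aux.shift (h1 : ItP) {R d : ℝ} (hd : 0 < d) (hdR : d < R) {μ : ℝ} {g f g₁ h : ℝ → ℝ}
    (hmax : IsMax 0 R g) (hs : Sol 0 R μ f g₁ h) (hf : ∀ r ∈ Ioc (0:ℝ) R, f r = FF 0 R g r)
    (hg : ∀ᵐ s ∂(wm 0 R), g s = g₁ s) (hf0 : ∀ r ∈ Icc 0 d, f r = 0)
    (hgd : ∫ s in (0:ℝ)..d, g₁ s = 0) :
    ∃ gt : ℝ → ℝ, IsMax 0 R gt ∧ Phi 0 R gt = Phi 0 R g ∧
      ∀ r ∈ Icc (R - d) R, 0 < r → FF 0 R gt r = 0 := by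
  have hR : 0 < R := hd.trans hdR
  have hgR : ∫ s in (0:ℝ)..R, g₁ s = 0 := by
    have := hs.gR
    simpa using this
  have hgint : Integrable (ex R g₁) := ex_integrable hs.cg
  -- FF of `g₁`
  have hFF1 : ∀ r, FF 0 R g r = FF 0 R g₁ r := by
    intro r
    unfold FF
    congr 1
    refine integral_congr_ae ?_
    filter_upwards [hg] with s hs
    rw [hs]
  have hg1int : Integrable g₁ (wm 0 R) := by
    rw [wm0]
    exact (hs.cg.integrableOn_Icc).mono_set Ioo_subset_Icc_self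
  obtain ⟨-, -, hit1⟩ := h1 0 R hR g₁ hg1int
  simp only [pow_zero, inv_one, one_mul, mul_one] at hit1
  obtain ⟨G, hG⟩ : ∃ G : ℝ → ℝ, ∀ u, G u = ∫ s in (0:ℝ)..u, ex R g₁ s := ⟨_, fun _ => rfl⟩
  have hGd : G d = 0 := by
    rw [hG, int_ex le_rfl hd.le hdR.le, hgd]
  have hGR : ∀ u, R ≤ u → G u = 0 := by
    intro u hu
    rw [hG, ← intervalIntegral.integral_add_adjacent_intervals (b := R)
      hgint.intervalIntegrable hgint.intervalIntegrable, int_ex_out le_rfl hu,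
      int_ex le_rfl hR.le le_rfl, hgR, add_zero]
  have hGc : Continuous G := by
    have : G = fun u => ∫ s in (0:ℝ)..u, ex R g₁ s := funext hG
    rw [this]
    exact intervalIntegral.continuous_primitive (fun a b => hgint.intervalIntegrable) 0
  have hfG : ∀ r ∈ Ioc (0:ℝ) R, f r = -∫ u in r..R, G u := by
    intro r hr
    rw [hf r hr, hFF1, hit1 r hr]
    congr 1
    refine intervalIntegral.integral_congr fun u hu => ?_
    rw [uIcc_of_le hr.2] at hu
    change ∫ s in (0:ℝ)..u, g₁ s = G u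
    rw [hG, int_ex le_rfl (hr.1.le.trans hu.1) hu.2]
  -- the shifted function
  obtain ⟨gt, hgt⟩ : ∃ gt : ℝ → ℝ, ∀ s, gt s = ex R g₁ (s + d) := ⟨_, fun _ => rfl⟩
  have hgt' : gt = fun s => ex R g₁ (s + d) := funext hgt
  have hgti : Integrable gt := by
    rw [hgt']
    exact hgint.comp_add_right d
  have hgtw : Integrable gt (wm 0 R) := by
    rw [wm0]
    exact hgti.integrableOn
  obtain ⟨-, hit2, hit3⟩ := h1 0 R hR gt hgtw
  simp only [pow_zero, inv_one, one_mul, mul_one] at hit2 hit3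
  have hinner : ∀ u : ℝ, ∫ s in (0:ℝ)..u, gt s = G (u + d) := by
    intro u
    rw [hgt', intervalIntegral.integral_comp_add_right (fun s => ex R g₁ s), zero_add]
    have := intervalIntegral.integral_add_adjacent_intervals (a := 0) (b := d) (c := u + d)
      (f := ex R g₁) (μ := volume) hgint.intervalIntegrable hgint.intervalIntegrable
    rw [← hG, ← hG, hGd, zero_add] at this
    exact this
  have hFt : ∀ r ∈ Ioc (0:ℝ) R, FF 0 R gt r = ex R f (r + d) := by
    intro r hr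
    rw [hit3 r hr]
    simp only [hinner]
    rw [intervalIntegral.integral_comp_add_right (fun u => G u)]
    rcases le_or_gt (r + d) R with h5 | h5
    · rw [ex_of_mem ⟨by linarith [hr.1], h5⟩, hfG (r + d) ⟨by linarith [hr.1], h5⟩]
      rw [← intervalIntegral.integral_add_adjacent_intervals (b := R)
        (hGc.intervalIntegrable _ _) (hGc.intervalIntegrable _ _)]
      have : ∫ u in R..R + d, G u = 0 := by
        rw [intervalIntegral.integral_of_le (by linarith)]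
        exact setIntegral_eq_zero_of_forall_eq_zero fun u hu => hGR u hu.1.le
      rw [this, add_zero]
    · rw [ex_of_gt h5]
      have : ∫ u in (r + d)..R + d, G u = 0 := by
        rw [intervalIntegral.integral_of_le (by linarith [hr.2])]
        exact setIntegral_eq_zero_of_forall_eq_zero fun u hu => hGR u (h5.le.trans hu.1.le)
      rw [this, neg_zero]
  have hintp : ∀ (φ : ℝ → ℝ), ContinuousOn φ (Icc 0 R) → ∀ a b : ℝ, 0 ≤ a → a ≤ b → b ≤ R →
      IntervalIntegrable φ volume a b := by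
    intro φ hφ a b ha hab hb
    refine (hφ.mono ?_).intervalIntegrable
    rw [uIcc_of_le hab]
    exact Icc_subset_Icc ha hb
  have hAdm : Adm 0 R gt := by
    refine ⟨?_, ?_⟩
    · obtain ⟨B, hB⟩ := isCompact_Icc.exists_bound_of_continuousOn hs.cg
      have hfin : IsFiniteMeasure (wm 0 R) := by
        rw [wm0]
        infer_instance
      refine MemLp.of_bound hgtw.aestronglyMeasurable (max B 0) ?_
      refine Filter.Eventually.of_forall fun s => ?_
      rw [hgt]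
      by_cases h5 : s + d ∈ Icc 0 R
      · rw [ex_of_mem h5]
        exact (hB _ h5).trans (le_max_left _ _)
      · unfold ex
        rw [indicator_of_notMem h5]
        simp
    · rw [hit2, hinner, hGR _ (by linarith)]
  have hP : Phi 0 R gt = Phi 0 R g := by
    unfold Phi
    rw [int0 hR, int0 hR]
    have e1 : ∫ s in (0:ℝ)..R, FF 0 R gt s ^ 3 = ∫ s in (0:ℝ)..R, (ex R f (s + d)) ^ 3 := by
      rw [intervalIntegral.integral_of_le hR.le, intervalIntegral.integral_of_le hR.le]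
      refine setIntegral_congr_fun measurableSet_Ioc fun s hs => ?_
      change FF 0 R gt s ^ 3 = _
      rw [hFt s hs]
    have e2 : ∫ s in (0:ℝ)..R, FF 0 R g s ^ 3 = ∫ s in (0:ℝ)..R, f s ^ 3 := by
      rw [intervalIntegral.integral_of_le hR.le, intervalIntegral.integral_of_le hR.le]
      refine setIntegral_congr_fun measurableSet_Ioc fun s hs => ?_
      change FF 0 R g s ^ 3 = f s ^ 3
      rw [hf s hs]
    have e3 := int_shift (R := R) (d := d) (φ := f) (Ψ := fun x => x ^ 3) (hs.cf.pow 3)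
      (by norm_num) hd.le hdR.le
    have e4 : ∫ s in (0:ℝ)..d, f s ^ 3 = 0 := by
      rw [intervalIntegral.integral_of_le hd.le]
      refine setIntegral_eq_zero_of_forall_eq_zero fun s hs => ?_
      rw [hf0 s ⟨hs.1.le, hs.2⟩]
      norm_num
    have e5 := intervalIntegral.integral_add_adjacent_intervals (a := 0) (b := d) (c := R)
      (f := fun s => f s ^ 3) (μ := volume) (hintp _ (hs.cf.pow 3) _ _ le_rfl hd.le hdR.le)
      (hintp _ (hs.cf.pow 3) _ _ hd.le hdR.le le_rfl)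
    rw [e1, e2, ← e5, e4, zero_add]
    exact e3
  have hJ : JJ 0 R gt ≤ JJ 0 R g := by
    unfold JJ
    rw [int0 hR (fun s => |gt s| ^ 3), int0 hR (fun s => FF 0 R gt s ^ 2),
      int0 hR (fun s => FF 0 R g s ^ 2)]
    have e0 : ∫ s, |g s| ^ 3 ∂(wm 0 R) = ∫ s in (0:ℝ)..R, |g₁ s| ^ 3 := by
      rw [← int0 hR]
      refine integral_congr_ae ?_
      filter_upwards [hg] with s hs
      rw [hs]
    have e1 : ∫ s in (0:ℝ)..R, FF 0 R gt s ^ 2 = ∫ s in (0:ℝ)..R, (ex R f (s + d)) ^ 2 := by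
      rw [intervalIntegral.integral_of_le hR.le, intervalIntegral.integral_of_le hR.le]
      refine setIntegral_congr_fun measurableSet_Ioc fun s hs => ?_
      change FF 0 R gt s ^ 2 = _
      rw [hFt s hs]
    have e2 : ∫ s in (0:ℝ)..R, FF 0 R g s ^ 2 = ∫ s in (0:ℝ)..R, f s ^ 2 := by
      rw [intervalIntegral.integral_of_le hR.le, intervalIntegral.integral_of_le hR.le]
      refine setIntegral_congr_fun measurableSet_Ioc fun s hs => ?_
      change FF 0 R g s ^ 2 = f s ^ 2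
      rw [hf s hs]
    have e3 := int_shift (R := R) (d := d) (φ := f) (Ψ := fun x => x ^ 2) (hs.cf.pow 2)
      (by norm_num) hd.le hdR.le
    have e4 := int_shift (R := R) (d := d) (φ := g₁) (Ψ := fun x => |x| ^ 3) (hs.cg.abs.pow 3)
      (by norm_num) hd.le hdR.le
    simp only [hgt]
    beta_reduce at e3 e4
    rw [e0, e1, e2, e3, e4]
    refine add_le_add ?_ ?_
    · refine intervalIntegral.integral_mono_interval hd.le hdR.le le_rfl ?_
        (hintp _ (hs.cg.abs.pow 3) _ _ le_rfl hR.le le_rfl)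
      exact Filter.Eventually.of_forall fun s => by
        change (0:ℝ) ≤ |g₁ s| ^ 3
        positivity
    · refine intervalIntegral.integral_mono_interval hd.le hdR.le le_rfl ?_
        (hintp _ (hs.cf.pow 2) _ _ le_rfl hR.le le_rfl)
      exact Filter.Eventually.of_forall fun s => by
        change (0:ℝ) ≤ f s ^ 2
        positivity
  refine ⟨gt, ⟨hAdm, hJ.trans hmax.2.1, fun g' a1 a2 => ?_⟩, hP, fun r hr hr0 => ?_⟩
  · rw [hP]
    exact hmax.2.2 g' a1 a2
  · rw [hFt r ⟨hr0, hr.2⟩]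
    rcases (show R ≤ r + d by linarith [hr.1]).eq_or_lt with h5 | h5
    · rw [← h5, ex_of_mem ⟨hR.le, le_rfl⟩, hs.fR]
    · exact ex_of_gt h5

theorem sel0P (h1 : ItP) (h2 : MaxP) (h3 : ELP) (h4 : RegP) (h6 : DeadP) (h7 : BumpP)
    (h8 : LocP) : Sel0P := by
  obtain ⟨m, hm, hbump⟩ := h7 0
  obtain ⟨ε, hε, hdead⟩ := h6 0 m hm
  obtain ⟨K, hK0, hK⟩ : ∃ K : ℕ, 0 < K ∧ 1 / (K : ℝ) ≤ ε := by
    obtain ⟨K, hK⟩ := exists_nat_one_div_lt hε
    exact ⟨K + 1, Nat.succ_pos _, by push_cast; exact hK.le⟩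
  have hK0' : (0:ℝ) < K := by exact_mod_cast hK0
  obtain ⟨R, hR⟩ : ∃ R : ℝ, R = K + 2 := ⟨_, rfl⟩
  have hRpos : 0 < R := by rw [hR]; positivity
  obtain ⟨g, hmax⟩ := h2 0 R hRpos
  have hPhi : m ≤ Phi 0 R g := by
    obtain ⟨g', a1, a2, a3⟩ := hbump R (by rw [hR]; linarith)
    exact a3.trans (hmax.2.2 g' a1 a2)
  obtain ⟨μ, c0, hμ, hEL⟩ := h3 0 R g hRpos hmax (hm.trans_le hPhi)
  have hmμ : m ≤ μ := hPhi.trans hμ
  have hμ0 : 0 < μ := hm.trans_le hmμ
  obtain ⟨f, g₁, h, hs, hf, hg⟩ := h4 0 R μ c0 g hRpos hμ0 hmax.1 hEL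
  -- energy
  have hJ : (∫ s in (0:ℝ)..R, |g₁ s| ^ 3) + ∫ s in (0:ℝ)..R, f s ^ 2 ≤ 1 := by
    have := hmax.2.1
    unfold JJ at this
    have e1 : ∫ s, |g s| ^ 3 ∂(wm 0 R) = ∫ s in (0:ℝ)..R, |g₁ s| ^ 3 := by
      rw [← Sel0Aux.int0 hRpos]
      refine integral_congr_ae ?_
      filter_upwards [hg] with s hs
      rw [hs]
    have e2 : ∫ s, FF 0 R g s ^ 2 ∂(wm 0 R) = ∫ s in (0:ℝ)..R, f s ^ 2 := by
      rw [Sel0Aux.int0 hRpos]
      rw [intervalIntegral.integral_of_le hRpos.le, intervalIntegral.integral_of_le hRpos.le]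
      refine setIntegral_congr_fun measurableSet_Ioc fun s hs => ?_
      change FF 0 R g s ^ 2 = f s ^ 2
      rw [hf s hs]
    rwa [e1, e2] at this
  have hGc : ContinuousOn (fun s => |g₁ s| ^ 3 + f s ^ 2) (Icc 0 R) :=
    (hs.cg.abs.pow 3).add (hs.cf.pow 2)
  have hGi : ∀ a b : ℝ, 0 ≤ a → a ≤ b → b ≤ R →
      IntervalIntegrable (fun s => |g₁ s| ^ 3 + f s ^ 2) volume a b := by
    intro a b ha hab hb
    refine (hGc.mono ?_).intervalIntegrable
    rw [uIcc_of_le hab]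
    exact Icc_subset_Icc ha hb
  have hJ' : ∫ s in (0:ℝ)..R, (|g₁ s| ^ 3 + f s ^ 2) ≤ 1 := by
    rw [intervalIntegral.integral_add]
    · exact hJ
    · refine ContinuousOn.intervalIntegrable ?_
      rw [uIcc_of_le hRpos.le]
      exact hs.cg.abs.pow 3
    · refine ContinuousOn.intervalIntegrable ?_
      rw [uIcc_of_le hRpos.le]
      exact hs.cf.pow 2
  obtain ⟨i, hiK, hi⟩ : ∃ i : ℕ, i < K ∧
      ∫ s in ((1:ℝ) + i)..(1 + i + 1), (|g₁ s| ^ 3 + f s ^ 2) ≤ ε := by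
    by_contra hcon
    push Not at hcon
    have e1 := intervalIntegral.sum_integral_adjacent_intervals (μ := volume)
      (f := fun s => |g₁ s| ^ 3 + f s ^ 2) (a := fun k : ℕ => (1:ℝ) + k) (n := K) (by
        intro k hk
        have hk' : (k:ℝ) + 1 ≤ K := by exact_mod_cast hk
        refine hGi _ _ (by positivity) (by push_cast; linarith) ?_
        push_cast
        rw [hR]
        linarith)
    have e2 : ∑ k ∈ Finset.range K, ε ≤ ∑ k ∈ Finset.range K,
        ∫ s in ((1:ℝ) + k)..(1 + (k+1 : ℕ)), (|g₁ s| ^ 3 + f s ^ 2) := by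
      refine Finset.sum_le_sum fun k hk => ?_
      have := (hcon k (Finset.mem_range.1 hk)).le
      push_cast
      rwa [add_assoc] at this
    have e3 : ∑ k ∈ Finset.range K, ε < ∑ k ∈ Finset.range K,
        ∫ s in ((1:ℝ) + k)..(1 + (k+1 : ℕ)), (|g₁ s| ^ 3 + f s ^ 2) := by
      refine Finset.sum_lt_sum (fun k hk => ?_) ⟨0, Finset.mem_range.2 hK0, ?_⟩
      · have := (hcon k (Finset.mem_range.1 hk)).le
        push_cast
        rwa [add_assoc] at this
      · have := hcon 0 hK0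
        simpa using this
    rw [e1, Finset.sum_const, Finset.card_range, nsmul_eq_mul] at e3
    have e4 : ∫ s in ((1:ℝ) + (0:ℕ))..(1 + (K:ℝ)), (|g₁ s| ^ 3 + f s ^ 2) ≤
        ∫ s in (0:ℝ)..R, (|g₁ s| ^ 3 + f s ^ 2) := by
      refine intervalIntegral.integral_mono_interval (by positivity) (by simp) (by
        rw [hR]; linarith) ?_ (hGi _ _ le_rfl hRpos.le le_rfl)
      exact Filter.Eventually.of_forall fun s => by
        change (0:ℝ) ≤ |g₁ s| ^ 3 + f s ^ 2
        positivity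
    have e5 : 1 ≤ K * ε := by
      rw [div_le_iff₀ hK0'] at hK
      linarith
    have e6 := e3.trans_le (e4.trans hJ')
    linarith
  have hiK' : (i:ℝ) + 1 ≤ K := by exact_mod_cast hiK
  have hloc := h8 0 R μ (1 + i) (1 + i + 1) f g₁ h hs (by positivity) (by linarith)
    (by rw [hR]; linarith)
  have hdead' := hdead (1 + i) μ f _ g₁ h _ (by
    have : (0:ℝ) ≤ i := Nat.cast_nonneg i
    linarith) hmμ hloc hi
  have hi0 : (0:ℝ) ≤ i := Nat.cast_nonneg i
  by_cases hne : ∃ r ∈ Ioo 0 ((1:ℝ) + i + 1 / 3), f r ≠ 0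
  · exact ⟨R, μ, 1 + i + 1 / 3, 1 + i + 2 / 3, f, g₁, h, hμ0, hs, by positivity, by linarith,
      by rw [hR]; linarith, hdead', hne⟩
  push Not at hne
  -- `f = 0` on `(0, c)`; shift
  have hf0 : ∀ r ∈ Ioo (0:ℝ) 1, f r = 0 := fun r hr => hne r ⟨hr.1, by linarith [hr.2]⟩
  have hf00 : f 0 = 0 := by
    have hne : (nhdsWithin (0:ℝ) (Ioo 0 1)).NeBot := left_nhdsWithin_Ioo_neBot zero_lt_one
    have a1 : Filter.Tendsto f (nhdsWithin 0 (Ioo 0 1)) (nhds (f 0)) :=
      (hs.cf 0 ⟨le_rfl, hRpos.le⟩).mono (fun x hx => ⟨hx.1.le, by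
        have := hx.2
        rw [hR]
        linarith⟩)
    have a2 : Filter.Tendsto f (nhdsWithin 0 (Ioo 0 1)) (nhds 0) := by
      refine Filter.Tendsto.congr' ?_ tendsto_const_nhds
      filter_upwards [self_mem_nhdsWithin] with x hx
      exact (hf0 x hx).symm
    exact tendsto_nhds_unique a1 a2
  have hgd : ∫ s in (0:ℝ)..(1/6), g₁ s = 0 := by
    have h3' := hs.df (1/6) ⟨by norm_num, by rw [hR]; linarith⟩
    have h4' : HasDerivAt f 0 (1/6) := by
      refine (hasDerivAt_const (1/6 : ℝ) (0:ℝ)).congr_of_eventuallyEq ?_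
      filter_upwards [Ioo_mem_nhds (a := (0:ℝ)) (b := 1) (by norm_num : (0:ℝ) < 1/6)
        (by norm_num : (1/6 : ℝ) < 1)] with r hr
      exact hf0 r hr
    have h5 := h3'.unique h4'
    simpa using h5
  obtain ⟨gt, hmaxt, hPhit, hFt⟩ := Sel0Aux.shift h1 (d := 1/6) (by norm_num)
    (by rw [hR]; linarith) hmax hs hf hg (by
      intro r hr
      rcases hr.1.eq_or_lt with h0 | h0
      · rw [← h0, hf00]
      · exact hf0 r ⟨h0, by linarith [hr.2]⟩) hgd
  have hPt : 0 < Phi 0 R gt := by rw [hPhit]; exact hm.trans_le hPhi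
  obtain ⟨μt, ct, hμt, hELt⟩ := h3 0 R gt hRpos hmaxt hPt
  have hμt0 : 0 < μt := hPt.trans_le hμt
  obtain ⟨ft, gt₁, ht, hst, hft, hgt⟩ := h4 0 R μt ct gt hRpos hμt0 hmaxt.1 hELt
  have hz : ∀ r ∈ Icc (R - 1/6) R, ft r = 0 := by
    intro r hr
    have hr0 : 0 < r := by
      have := hr.1
      rw [hR] at this
      linarith
    rw [hft r ⟨hr0, hr.2⟩]
    exact hFt r hr hr0
  refine ⟨R, μt, R - 1/6, R - 1/12, ft, gt₁, ht, hμt0, hst, by rw [hR]; linarith, by linarith,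
    by linarith, fun r hr => hz r ⟨hr.1, by linarith [hr.2]⟩, ?_⟩
  by_contra hcon
  push Not at hcon
  have : Phi 0 R gt = 0 := by
    unfold Phi
    rw [Sel0Aux.int0 hRpos, intervalIntegral.integral_of_le hRpos.le]
    refine setIntegral_eq_zero_of_forall_eq_zero fun s hs => ?_
    rw [← hft s hs]
    rcases lt_or_ge s (R - 1/6) with h5 | h5
    · rw [hcon s ⟨hs.1, h5⟩]
      norm_num
    · rw [hz s ⟨h5, hs.2⟩]
      norm_num
  linarith

end Pool.Agent.R525.FP
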