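import Pool.Agent.R525.FP.Defs

set_option autoImplicit false

open MeasureTheory Set

namespace Pool.Agent.R525.FP

/-- FP-KER: bounds, linearity and symmetry of `FF`. -/
def KerP : Prop := ∀ (n : ℕ) (R : ℝ), 0 < R →
  (∃ C : ℝ, 0 ≤ C ∧ ∀ g : ℝ → ℝ, MemLp g 3 (wm n R) → ∀ r ∈ Ioo (0:ℝ) R,
    |FF n R g r| ≤ C * (∫ s, |g s| ^ 3 ∂(wm n R)) ^ (1 / 3 : ℝ) * r ^ (-(n:ℝ) / 3)) ∧
  (∀ g : ℝ → ℝ, MemLp g 3 (wm n R) → MemLp (FF n R g) 3 (wm n R)) ∧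
  (∀ (g g' : ℝ → ℝ) (t : ℝ), MemLp g 3 (wm n R) → MemLp g' 3 (wm n R) → ∀ r ∈ Ioo (0:ℝ) R,
    FF n R (fun s => g s + t * g' s) r = FF n R g r + t * FF n R g' r) ∧
  (∀ g q : ℝ → ℝ, MemLp g 3 (wm n R) → MemLp q (3 / 2) (wm n R) →
    Integrable (FF n R q) (wm n R) ∧ Integrable (fun s => g s * FF n R q s) (wm n R) ∧
    ∫ s, FF n R g s * q s ∂(wm n R) = ∫ s, g s * FF n R q s ∂(wm n R))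

/-- FP-IT: `FF` as an iterated integral. -/
def ItP : Prop := ∀ (n : ℕ) (R : ℝ), 0 < R → ∀ g : ℝ → ℝ, Integrable g (wm n R) →
  IntervalIntegrable (fun s => g s * s ^ n) volume 0 R ∧
  (∫ s, g s ∂(wm n R) = ∫ s in (0:ℝ)..R, g s * s ^ n) ∧
  ∀ r ∈ Ioc (0:ℝ) R, FF n R g r = - ∫ u in r..R, (u ^ n)⁻¹ * ∫ s in (0:ℝ)..u, g s * s ^ n

/-- FP-MAX: existence of a maximiser. -/
def MaxP : Prop := ∀ (n : ℕ) (R : ℝ), 0 < R → ∃ g, IsMax n R g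

/-- FP-EL: Euler-Lagrange equation of a maximiser. -/
def ELP : Prop := ∀ (n : ℕ) (R : ℝ) (g : ℝ → ℝ), 0 < R → IsMax n R g → 0 < Phi n R g →
  ∃ μ c : ℝ, Phi n R g ≤ μ ∧ ∀ᵐ s ∂(wm n R), 3 * μ * (|g s| * g s) =
    c + FF n R (fun r => 3 * (FF n R g r) ^ 2 - 2 * μ * FF n R g r) s

/-- FP-BOOT: a solution of the Euler-Lagrange equation is bounded. -/
def BootP : Prop := ∀ (n : ℕ) (R μ c : ℝ) (g : ℝ → ℝ), 0 < R → 0 < μ → MemLp g 3 (wm n R) →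
  (∀ᵐ s ∂(wm n R), 3 * μ * (|g s| * g s) =
    c + FF n R (fun r => 3 * (FF n R g r) ^ 2 - 2 * μ * FF n R g r) s) →
  ∃ B : ℝ, ∀ r ∈ Ioo (0:ℝ) R, |FF n R g r| ≤ B

/-- FP-REG: regularity. -/
def RegP : Prop := ∀ (n : ℕ) (R μ c : ℝ) (g : ℝ → ℝ), 0 < R → 0 < μ → Adm n R g →
  (∀ᵐ s ∂(wm n R), 3 * μ * (|g s| * g s) =
    c + FF n R (fun r => 3 * (FF n R g r) ^ 2 - 2 * μ * FF n R g r) s) →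
  ∃ f g₁ h : ℝ → ℝ, Sol n R μ f g₁ h ∧ (∀ r ∈ Ioc (0:ℝ) R, f r = FF n R g r) ∧
    (∀ᵐ s ∂(wm n R), g s = g₁ s)

/-- FP-SUP: sup bound on an interval. -/
def SupP : Prop := ∀ n : ℕ, ∃ C : ℝ, 0 < C ∧ ∀ (a b : ℝ) (f f1 g : ℝ → ℝ), 1 ≤ a →
  1 / 3 ≤ b - a → b - a ≤ 1 → ContinuousOn f (Icc a b) → ContinuousOn g (Icc a b) →
  (∀ r ∈ Ioo a b, HasDerivAt f (f1 r) r) →
  (∀ r ∈ Ioo a b, HasDerivAt f1 (g r - n / r * f1 r) r) →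
  ∀ r ∈ Icc a b, |f r| ≤ C * ((∫ s in a..b, |g s| ^ 3) ^ (1 / 3 : ℝ) +
    (∫ s in a..b, f s ^ 2) ^ (1 / 2 : ℝ))

/-- FP-CAC: Caccioppoli inequality. -/
def CacP : Prop := ∀ n : ℕ, ∃ C : ℝ, 0 < C ∧ ∀ (ρ μ : ℝ) (f f1 g h h1 : ℝ → ℝ), 1 ≤ ρ → 0 < μ →
  Loc n μ ρ (ρ + 1) f f1 g h h1 → (∀ r ∈ Icc ρ (ρ + 1), |f r| ≤ μ / 3) →
  ∀ s t : ℝ, 1 / 6 ≤ s → s < t → t ≤ 1 / 2 →
  ∫ r in (ρ + 1 / 2 - s)..(ρ + 1 / 2 + s), (|g r| ^ 3 + f r ^ 2) ≤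
    C * ((t - s) ^ 6)⁻¹ * ∫ r in (ρ + 1 / 2 - t)..(ρ + 1 / 2 + t), |f r| ^ 3

/-- FP-ITER: Stampacchia iteration. -/
def IterP : Prop := ∀ C : ℝ, 0 < C → ∃ ε : ℝ, 0 < ε ∧ ∀ E : ℝ → ℝ, (∀ s, 0 ≤ E s) →
  (∀ s t : ℝ, 1 / 6 ≤ s → s < t → t ≤ 1 / 2 → E s ≤ E t) →
  (∀ s t : ℝ, 1 / 6 ≤ s → s < t → t ≤ 1 / 2 → E s ≤ C * ((t - s) ^ 6)⁻¹ * (E t) ^ (4 / 3 : ℝ)) →
  E (1 / 2) ≤ ε → E (1 / 6) = 0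

/-- FP-DEAD: dead core lemma. -/
def DeadP : Prop := ∀ (n : ℕ) (m : ℝ), 0 < m → ∃ ε : ℝ, 0 < ε ∧
  ∀ (ρ μ : ℝ) (f f1 g h h1 : ℝ → ℝ), 1 ≤ ρ → m ≤ μ → Loc n μ ρ (ρ + 1) f f1 g h h1 →
  ∫ r in ρ..(ρ + 1), (|g r| ^ 3 + f r ^ 2) ≤ ε →
  ∀ r ∈ Icc (ρ + 1 / 3) (ρ + 2 / 3), f r = 0

/-- FP-BUMP: a lower bound of the maximum. -/
def BumpP : Prop := ∀ n : ℕ, ∃ m : ℝ, 0 < m ∧ ∀ R : ℝ, 1 ≤ R → ∃ g, Adm n R g ∧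
  JJ n R g ≤ 1 ∧ m ≤ Phi n R g

/-- FP-LOC: from `Sol` to `Loc`. -/
def LocP : Prop := ∀ (n : ℕ) (R μ a b : ℝ) (f g h : ℝ → ℝ), Sol n R μ f g h → 0 < a → a < b →
  b ≤ R → Loc n μ a b f (fun r => (r ^ n)⁻¹ * ∫ s in (0:ℝ)..r, g s * s ^ n) g h
    (fun r => (r ^ n)⁻¹ * ∫ s in (0:ℝ)..r, (f s ^ 2 / μ - 2 / 3 * f s) * s ^ n)

/-- FP-SEL: a solution with a dead interval and a nontrivial inner part, dimension at least 2. -/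
def SelP : Prop := ∀ n : ℕ, 1 ≤ n → ∃ (R μ c c' : ℝ) (f g h : ℝ → ℝ), 0 < μ ∧ Sol n R μ f g h ∧
  0 < c ∧ c < c' ∧ c' < R ∧ (∀ r ∈ Icc c c', f r = 0) ∧ ∃ r ∈ Ioo 0 c, f r ≠ 0

/-- FP-SEL0: the same in dimension 1. -/
def Sel0P : Prop := ∃ (R μ c c' : ℝ) (f g h : ℝ → ℝ), 0 < μ ∧ Sol 0 R μ f g h ∧
  0 < c ∧ c < c' ∧ c' < R ∧ (∀ r ∈ Icc c c', f r = 0) ∧ ∃ r ∈ Ioo 0 c, f r ≠ 0

/-- FP-CUT: cutting off the outer part. -/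
def CutP : Prop := ∀ (n : ℕ) (R μ c c' : ℝ) (f g h : ℝ → ℝ), 0 < μ → Sol n R μ f g h →
  0 < c → c < c' → c' < R → (∀ r ∈ Icc c c', f r = 0) → (∃ r ∈ Ioo 0 c, f r ≠ 0) →
  ∃ f' g' h' : ℝ → ℝ, Glob n μ c f' g' h'

/-- FP-RAD: radial functions of class `C²`. -/
def RadP : Prop := ∀ (n : ℕ) (u q : ℝ → ℝ), Continuous u → Continuous q →
  (∀ r, 0 < r → HasDerivAt u ((r ^ n)⁻¹ * ∫ s in (0:ℝ)..r, q s * s ^ n) r) →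
  ContDiff ℝ 2 (fun x : EuclideanSpace ℝ (Fin (n + 1)) => u ‖x‖) ∧
  ∀ x : EuclideanSpace ℝ (Fin (n + 1)), lap (fun y : EuclideanSpace ℝ (Fin (n + 1)) => u ‖y‖) x = q ‖x‖

/-- FP-GREEN: Green's identity. -/
def GreenP : Prop := ∀ (N : ℕ) (H φ : EuclideanSpace ℝ (Fin N) → ℝ), ContDiff ℝ 2 H →
  ContDiff ℝ 2 φ → HasCompactSupport φ →
  ∫ x, H x * lap φ x = ∫ x, lap H x * φ x

end Pool.Agent.R525.FP
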